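import Pool.Agent.MP_e8e0b6_ag.Defs

/-!
Linear algebraic groups, their actions on schemes, and fibre bundles with a structure group.
-/

open AlgebraicGeometry CategoryTheory Limits

namespace Pool.Agent.MP_e8e0b6_ag

/-- The matrix `g` over the `k`-algebra `φ : k → A` is invertible and its entries satisfy the
polynomial equations `I`. -/
def Solves {k A : Type} [CommRing k] [CommRing A] {n : ℕ}
    (I : Set (MvPolynomial (Fin n × Fin n) k)) (φ : k →+* A) (g : Matrix (Fin n) (Fin n) A) :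
    Prop :=
  IsUnit g.det ∧ ∀ P ∈ I, MvPolynomial.eval₂ φ (fun p => g p.1 p.2) P = 0

/-- A linear algebraic group: a closed subgroup scheme of `GL n`, given by polynomial equations
whose invertible solutions over every `k`-algebra form a group. -/
structure LinGroup (k : Type) [Field k] where
  n : ℕ
  I : Set (MvPolynomial (Fin n × Fin n) k)
  one_mem : Solves I (RingHom.id k) 1
  mul_mem : ∀ (A : Type) [CommRing A] (φ : k →+* A) (g h : Matrix (Fin n) (Fin n) A),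
    Solves I φ g → Solves I φ h → Solves I φ (g * h)
  inv_mem : ∀ (A : Type) [CommRing A] (φ : k →+* A) (g : Matrix (Fin n) (Fin n) A),
    Solves I φ g → Solves I φ g⁻¹

variable {k : Type} [Field k] {F S X : Scheme.{0}}

/-- `g` is a point of `G` with values in the `k`-scheme `w : W ⟶ Spec k`. -/
def LinGroup.Point (G : LinGroup k) {W : Scheme.{0}} (w : W ⟶ Spec (CommRingCat.of k))
    (g : Matrix (Fin G.n) (Fin G.n) Γ(W, ⊤)) : Prop :=
  Solves G.I ((Scheme.ΓSpecIso (CommRingCat.of k)).inv ≫ w.appTop).hom g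

/-- An action of `G` on the `k`-scheme `φ : F ⟶ Spec k`: for every `k`-scheme `W` an action of
the group `G(W)` on the set `F(W)`, natural in `W`. -/
structure LinGroup.Action (G : LinGroup k) (φ : F ⟶ Spec (CommRingCat.of k)) where
  act : ∀ {W : Scheme.{0}}, Matrix (Fin G.n) (Fin G.n) Γ(W, ⊤) → (W ⟶ F) → (W ⟶ F)
  over : ∀ {W : Scheme.{0}} (g) (y : W ⟶ F), G.Point (y ≫ φ) g → act g y ≫ φ = y ≫ φ
  one : ∀ {W : Scheme.{0}} (y : W ⟶ F), act 1 y = y
  mul : ∀ {W : Scheme.{0}} (g h) (y : W ⟶ F), G.Point (y ≫ φ) g → G.Point (y ≫ φ) h →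
    act (g * h) y = act g (act h y)
  natural : ∀ {W W' : Scheme.{0}} (q : W' ⟶ W) (g) (y : W ⟶ F), G.Point (y ≫ φ) g →
    q ≫ act g y = act (g.map q.appTop) (q ≫ y)

/-- `π : X ⟶ S` is a Zariski locally trivial fibre bundle with fibre `F` and structure group `G`:
the maps `t i` identify the part of `X` above `U i` with `U i × F`, and two identifications differ
by the action of a cocycle `g i j ∈ G(U i ∩ U j)`. -/
structure FibreBundle {G : LinGroup k} {φ : F ⟶ Spec (CommRingCat.of k)} (a : G.Action φ)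
    (f : S ⟶ Spec (CommRingCat.of k)) (π : X ⟶ S) where
  ι : Type
  U : ι → S.Opens
  cover : ∀ s : S, ∃ i, s ∈ U i
  t : ∀ i, (π ⁻¹ᵁ U i).toScheme ⟶ F
  isPullback : ∀ i, IsPullback (t i) (π ∣_ U i) φ ((U i).ι ≫ f)
  g : ∀ i j, Matrix (Fin G.n) (Fin G.n) Γ((U i ⊓ U j).toScheme, ⊤)
  point : ∀ i j, G.Point ((U i ⊓ U j).ι ≫ f) (g i j)
  cocycle : ∀ i j l (V : S.Opens) (h₁ : V ≤ U i ⊓ U j) (h₂ : V ≤ U j ⊓ U l) (h₃ : V ≤ U i ⊓ U l),
    (g i j).map (S.homOfLE h₁).appTop * (g j l).map (S.homOfLE h₂).appTop =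
      (g i l).map (S.homOfLE h₃).appTop
  transition : ∀ i j (h₁ : π ⁻¹ᵁ (U i ⊓ U j) ≤ π ⁻¹ᵁ U i) (h₂ : π ⁻¹ᵁ (U i ⊓ U j) ≤ π ⁻¹ᵁ U j),
    X.homOfLE h₁ ≫ t i = a.act ((g i j).map (π ∣_ (U i ⊓ U j)).appTop) (X.homOfLE h₂ ≫ t j)

end Pool.Agent.MP_e8e0b6_ag
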