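import Mathlib.Algebra.DualNumber
import Mathlib.Data.Int.Star
import Mathlib.Algebra.Order.Ring.Star
import Mathlib.LinearAlgebra.Matrix.Swap
import Mathlib.RingTheory.PowerSeries.Derivative
import Mathlib.RingTheory.SimpleRing.Principal
import Mathlib.RingTheory.Henselian
import Mathlib.RingTheory.LaurentSeries
import Mathlib.RingTheory.MvPolynomial.IrreducibleQuadratic
import Mathlib.RingTheory.RegularLocalRing.Defs
import Mathlib.Tactic.Polynomial.Basic

-- ======== part 0: formerly Pool.Agent.MP_e8e0b6_ag.Z.Form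
section MrgPart0

/-!
Polynomial maps between powers of a free module, and the linear maps that intertwine them.
-/

open MvPolynomial Matrix

namespace Pool.Agent.MP_e8e0b6_ag.Z

/-- Polynomial maps `V ^ l → V ^ m` for `V = B ^ n`. -/
abbrev Form (n : ℕ) (l m B : Type) [CommRing B] : Type :=
  Fin n → m → MvPolynomial (Fin n × l) B

/-- Square matrices. -/
abbrev Mat (n : ℕ) (B : Type) : Type := Matrix (Fin n) (Fin n) B

variable {n : ℕ} {l m A B D : Type} [CommRing A] [CommRing B] [CommRing D]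

variable (l) in
/-- The substitution `X ↦ x X`. -/
noncomputable def sub (x : Mat n B) :
    MvPolynomial (Fin n × l) B →+* MvPolynomial (Fin n × l) B :=
  eval₂Hom C fun p => ∑ b, C (x p.1 b) * X (b, p.2)

/-- `x Φ(X) = Ψ(x X)`. -/
def Hom (x : Mat n B) (Φ Ψ : Form n l m B) : Prop :=
  ∀ i j, ∑ b, C (x i b) * Φ b j = sub l x (Ψ i j)

/-- Isomorphic forms. -/
def Iso (Φ Ψ : Form n l m B) : Prop := ∃ x : Mat n B, IsUnit x.det ∧ Hom x Φ Ψ

/-- Base change of a form. -/
noncomputable def bc (φ : A →+* B) (Φ : Form n l m A) : Form n l m B :=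
  fun i j => MvPolynomial.map φ (Φ i j)

/-- Isomorphic after inverting `f`. -/
def IsoOn (f : A) (Φ Ψ : Form n l m A) : Prop :=
  ∀ (E : Type) [CommRing E] (φ : A →+* E), IsUnit (φ f) → Iso (bc φ Φ) (bc φ Ψ)

/-- `φ` is an injective localisation map for the submonoid `M`. -/
structure Frac (φ : A →+* B) (M : Submonoid A) : Prop where
  inj : Function.Injective φ
  unit : ∀ s ∈ M, IsUnit (φ s)
  den : ∀ z, ∃ s ∈ M, φ s * z ∈ φ.range

@[simp] theorem sub_C (x : Mat n B) (b : B) : sub l x (C b) = C b := eval₂Hom_C _ _ _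

@[simp] theorem sub_X (x : Mat n B) (p : Fin n × l) :
    sub l x (X p) = ∑ b, C (x p.1 b) * X (b, p.2) := eval₂Hom_X' _ _ _

theorem sub_one : sub l (1 : Mat n B) = RingHom.id _ :=
  ringHom_ext (fun b => by simp) fun p => by simp [one_apply]

theorem sub_mul (x y : Mat n B) : sub l (x * y) = (sub l y).comp (sub l x) :=
  ringHom_ext (fun b => by simp) fun p => by
    simp only [sub_X, RingHom.comp_apply, map_sum, map_mul, sub_C, mul_apply, Finset.sum_mul,
      Finset.mul_sum, mul_assoc]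
    exact Finset.sum_comm

theorem map_subst (φ : A →+* B) (x : Mat n A) (p : MvPolynomial (Fin n × l) A) :
    MvPolynomial.map φ (sub l x p) = sub l (x.map φ) (MvPolynomial.map φ p) :=
  RingHom.congr_fun (f := (MvPolynomial.map φ).comp (sub l x))
    (g := (sub l (x.map φ)).comp (MvPolynomial.map φ))
    (ringHom_ext (fun b => by simp) fun p => by simp) p

theorem bc_apply (φ : A →+* B) (Φ : Form n l m A) (i : Fin n) (j : m) :
    bc φ Φ i j = MvPolynomial.map φ (Φ i j) := rfl

theorem coeff_bc (φ : A →+* B) (Φ : Form n l m A) (i : Fin n) (j : m) (μ : Fin n × l →₀ ℕ) :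
    coeff μ (bc φ Φ i j) = φ (coeff μ (Φ i j)) := coeff_map _ _ _

theorem bc_bc (φ : A →+* B) (ψ : B →+* D) (Φ : Form n l m A) :
    bc ψ (bc φ Φ) = bc (ψ.comp φ) Φ := by
  funext i j; exact MvPolynomial.map_map _ _ _

theorem bc_id (Φ : Form n l m A) : bc (RingHom.id A) Φ = Φ := by
  funext i j; exact MvPolynomial.map_id _

theorem bc_injective {φ : A →+* B} (h : Function.Injective φ) :
    Function.Injective (bc φ : Form n l m A → Form n l m B) := fun _ _ e => by
  funext i j; exact MvPolynomial.map_injective φ h (congrFun (congrFun e i) j)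

theorem exists_bc {φ : A →+* B} {Ψ : Form n l m B} (h : ∀ i j μ, coeff μ (Ψ i j) ∈ φ.range) :
    ∃ Φ, bc φ Φ = Ψ := by
  have : ∀ i j, ∃ p, MvPolynomial.map φ p = Ψ i j := fun i j => by
    rw [← RingHom.mem_range, (Ψ i j).as_sum]
    refine sum_mem fun μ _ => ?_
    obtain ⟨a, ha⟩ := h i j μ
    exact ⟨monomial μ a, by rw [map_monomial, ha]⟩
  choose p hp using this
  exact ⟨p, by funext i j; exact hp i j⟩

variable {x y : Mat n B} {Φ Ψ Θ : Form n l m B}

theorem sum_C_one (Φ : Form n l m B) (i : Fin n) (j : m) :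
    ∑ b, C ((1 : Mat n B) i b) * Φ b j = Φ i j := by simp [one_apply, apply_ite]

theorem sum_C_mul (x y : Mat n B) (Φ : Form n l m B) (i : Fin n) (j : m) :
    ∑ b, C ((y * x) i b) * Φ b j = ∑ c, C (y i c) * ∑ b, C (x c b) * Φ b j := by
  simp only [mul_apply, map_sum, map_mul, Finset.sum_mul, Finset.mul_sum, mul_assoc]
  exact Finset.sum_comm

theorem Hom.one (Φ : Form n l m B) : Hom 1 Φ Φ := fun i j => by
  rw [sum_C_one, sub_one]; rfl

theorem Hom.eq_of_one (h : Hom 1 Φ Ψ) : Φ = Ψ := by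
  funext i j
  simpa only [sum_C_one, sub_one, RingHom.id_apply] using h i j

theorem Hom.mul (h : Hom x Φ Ψ) (h' : Hom y Ψ Θ) : Hom (y * x) Φ Θ := fun i j => by
  rw [sum_C_mul, sub_mul, RingHom.comp_apply, ← h' i j]
  simp only [h _ j, map_sum, map_mul, sub_C]

theorem exists_hom' (e : y * x = 1) (Φ : Form n l m B) : ∃ Ψ, Hom x Φ Ψ :=
  ⟨fun i j => sub l y (∑ b, C (x i b) * Φ b j), fun i j => by
    rw [← RingHom.comp_apply, ← sub_mul, e, sub_one]; rfl⟩

theorem exists_hom (hx : IsUnit x.det) (Φ : Form n l m B) : ∃ Ψ, Hom x Φ Ψ :=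
  exists_hom' (nonsing_inv_mul _ hx) Φ

theorem Hom.inv' (h : Hom x Φ Ψ) (e : y * x = 1) : Hom y Ψ Φ := by
  obtain ⟨Θ, h'⟩ := exists_hom' (mul_eq_one_comm.1 e) Ψ
  have := h.mul h'
  rw [e] at this
  rwa [this.eq_of_one]

theorem Hom.inv (h : Hom x Φ Ψ) (hx : IsUnit x.det) : Hom x⁻¹ Ψ Φ := h.inv' (nonsing_inv_mul _ hx)

theorem Hom.unique (h : Hom x Φ Ψ) (h' : Hom x Φ Θ) (hx : IsUnit x.det) : Ψ = Θ := by
  have := (h.inv hx).mul h'
  rw [mul_nonsing_inv _ hx] at this
  exact this.eq_of_one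

theorem Hom.map (h : Hom x Φ Ψ) (φ : B →+* D) : Hom (x.map φ) (bc φ Φ) (bc φ Ψ) := fun i j => by
  simpa [bc_apply, map_subst] using congrArg (MvPolynomial.map φ) (h i j)

theorem Hom.of_map {φ : B →+* D} (hφ : Function.Injective φ)
    (h : Hom (x.map φ) (bc φ Φ) (bc φ Ψ)) : Hom x Φ Ψ := fun i j =>
  MvPolynomial.map_injective φ hφ (by simpa [bc_apply, map_subst] using h i j)

theorem isUnit_det_map (hx : IsUnit x.det) (φ : B →+* D) : IsUnit (x.map φ).det := by
  rw [← RingHom.mapMatrix_apply, ← RingHom.map_det]; exact hx.map φ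

theorem Iso.refl (Φ : Form n l m B) : Iso Φ Φ := ⟨1, by simp, .one Φ⟩

theorem Iso.symm (h : Iso Φ Ψ) : Iso Ψ Φ :=
  let ⟨x, hx, h⟩ := h; ⟨x⁻¹, isUnit_nonsing_inv_det _ hx, h.inv hx⟩

theorem Iso.trans (h : Iso Φ Ψ) (h' : Iso Ψ Θ) : Iso Φ Θ :=
  let ⟨x, hx, h⟩ := h; let ⟨y, hy, h'⟩ := h'
  ⟨y * x, by rw [det_mul]; exact hy.mul hx, h.mul h'⟩

theorem Iso.map (h : Iso Φ Ψ) (φ : B →+* D) : Iso (bc φ Φ) (bc φ Ψ) :=
  let ⟨x, hx, h⟩ := h; ⟨x.map φ, isUnit_det_map hx φ, h.map φ⟩

/-- An invertible matrix whose entries and whose inverse's entries lie in a subring. -/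
theorem exists_mat {φ : B →+* D} (hφ : Function.Injective φ) {z z' : Mat n D} (e : z' * z = 1)
    (h : ∀ i j, z i j ∈ φ.range) (h' : ∀ i j, z' i j ∈ φ.range) :
    ∃ x : Mat n B, IsUnit x.det ∧ x.map φ = z := by
  choose x hx using h
  choose x' hx' using h'
  have e1 : (Matrix.of x).map φ = z := by ext i j; exact hx i j
  have e2 : (Matrix.of x').map φ = z' := by ext i j; exact hx' i j
  refine ⟨Matrix.of x, isUnit_det_of_left_inverse (B := Matrix.of x')
    (Matrix.map_injective hφ ?_), e1⟩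
  change Matrix.map _ _ = Matrix.map _ _
  rw [Matrix.map_mul, e1, e2, e, Matrix.map_one _ (map_zero _) (map_one _)]

theorem Iso.of_map {φ : B →+* D} (hφ : Function.Injective φ) {z z' : Mat n D} (e : z' * z = 1)
    (h : ∀ i j, z i j ∈ φ.range) (h' : ∀ i j, z' i j ∈ φ.range)
    (H : Hom z (bc φ Φ) (bc φ Ψ)) : Iso Φ Ψ := by
  obtain ⟨x, hx, rfl⟩ := exists_mat hφ e h h'
  exact ⟨x, hx, H.of_map hφ⟩

theorem Iso.on (h : Iso Φ Ψ) (f : B) : IsoOn f Φ Ψ := fun _ _ φ _ => h.map φ

theorem IsoOn.iso {f : B} (h : IsoOn f Φ Ψ) (hf : IsUnit f) : Iso Φ Ψ := by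
  simpa [bc_id] using h B (RingHom.id B) hf

theorem IsoOn.map {f : B} (h : IsoOn f Φ Ψ) (φ : B →+* D) : IsoOn (φ f) (bc φ Φ) (bc φ Ψ) :=
  fun E _ ψ hu => by simpa only [bc_bc] using h E (ψ.comp φ) hu

theorem IsoOn.of_dvd {f g : B} (h : IsoOn f Φ Ψ) (hd : f ∣ g) : IsoOn g Φ Ψ :=
  fun E _ ψ hu => h E ψ (isUnit_of_dvd_unit (map_dvd ψ hd) hu)

theorem IsoOn.of_pow {f : B} {e : ℕ} (h : IsoOn (f ^ e) Φ Ψ) : IsoOn f Φ Ψ :=
  fun E _ ψ hu => h E ψ (map_pow ψ f e ▸ hu.pow e)

theorem IsoOn.symm {f : B} (h : IsoOn f Φ Ψ) : IsoOn f Ψ Φ := fun E _ ψ hu => (h E ψ hu).symm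

theorem IsoOn.trans {f : B} (h : IsoOn f Φ Ψ) (h' : IsoOn f Ψ Θ) : IsoOn f Φ Θ :=
  fun E _ ψ hu => (h E ψ hu).trans (h' E ψ hu)

theorem isoOn_of_away (f : B) (D : Type) [CommRing D] [Algebra B D] [IsLocalization.Away f D]
    (h : Iso (bc (algebraMap B D) Φ) (bc (algebraMap B D) Ψ)) : IsoOn f Φ Ψ := fun E _ ψ hu => by
  simpa only [bc_bc, IsLocalization.Away.lift_comp] using h.map (IsLocalization.Away.lift f hu)

theorem Frac.of_isLocalization (M : Submonoid A) [Algebra A B] [IsLocalization M B]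
    (h : M ≤ nonZeroDivisors A) : Frac (algebraMap A B) M :=
  ⟨IsLocalization.injective B h, fun s hs => IsLocalization.map_units B ⟨s, hs⟩, fun z =>
    let ⟨⟨a, s⟩, e⟩ := IsLocalization.surj M z; ⟨s, s.2, a, by rw [← e, mul_comm]⟩⟩

theorem Frac.common {φ : A →+* B} {M : Submonoid A} (h : Frac φ M) {S : Set B} (hS : S.Finite) :
    ∃ s ∈ M, ∀ z ∈ S, φ s * z ∈ φ.range := by
  induction S, hS using Set.Finite.induction_on with
  | empty => exact ⟨1, M.one_mem, by simp⟩
  | @insert z S _ _ ih =>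
    obtain ⟨c, hc, h1⟩ := ih
    obtain ⟨d, hd, h2⟩ := h.den z
    refine ⟨c * d, M.mul_mem hc hd, fun w hw => ?_⟩
    rw [map_mul]
    rcases hw with rfl | hw
    · rw [mul_assoc]; exact mul_mem ⟨_, rfl⟩ h2
    · rw [mul_right_comm]; exact mul_mem (h1 w hw) ⟨_, rfl⟩

/-- The map from a basic localisation. -/
theorem Frac.away {φ : A →+* B} {M : Submonoid A} (h : Frac φ M) {s : A} (hs : s ∈ M) :
    ∃ μ : Localization.Away s →+* B, μ.comp (algebraMap A _) = φ ∧
      Frac μ (M.map (algebraMap A _)) ∧ ∀ z, φ s * z ∈ φ.range → z ∈ μ.range := by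
  let μ := IsLocalization.Away.lift (S := Localization.Away s) s (h.unit s hs)
  have e : ∀ a, μ (algebraMap A _ a) = φ a := IsLocalization.Away.lift_eq _ _
  refine ⟨μ, RingHom.ext e, ⟨(injective_iff_map_eq_zero μ).2 fun b hb => ?_, ?_, fun z => ?_⟩, ?_⟩
  · obtain ⟨⟨a, t⟩, e'⟩ := IsLocalization.surj (Submonoid.powers s) b
    have : a = 0 := h.inj (by rw [← e, ← e', map_mul, hb, zero_mul, map_zero])
    rw [this, map_zero] at e'
    exact (IsLocalization.map_units _ t).mul_left_eq_zero.1 e'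
  · rintro _ ⟨t, ht, rfl⟩
    rw [e]; exact h.unit t ht
  · obtain ⟨t, ht, a, ha⟩ := h.den z
    exact ⟨_, ⟨t, ht, rfl⟩, algebraMap A _ a, by rw [e, e, ha]⟩
  · rintro z ⟨a, ha⟩
    obtain ⟨u, hu⟩ := (IsLocalization.Away.algebraMap_isUnit (S := Localization.Away s) s).exists_left_inv
    refine ⟨u * algebraMap A _ a, ?_⟩
    rw [map_mul, e, ha, ← mul_assoc, ← e, ← map_mul, hu, map_one, one_mul]

/-- An isomorphism over a localisation is defined after inverting one element. -/
theorem Frac.isoOn {φ : B →+* D} {M : Submonoid B} (h : Frac φ M) (H : Iso (bc φ Φ) (bc φ Ψ)) :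
    ∃ s ∈ M, IsoOn s Φ Ψ := by
  obtain ⟨x, hx, H⟩ := H
  obtain ⟨s, hs, h1⟩ := h.common (S := Set.range (fun p : Fin n × Fin n => x p.1 p.2) ∪
    Set.range fun p : Fin n × Fin n => x⁻¹ p.1 p.2) ((Set.finite_range _).union (Set.finite_range _))
  obtain ⟨μ, rfl, h2, h3⟩ := h.away hs
  refine ⟨s, hs, isoOn_of_away s (Localization.Away s) (.of_map h2.inj (nonsing_inv_mul _ hx)
    (fun i j => h3 _ (h1 _ (.inl ⟨(i, j), rfl⟩))) (fun i j => h3 _ (h1 _ (.inr ⟨(i, j), rfl⟩))) ?_)⟩
  rwa [bc_bc, bc_bc]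

/-- A form over a localisation is defined after inverting one element. -/
theorem Frac.form [Finite m] {φ : B →+* D} {M : Submonoid B} (h : Frac φ M) (Ψ : Form n l m D) :
    ∃ s ∈ M, ∃ μ : Localization.Away s →+* D, μ.comp (algebraMap B _) = φ ∧
      Frac μ (M.map (algebraMap B _)) ∧ ∃ Φ, bc μ Φ = Ψ := by
  obtain ⟨s, hs, h1⟩ := h.common (S := ⋃ p : Fin n × m, ((Ψ p.1 p.2).coeffs : Set D))
    (Set.finite_iUnion fun p => Finset.finite_toSet _)
  obtain ⟨μ, e, h2, h3⟩ := h.away hs
  refine ⟨s, hs, μ, e, h2, exists_bc fun i j ν => ?_⟩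
  by_cases h0 : coeff ν (Ψ i j) = 0
  · rw [h0]; exact zero_mem _
  · exact h3 _ (h1 _ (Set.mem_iUnion.2 ⟨(i, j), coeff_mem_coeffs ν h0⟩))

theorem Frac.poly {φ : A →+* B} {M : Submonoid A} (h : Frac φ M) :
    Frac (Polynomial.mapRingHom φ) (M.map Polynomial.C) := by
  refine ⟨Polynomial.map_injective φ h.inj, ?_, fun z => ?_⟩
  · rintro _ ⟨s, hs, rfl⟩
    simpa using (h.unit s hs).map Polynomial.C
  · obtain ⟨s, hs, h1⟩ := h.common z.coeffs.finite_toSet
    refine ⟨_, ⟨s, hs, rfl⟩, ?_⟩
    change _ ∈ Polynomial.lifts _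
    rw [Polynomial.lifts_iff_coeff_lifts]
    intro e
    rw [Polynomial.coe_mapRingHom, Polynomial.map_C, Polynomial.coeff_C_mul]
    by_cases h0 : z.coeff e = 0
    · exact ⟨0, by simp [h0]⟩
    · exact h1 _ (Polynomial.coeff_mem_coeffs h0)

end Pool.Agent.MP_e8e0b6_ag.Z

end MrgPart0

-- ======== part 1: formerly Pool.Agent.MP_e8e0b6_ag.Z.Lie
section MrgPart1

/-!
Derivatives of forms and the infinitesimal action of matrices; Laurent series.
-/

open MvPolynomial Matrix TrivSqZeroExt

namespace Pool.Agent.MP_e8e0b6_ag.Z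

/-- A derivation of a commutative ring. -/
structure Der (B : Type) [CommRing B] where
  d : B →+ B
  leib : ∀ a b, d (a * b) = a * d b + d a * b

variable {n : ℕ} {l m σ A B : Type} [CommRing A] [CommRing B]

theorem Der.one (D : Der B) : D.d 1 = 0 := by simpa using D.leib 1 1

theorem Der.mat_mul (D : Der B) (x y : Mat n B) :
    (x * y).map D.d = x * y.map D.d + x.map D.d * y := by
  ext i j
  simp [mul_apply, D.leib, Finset.sum_add_distrib]

theorem Der.mat_one (D : Der B) : (1 : Mat n B).map D.d = 0 := by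
  ext i j
  simp [one_apply, apply_ite, D.one]

/-- The first order expansion of a polynomial along a derivation of the coefficients. -/
noncomputable def Der.jet (D : Der B) (σ : Type) :
    MvPolynomial σ B →+* DualNumber (MvPolynomial σ B) :=
  eval₂Hom
    { toFun := fun b => inl (C b) + inr (C (D.d b))
      map_one' := by simp [D.one]
      map_zero' := by simp
      map_add' := fun a b => by ext <;> simp
      map_mul' := fun a b => by ext1 <;> simp [D.leib, mul_comm] } fun p => inl (X p)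

theorem Der.fst_jet (D : Der B) (p : MvPolynomial σ B) : (D.jet σ p).fst = p := by
  induction p using MvPolynomial.induction_on <;> simp_all [Der.jet]

/-- Differentiation of the coefficients. -/
noncomputable def Der.poly (D : Der B) (σ : Type) : Der (MvPolynomial σ B) where
  d := { toFun := fun p => (D.jet σ p).snd, map_zero' := by simp, map_add' := by simp }
  leib p q := by simp [D.fst_jet]

@[simp] theorem Der.poly_C (D : Der B) (b : B) : (D.poly σ).d (C b) = C (D.d b) := by
  simp [Der.poly, Der.jet]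

@[simp] theorem Der.poly_X (D : Der B) (p : σ) : (D.poly σ).d (X p) = 0 := by
  simp [Der.poly, Der.jet]

theorem Der.coeff_poly (D : Der B) (p : MvPolynomial σ B) (μ : σ →₀ ℕ) :
    coeff μ ((D.poly σ).d p) = D.d (coeff μ p) := by
  classical
  induction p using MvPolynomial.induction_on generalizing μ with
  | C b => rw [Der.poly_C, coeff_C, coeff_C]; split_ifs <;> simp
  | add p q hp hq => simp [hp, hq]
  | mul_X p i hp =>
    rw [Der.leib, Der.poly_X, mul_zero, zero_add, coeff_mul_X', coeff_mul_X', hp]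
    split_ifs <;> simp

variable (l) in
/-- The linear vector field of a matrix. -/
noncomputable def vf (Y : Mat n B) :
    Derivation B (MvPolynomial (Fin n × l) B) (MvPolynomial (Fin n × l) B) :=
  mkDerivation B fun p => ∑ b, C (Y p.1 b) * X (b, p.2)

@[simp] theorem vf_X (Y : Mat n B) (p : Fin n × l) :
    vf l Y (X p) = ∑ b, C (Y p.1 b) * X (b, p.2) := mkDerivation_X _ _ _

@[simp] theorem vf_C (Y : Mat n B) (b : B) : vf l Y (C b) = 0 := derivation_C _ _

theorem vf_add (Y Z : Mat n B) : vf l (Y + Z) = vf l Y + vf l Z :=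
  derivation_ext fun p => by simp [add_mul, Finset.sum_add_distrib]

theorem vf_smul (c : B) (Y : Mat n B) : vf l (c • Y) = c • vf l Y :=
  derivation_ext fun p => by simp [Finset.smul_sum, ← C_mul', mul_assoc]

/-- The infinitesimal action of matrices on a form. -/
noncomputable def lie (Φ : Form n l m B) : Mat n B →ₗ[B] Form n l m B where
  toFun Y i j := ∑ b, C (Y i b) * Φ b j - vf l Y (Φ i j)
  map_add' Y Z := by
    funext i j
    simp only [Matrix.add_apply, map_add, add_mul, Finset.sum_add_distrib, vf_add, Derivation.add_apply,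
      Pi.add_apply]
    ring
  map_smul' c Y := by
    funext i j
    simp [vf_smul, ← C_mul', Finset.mul_sum, mul_sub, mul_assoc]

theorem lie_apply (Φ : Form n l m B) (Y : Mat n B) (i : Fin n) (j : m) :
    lie Φ Y i j = ∑ b, C (Y i b) * Φ b j - vf l Y (Φ i j) := rfl

/-- The derivative of a form. -/
noncomputable def dform (D : Der B) (Φ : Form n l m B) : Form n l m B :=
  fun i j => (D.poly _).d (Φ i j)

theorem coeff_dform (D : Der B) (Φ : Form n l m B) (i : Fin n) (j : m) (μ : Fin n × l →₀ ℕ) :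
    coeff μ (dform D Φ i j) = D.d (coeff μ (Φ i j)) := D.coeff_poly _ _

theorem dform_bc {D : Der A} {D' : Der B} {φ : A →+* B} (h : ∀ a, D'.d (φ a) = φ (D.d a))
    (Φ : Form n l m A) : dform D' (bc φ Φ) = bc φ (dform D Φ) := by
  funext i j
  ext μ
  rw [coeff_dform, coeff_bc, coeff_bc, coeff_dform, h]

theorem dform_const {D : Der B} {φ : A →+* B} (h : ∀ a, D.d (φ a) = 0) (Φ : Form n l m A) :
    dform D (bc φ Φ) = 0 := by
  funext i j
  ext μ
  rw [coeff_dform, coeff_bc, h]; rfl

theorem map_vf (φ : A →+* B) (Y : Mat n A) (p : MvPolynomial (Fin n × l) A) :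
    MvPolynomial.map φ (vf l Y p) = vf l (Y.map φ) (MvPolynomial.map φ p) := by
  induction p using MvPolynomial.induction_on <;> simp_all

theorem lie_bc (φ : A →+* B) (Φ : Form n l m A) (Y : Mat n A) :
    lie (bc φ Φ) (Y.map φ) = bc φ (lie Φ Y) := by
  funext i j
  simp [lie_apply, bc_apply, map_vf]

theorem lie_eq_sum (Φ : Form n l m B) (Y : Mat n B) :
    lie Φ Y = ∑ a, ∑ b, Y a b • lie Φ (Matrix.single a b 1) := by
  conv_lhs => rw [matrix_eq_sum_single Y]
  simp only [map_sum, ← map_smul, smul_single, smul_eq_mul, mul_one]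

/-- The infinitesimal stabiliser of a constant form is defined over the constants. -/
theorem lie_coeff {A' : Type} [CommRing A'] {φ : A →+* B} {ψ : A →+* A'} (w : B →+ A')
    (hw : ∀ b a, w (b * φ a) = w b * ψ a) {Φ : Form n l m A} {Y : Mat n B}
    (h : lie (bc φ Φ) Y = 0) : lie (bc ψ Φ) (Y.map w) = 0 := by
  funext i j
  ext μ
  have := congrArg (fun Ψ : Form n l m B => w (coeff μ (Ψ i j))) h
  have e : ∀ {B : Type} [CommRing B] (φ : A →+* B) a b,
      lie (bc φ Φ) (Matrix.single a b 1) = bc φ (lie Φ (Matrix.single a b 1)) :=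
    fun φ a b => by rw [← lie_bc, Matrix.map_single _ _ _ φ, map_one]
  rw [lie_eq_sum] at this ⊢
  simpa [e, Finset.sum_apply, coeff_sum, coeff_bc, hw] using this

variable {x : Mat n B} {Φ Ψ : Form n l m B}

theorem vf_sub {Y Y' : Mat n B} (e : Y' * x = x * Y) (p : MvPolynomial (Fin n × l) B) :
    vf l Y (sub l x p) = sub l x (vf l Y' p) := by
  induction p using MvPolynomial.induction_on with
  | C b => simp
  | add p q hp hq => simp [hp, hq]
  | mul_X p i hp =>
    have h1 := sum_C_mul x Y' (fun b (_ : Unit) => X (b, i.2)) i.1 ()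
    rw [e, sum_C_mul Y x (fun b (_ : Unit) => X (b, i.2)) i.1 ()] at h1
    simp [hp, ← h1]

theorem poly_sub (D : Der B) {Y : Mat n B} (e : x.map D.d = Y * x)
    (p : MvPolynomial (Fin n × l) B) :
    (D.poly _).d (sub l x p) = sub l x ((D.poly _).d p + vf l Y p) := by
  induction p using MvPolynomial.induction_on with
  | C b => simp
  | add p q hp hq => simp only [map_add, hp, hq]; ring
  | mul_X p i hp =>
    have h1 := sum_C_mul x Y (fun b (_ : Unit) => X (b, i.2)) i.1 ()
    rw [← e] at h1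
    simp only [map_apply] at h1
    simp [Der.leib, hp, ← h1]
    ring

/-- Conjugation of infinitesimal actions. -/
theorem Hom.lie (h : Hom x Φ Ψ) {Y Y' : Mat n B} (e : Y' * x = x * Y) :
    Hom x (lie Φ Y) (lie Ψ Y') := fun i j => by
  have h1 := congrArg (vf l Y) (h i j)
  rw [vf_sub e] at h1
  have h2 := sum_C_mul x Y' Φ i j
  rw [e, sum_C_mul] at h2
  simp only [map_sum, Derivation.leibniz, vf_C, mul_zero, add_zero, smul_eq_mul] at h1
  simp only [lie_apply, mul_sub, Finset.sum_sub_distrib, h2, map_sub, h1, h _ j]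
  simp

/-- The chain rule. -/
theorem Hom.deriv (h : Hom x Φ Ψ) (D : Der B) {Y : Mat n B} (e : x.map D.d = Y * x) :
    Hom x (dform D Φ) (dform D Ψ - Z.lie Ψ Y) := fun i j => by
  have h1 := congrArg (D.poly _).d (h i j)
  rw [poly_sub D e] at h1
  have h2 := sum_C_mul x Y Φ i j
  rw [← e] at h2
  simp only [map_apply, h _ j] at h2
  simp only [map_sum, Der.leib, Der.poly_C, Finset.sum_add_distrib, h2, map_add] at h1
  simp only [dform, Pi.sub_apply, lie_apply, map_sub, map_sum, map_mul, sub_C]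
  linear_combination h1

theorem Hom.zero (x : Mat n B) : Hom x (0 : Form n l m B) 0 := fun i j => by simp

theorem Hom.eq_zero_iff (h : Hom x Φ Ψ) (hx : IsUnit x.det) : Φ = 0 ↔ Ψ = 0 :=
  ⟨fun e => (e ▸ h).unique (.zero x) hx,
    fun e => (e ▸ h.inv hx).unique (.zero _) (isUnit_nonsing_inv_det _ hx)⟩

theorem sub_diagonal (t : Fin n → B) (μ : Fin n × l →₀ ℕ) (c : B) :
    sub l (diagonal t) (monomial μ c) = monomial μ (c * μ.prod fun p e => t p.1 ^ e) := by
  have : ∀ p : Fin n × l, sub l (diagonal t) (X p) = C (t p.1) * X p := fun p => by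
    simp [diagonal_apply, apply_ite, ite_mul]
  simp only [monomial_eq, map_mul, sub_C, Finsupp.prod, map_prod, map_pow, this, mul_pow,
    Finset.prod_mul_distrib, mul_assoc]

theorem hom_diagonal (t : Fin n → B) : Hom (diagonal t) Φ Ψ ↔
    ∀ i j μ, t i * coeff μ (Φ i j) = coeff μ (Ψ i j) * μ.prod fun p e => t p.1 ^ e := by
  classical
  refine forall_congr' fun i => forall_congr' fun j => ?_
  have h1 : ∑ b, C (diagonal t i b) * Φ b j = C (t i) * Φ i j := by
    simp [diagonal_apply, apply_ite, ite_mul]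
  rw [h1, MvPolynomial.ext_iff]
  refine forall_congr' fun μ => ?_
  conv_lhs => rw [(Ψ i j).as_sum, map_sum]
  simp only [coeff_C_mul, sub_diagonal, coeff_sum, coeff_monomial, Finset.sum_ite_eq',
    mem_support_iff]
  split_ifs with h
  · rfl
  · rw [not_not.1 h, zero_mul]

/-- Upper triangular infinitesimal automorphisms. -/
noncomputable def stab (Φ : Form n l m B) : Submodule B (Mat n B) where
  carrier := {Y | Y.BlockTriangular id ∧ lie Φ Y = 0}
  zero_mem' := ⟨blockTriangular_zero, map_zero _⟩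
  add_mem' := fun h h' => ⟨h.1.add h'.1, by rw [map_add, h.2, h'.2, add_zero]⟩
  smul_mem' := fun c Y h => ⟨fun i j hij => by rw [Matrix.smul_apply, h.1 hij, smul_zero], by
    rw [map_smul, h.2, smul_zero]⟩

section Laurent

open PowerSeries LaurentSeries

variable (k : Type) [Field k]

/-- Power series as Laurent series. -/
noncomputable abbrev toL : k⟦X⟧ →+* k⸨X⸩ := HahnSeries.ofPowerSeries ℤ k

/-- Constants as Laurent series. -/
noncomputable abbrev cL : k →+* k⸨X⸩ := HahnSeries.C

/-- The derivative of power series. -/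
noncomputable def dO : Der k⟦X⟧ where
  d := (d⁄dX k).toLinearMap.toAddMonoidHom
  leib a b := by simp [mul_comm]

theorem dO_apply (f : k⟦X⟧) : (dO k).d f = d⁄dX k f := rfl

theorem euler_mul (f g : k⸨X⸩) (e : ℤ) : (e : k) * (f * g).coeff e =
    ∑ p ∈ Finset.antidiagonal f.isPWO_support g.isPWO_support e,
      (f.coeff p.1 * (p.2 * g.coeff p.2) + p.1 * f.coeff p.1 * g.coeff p.2) := by
  rw [HahnSeries.coeff_mul, Finset.mul_sum]
  refine Finset.sum_congr rfl fun p hp => ?_
  rw [← (Finset.mem_antidiagonal.1 hp).2.2]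
  push_cast
  ring

/-- The operator `X d/dX`. -/
noncomputable def euler (f : k⸨X⸩) : k⸨X⸩ :=
  HahnSeries.single 1 1 * LaurentSeries.derivative k f

theorem coeff_euler (f : k⸨X⸩) (e : ℤ) : (euler k f).coeff e = e * f.coeff e := by
  have := HahnSeries.coeff_single_mul_add (r := (1 : k)) (x := LaurentSeries.derivative k f)
    (a := e - 1) (b := 1)
  rw [sub_add_cancel] at this
  rw [euler, this]
  simp [LaurentSeries.derivative_apply]

/-- The derivative of Laurent series. -/
noncomputable def dL : Der k⸨X⸩ where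
  d := (LaurentSeries.derivative k).toAddMonoidHom
  leib f g := by
    have h : euler k (f * g) = f * euler k g + euler k f * g := by
      have hs : ∀ f : k⸨X⸩, (euler k f).support ⊆ f.support := fun f e he h =>
        he (by rw [coeff_euler, h, mul_zero])
      ext e
      rw [coeff_euler, euler_mul, HahnSeries.coeff_add, Finset.sum_add_distrib,
        HahnSeries.coeff_mul_right' g.isPWO_support (hs g),
        HahnSeries.coeff_mul_left' f.isPWO_support (hs f)]
      simp only [coeff_euler]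
    refine mul_left_cancel₀ (a := (HahnSeries.single 1 1 : k⸨X⸩)) (by simp) ?_
    rw [euler, euler, euler] at h
    exact h.trans (by simp only [LinearMap.toAddMonoidHom_coe]; ring)

theorem coeff_dL (f : k⸨X⸩) (e : ℤ) : ((dL k).d f).coeff e = ((e + 1 : ℤ) : k) * f.coeff (e + 1) := by
  simp [dL, LaurentSeries.derivative_apply]

theorem dL_toL (f : k⟦X⟧) : (dL k).d (toL k f) = toL k ((dO k).d f) := by
  ext e
  rw [coeff_dL, dO_apply, PowerSeries.coeff_coe, PowerSeries.coeff_coe]
  rcases e with e | e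
  · have : ¬ ((e : ℤ) + 1 < 0) := by omega
    have h2 : ((e : ℤ) + 1).natAbs = e + 1 := by omega
    simp [this, h2, PowerSeries.coeff_derivative, mul_comm]
  · rcases e with _ | e
    · simp
    · have : Int.negSucc (e + 1) + 1 < 0 := by omega
      simp [this]

theorem toL_C (a : k) : toL k (PowerSeries.C a) = cL k a := HahnSeries.ofPowerSeries_C a

theorem dL_cL (a : k) : (dL k).d (cL k a) = 0 := by
  rw [← toL_C, dL_toL, dO_apply, PowerSeries.derivative_C, map_zero]

theorem toL_injective : Function.Injective (toL k) := HahnSeries.ofPowerSeries_injective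

variable {k} in
theorem mem_range_toL {f : k⸨X⸩} : f ∈ (toL k).range ↔ ∀ e < 0, f.coeff e = 0 := by
  refine ⟨?_, fun h => ⟨PowerSeries.mk fun e => f.coeff e, ?_⟩⟩
  · rintro ⟨g, rfl⟩ e he
    rw [PowerSeries.coeff_coe, if_pos he]
  · ext e
    rw [PowerSeries.coeff_coe]
    split_ifs with he
    · exact (h e he).symm
    · rw [PowerSeries.coeff_mk, Int.natAbs_of_nonneg (not_lt.1 he)]

variable {k} in
/-- A solution of the linear differential equation trivialises the form. -/
theorem hom_of_ode [CharZero k] {β Y : Mat n k⟦X⟧} (h1 : β.map (dO k).d = Y * β)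
    (h2 : β.map PowerSeries.constantCoeff = 1) {Ψ : Form n l m k⟦X⟧}
    (h : dform (dO k) Ψ = lie Ψ Y) :
    IsUnit β.det ∧ Hom β (bc PowerSeries.C (bc PowerSeries.constantCoeff Ψ)) Ψ := by
  have hu : IsUnit β.det := by
    rw [PowerSeries.isUnit_iff_constantCoeff, RingHom.map_det, RingHom.mapMatrix_apply, h2, det_one]
    exact isUnit_one
  obtain ⟨Θ, h3⟩ := exists_hom (isUnit_nonsing_inv_det _ hu) Ψ
  have h4 := h3.inv' (mul_nonsing_inv _ hu)
  have h5 := ((h4.deriv _ h1).eq_zero_iff hu).2 (sub_eq_zero.2 h)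
  have h6 := h4.map PowerSeries.constantCoeff
  rw [h2] at h6
  refine ⟨hu, ?_⟩
  convert h4
  funext i j
  ext1 μ
  rw [← h6.eq_of_one, coeff_bc, coeff_bc]
  refine PowerSeries.derivative.ext ?_ (by simp)
  rw [PowerSeries.derivative_C, ← dO_apply, ← coeff_dform, h5]
  rfl

/-- Laurent polynomials. -/
def Lau : Subring k⸨X⸩ where
  carrier := {f | ∃ (e : ℕ) (p : Polynomial k), toL k X ^ e * f = toL k p}
  one_mem' := ⟨0, 1, by simp⟩
  zero_mem' := ⟨0, 0, by simp⟩
  mul_mem' := by
    rintro f g ⟨e, p, h⟩ ⟨e', p', h'⟩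
    exact ⟨e + e', p * p', by rw [Polynomial.coe_mul, map_mul, ← h, ← h']; ring⟩
  add_mem' := by
    rintro f g ⟨e, p, h⟩ ⟨e', p', h'⟩
    refine ⟨e + e', Polynomial.X ^ e' * p + Polynomial.X ^ e * p', ?_⟩
    simp only [Polynomial.coe_add, Polynomial.coe_mul, Polynomial.coe_pow, Polynomial.coe_X,
      map_add, map_mul, map_pow, ← h, ← h']
    ring
  neg_mem' := by
    rintro f ⟨e, p, h⟩
    exact ⟨e, -p, by rw [Polynomial.coe_neg, map_neg, ← h, mul_neg]⟩

theorem single_mem_Lau (e : ℤ) (a : k) : HahnSeries.single e a ∈ Lau k := by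
  refine ⟨e.natAbs, Polynomial.monomial (e.natAbs + e).toNat a, ?_⟩
  have : (((e.natAbs + e).toNat : ℕ) : ℤ) = e.natAbs + e := by omega
  rw [Polynomial.coe_monomial, PowerSeries.monomial_eq_C_mul_X_pow, map_mul, map_pow,
    HahnSeries.ofPowerSeries_X, HahnSeries.ofPowerSeries_C, HahnSeries.single_pow,
    HahnSeries.single_pow, HahnSeries.C_apply, HahnSeries.single_mul_single,
    HahnSeries.single_mul_single]
  rw [nsmul_eq_mul, nsmul_eq_mul, this]
  simp

end Laurent

end Pool.Agent.MP_e8e0b6_ag.Z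

end MrgPart1

-- ======== part 2: formerly Pool.Agent.MP_e8e0b6_ag.Z.Torus
section MrgPart2

/-!
Hermite normal form over power series; the torus attached to a triangular infinitesimal
automorphism.
-/

open Matrix

namespace Pool.Agent.MP_e8e0b6_ag.Z

variable {n : ℕ} {l m : Type}

namespace Torus

theorem exists_dvd {O ι : Type} [CommRing O] [PreValuationRing O] (a : ι → O) {s : Finset ι}
    (hs : s.Nonempty) : ∃ i ∈ s, ∀ j ∈ s, a i ∣ a j := by
  induction hs using Finset.Nonempty.cons_induction with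
  | singleton i => exact ⟨i, by simp, by simp⟩
  | cons i s hi _ ih =>
    obtain ⟨j, hj, h⟩ := ih
    rcases ValuationRing.dvd_total (a i) (a j) with c | c
    · exact ⟨i, by simp, fun b hb => (Finset.mem_cons.1 hb).elim (fun e => e ▸ dvd_rfl)
        fun hb => c.trans (h b hb)⟩
    · exact ⟨j, by simp [hj], fun b hb => (Finset.mem_cons.1 hb).elim (fun e => e ▸ c) (h b)⟩

theorem rows {O : Type} [CommRing O] [PreValuationRing O] (x : Mat n O) (j : ℕ) :
    ∃ y : Mat n O, IsUnit y.det ∧ ∀ i c : Fin n, c.1 < j → c < i → (y * x) i c = 0 := by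
  induction j with
  | zero => exact ⟨1, by simp, fun _ _ h => absurd h (Nat.not_lt_zero _)⟩
  | succ j ih =>
    obtain ⟨y, hy, h⟩ := ih
    by_cases hj : j < n
    swap
    · exact ⟨y, hy, fun i c _ => h i c (by omega)⟩
    set J : Fin n := ⟨j, hj⟩ with hJ
    obtain ⟨a, ha, h1⟩ := exists_dvd (fun i => (y * x) i J) (s := Finset.Ici J) Finset.nonempty_Ici
    rw [Finset.mem_Ici] at ha
    have hs : ∀ i c, (swap O J a * (y * x)) i c = (y * x) (Equiv.swap J a i) c := fun i c => by
      simp [swap, PEquiv.toMatrix_toPEquiv_mul]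
    have h2 : ∀ i, J ≤ i → J ≤ Equiv.swap J a i := fun i hi => by
      rw [Equiv.swap_apply_def]
      split_ifs
      exacts [ha, le_rfl, hi]
    have h3 : ∀ i, ∃ q, J < i → (y * x) (Equiv.swap J a i) J = q * (y * x) a J := fun i => by
      by_cases hi : J < i
      · exact (exists_eq_mul_left_of_dvd (h1 _ (Finset.mem_Ici.2 (h2 i hi.le)))).imp fun _ e _ => e
      · exact ⟨0, fun e => absurd e hi⟩
    choose q hq using h3
    set e : Mat n O := 1 - of fun i b => if J < i ∧ b = J then q i else 0 with he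
    have h4 : e.det = 1 := by
      rw [det_of_isLowerTriangular e fun i b hb => by
        have : i < b := hb
        rw [he, Matrix.sub_apply, one_apply_ne this.ne, of_apply, if_neg, sub_zero]
        rintro ⟨c, rfl⟩
        exact lt_asymm c this]
      refine Finset.prod_eq_one fun i _ => ?_
      rw [he, Matrix.sub_apply, one_apply_eq, of_apply, if_neg, sub_zero]
      rintro ⟨c, rfl⟩
      exact lt_irrefl _ c
    refine ⟨e * swap O J a * y, ?_, fun i c hc hi => ?_⟩
    · rw [det_mul, det_mul, h4, one_mul]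
      exact (isUnit_det_of_left_inverse (swap_mul_self J a)).mul hy
    have h5 : (e * swap O J a * y * x) i c =
        (y * x) (Equiv.swap J a i) c - if J < i then q i * (y * x) a c else 0 := by
      rw [Matrix.mul_assoc, Matrix.mul_assoc, he, Matrix.sub_mul, Matrix.one_mul, Matrix.sub_apply,
        hs, mul_apply (M := of _), Finset.sum_eq_single J (fun b _ hb => by simp [hb]) (by simp), hs]
      simp
    rw [h5]
    rcases (Nat.lt_succ_iff.1 hc).eq_or_lt with c1 | c1
    · obtain rfl : c = J := Fin.ext c1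
      rw [if_pos hi, hq i hi, sub_self]
    · have c2 : c < J := c1
      rw [h a c c1 (c2.trans_le ha), mul_zero, ite_self, sub_zero]
      rcases le_or_gt J i with c3 | c3
      · exact h _ c c1 (c2.trans_le (h2 i c3))
      · rw [Equiv.swap_apply_of_ne_of_ne c3.ne (c3.trans_le ha).ne]
        exact h i c c1 hi

variable {k : Type} [Field k]

theorem mul_diag {x y : Mat n k} (hx : x.BlockTriangular id) (hy : y.BlockTriangular id)
    (i : Fin n) : (x * y) i i = x i i * y i i := by
  rw [mul_apply]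
  refine Finset.sum_eq_single i (fun b _ hb => ?_) (by simp)
  rcases lt_or_gt_of_ne hb with c | c
  · rw [hx c, zero_mul]
  · rw [hy c, mul_zero]

open Polynomial in
theorem aeval_tri {Y : Mat n k} (hY : Y.BlockTriangular id) (p : k[X]) :
    (aeval Y p).BlockTriangular id ∧ ∀ i, aeval Y p i i = p.eval (Y i i) := by
  induction p using Polynomial.induction_on with
  | C a => exact ⟨by rw [aeval_C]; exact blockTriangular_algebraMap a,
      fun i => by simp [Matrix.algebraMap_matrix_apply]⟩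
  | add p q hp hq => exact ⟨by rw [map_add]; exact hp.1.add hq.1, fun i => by simp [hp.2, hq.2]⟩
  | monomial e a h =>
    rw [pow_succ, ← mul_assoc, map_mul, aeval_X]
    exact ⟨h.1.mul hY, fun i => by rw [mul_diag h.1 hY, h.2, eval_mul (q := X), eval_X]⟩

open Polynomial in
/-- Splitting along the generalised eigenspaces by a unitriangular matrix. -/
theorem sylvester {Y : Mat n k} (hY : Y.BlockTriangular id) :
    ∃ u u' : Mat n k, u' * u = 1 ∧ u.BlockTriangular id ∧ u'.BlockTriangular id ∧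
      (∀ i, u i i = 1) ∧ (∀ i, u' i i = 1) ∧ ∀ i j, Y i i ≠ Y j j → (u' * Y * u) i j = 0 := by
  classical
  set f : k → k[X] := fun a => ∏ i ∈ Finset.univ.filter (fun i => Y i i = a), (X - C (Y i i))
  set g : k → k[X] := fun a => ∏ i ∈ Finset.univ.filter (fun i => ¬ Y i i = a), (X - C (Y i i))
  have h0 : ∀ a, aeval Y (f a * g a) = 0 := fun a => by
    rw [Finset.prod_filter_mul_prod_filter_not, ← charpoly_of_isUpperTriangular Y hY,
      aeval_self_charpoly]
  have h1 : ∀ a, IsCoprime (f a) (g a) := fun a =>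
    IsCoprime.prod_left fun i hi => IsCoprime.prod_right fun j hj =>
      isCoprime_X_sub_C_of_isUnit_sub (sub_ne_zero.2 fun e : Y i i = Y j j =>
        (Finset.mem_filter.1 hj).2 (e.symm.trans (Finset.mem_filter.1 hi).2)).isUnit
  choose α β h1 using h1
  set P : k → Mat n k := fun a => aeval Y (β a * g a) with hP
  have h2 : ∀ a b, P a * P b = if b = a then P b else 0 := fun a b => by
    simp only [hP, ← map_mul]
    split_ifs with c
    · subst c
      rw [show β b * g b * (β b * g b) = β b * g b - α b * β b * (f b * g b) by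
        linear_combination β b * g b * h1 b, map_sub, map_mul _ (α b * β b), h0, mul_zero, sub_zero]
    · obtain ⟨r, hr⟩ : f b ∣ g a := Finset.prod_dvd_prod_of_subset _ _ _ fun i hi =>
        Finset.mem_filter.2 ⟨Finset.mem_univ _, (Finset.mem_filter.1 hi).2 ▸ c⟩
      rw [hr, show β a * (f b * r) * (β b * g b) = β a * r * β b * (f b * g b) by ring,
        map_mul, h0, mul_zero]
  set u : Mat n k := of fun i j => P (Y j j) i j with hu
  have u1 : u.BlockTriangular id := fun i j h => (aeval_tri hY _).1 h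
  have u2 : ∀ i, u i i = 1 := fun i => by
    have e := congrArg (eval (Y i i)) (h1 (Y i i))
    have : (f (Y i i)).eval (Y i i) = 0 := by
      rw [eval_prod]
      exact Finset.prod_eq_zero (i := i) (by simp) (by simp)
    rw [eval_add, eval_mul (p := α _), this, mul_zero, zero_add, eval_one] at e
    exact ((aeval_tri hY _).2 i).trans e
  have u3 : IsUnit u.det := by simp [det_of_isUpperTriangular u1, u2]
  have := invertibleOfIsUnitDet u u3
  have u4 := blockTriangular_inv_of_blockTriangular u1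
  have u5 := nonsing_inv_mul u u3
  refine ⟨u, u⁻¹, u5, u1, u4, u2, fun i => by
    simpa only [u5, u2, one_apply_eq, mul_one] using (mul_diag u4 u1 i).symm, fun i j hij => ?_⟩
  have h3 : ∀ a, P a * u = u * diagonal fun j => if Y j j = a then 1 else 0 := fun a => by
    ext i j
    have := congrFun₂ (h2 a (Y j j)) i j
    rw [mul_diagonal]
    split_ifs at this ⊢
    · rw [mul_one]
      exact this
    · rw [mul_zero]
      exact this
  have h4 : ∀ a, Y * P a = P a * Y := fun a => by
    have := congrArg (aeval Y) (mul_comm X (β a * g a))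
    rwa [map_mul, map_mul _ (β a * g a), aeval_X] at this
  have h5 : ∀ a, (diagonal fun j => if Y j j = a then 1 else 0) * u⁻¹ = u⁻¹ * P a := fun a => by
    rw [← Matrix.mul_one (u⁻¹ * P a), ← mul_nonsing_inv u u3, ← Matrix.mul_assoc,
      Matrix.mul_assoc u⁻¹, h3, ← Matrix.mul_assoc, u5, Matrix.one_mul]
  have h6 : u⁻¹ * Y * u * (diagonal fun b => if Y b b = Y j j then 1 else 0) =
      (diagonal fun b => if Y b b = Y j j then 1 else 0) * (u⁻¹ * Y * u) := by
    rw [Matrix.mul_assoc, ← h3, ← Matrix.mul_assoc, ← Matrix.mul_assoc, ← Matrix.mul_assoc, h5,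
      Matrix.mul_assoc u⁻¹, h4, ← Matrix.mul_assoc]
  simpa [hij] using congrFun₂ h6 i j

open MvPolynomial

theorem vf_monomial (Y : Mat n k) (μ : Fin n × l →₀ ℕ) (c : k) : vf l Y (monomial μ c) =
    ∑ p ∈ μ.support, ∑ b, monomial (μ - .single p 1 + .single (b, p.2) 1) (c * μ p * Y p.1 b) := by
  rw [vf, mkDerivation_monomial, Finsupp.sum, Finset.smul_sum]
  refine Finset.sum_congr rfl fun p _ => ?_
  simp only [smul_eq_mul, Finset.mul_sum, Finset.smul_sum, X, C_mul_monomial, monomial_mul,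
    smul_monomial, mul_one, mul_assoc]

theorem weight_step {M : Type} [AddCommMonoid M] (w : Fin n × l → M) {μ : Fin n × l →₀ ℕ}
    {p : Fin n × l} (hp : p ∈ μ.support) (q : Fin n × l) :
    Finsupp.weight w (μ - .single p 1 + .single q 1) + w p = Finsupp.weight w μ + w q := by
  conv_rhs => rw [← Finsupp.sub_add_single_one_cancel (Finsupp.mem_support_iff.1 hp)]
  simp only [map_add, Finsupp.weight_single, one_smul]
  abel

/-- Every monomial of a form killed by `Z` has weight zero. -/
theorem weight_zero [CharZero k] {w : Form n l m k} {Z : Mat n k} {ν : Fin n → ℤ}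
    (h1 : Z.BlockTriangular id) (h2 : ∀ i, Z i i = ν i) (h3 : ∀ i j, ν i ≠ ν j → Z i j = 0)
    (h : lie w Z = 0) (j : m) (s : ℕ) : ∀ (a : Fin n) (μ : Fin n × l →₀ ℕ),
      Finsupp.weight (fun p => p.1.1) μ + (n - a.1) = s →
      ν a ≠ Finsupp.weight (fun p => ν p.1) μ → coeff μ (w a j) = 0 := by
  classical
  induction s using Nat.strong_induction_on with
  | _ s ih =>
  intro a μ hs hν
  have e1 : coeff μ (∑ b, C (Z a b) * w b j) = ν a * coeff μ (w a j) := by
    rw [coeff_sum, Finset.sum_eq_single a (fun b _ hb => ?_) (by simp), coeff_C_mul, h2]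
    rw [coeff_C_mul]
    rcases lt_or_gt_of_ne hb with c | c
    · rw [h1 c, zero_mul]
    · by_cases c' : ν a = ν b
      · rw [ih _ (by have : a.1 < b.1 := c; omega) b μ rfl (c' ▸ hν), mul_zero]
      · rw [h3 a b c', zero_mul]
  have e2 : coeff μ (vf l Z (w a j)) =
      (Finsupp.weight (fun p => ν p.1) μ : ℤ) * coeff μ (w a j) := by
    conv_lhs => rw [(w a j).as_sum, map_sum, coeff_sum]
    rw [Finset.sum_eq_single μ (fun μ' _ hb => ?_) fun hb => by
      rw [notMem_support_iff.1 hb, monomial_zero, map_zero, coeff_zero]]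
    · rw [vf_monomial, coeff_sum, Finsupp.weight_apply, Finsupp.sum, Int.cast_sum, Finset.sum_mul]
      refine Finset.sum_congr rfl fun p hp => ?_
      rw [coeff_sum, Finset.sum_eq_single p.1 (fun b _ hb => ?_) (by simp),
        Finsupp.sub_add_single_one_cancel (Finsupp.mem_support_iff.1 hp), coeff_monomial, if_pos rfl,
        h2]
      · simp [mul_comm, mul_left_comm]
      · rw [coeff_monomial]
        refine if_neg fun e => hb ?_
        have := weight_step (fun p => p.1.1) hp (b, p.2)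
        rw [e] at this
        exact Fin.ext (by simpa using this.symm)
    · rw [vf_monomial, coeff_sum]
      refine Finset.sum_eq_zero fun p hp => ?_
      rw [coeff_sum]
      refine Finset.sum_eq_zero fun b _ => ?_
      rw [coeff_monomial]
      split_ifs with e
      swap
      · rfl
      rcases lt_trichotomy b p.1 with c | c | c
      · rw [h1 c, mul_zero]
      · rw [c, Finsupp.sub_add_single_one_cancel (Finsupp.mem_support_iff.1 hp)] at e
        exact absurd e hb
      · by_cases c' : ν p.1 = ν b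
        · have a1 := weight_step (fun p => p.1.1) hp (b, p.2)
          have a2 := weight_step (fun p => ν p.1) hp (b, p.2)
          rw [e] at a1 a2
          have : p.1.1 < b.1 := c
          rw [ih _ (by simp only at a1; omega) a μ' rfl (by simp only at a2; omega), zero_mul,
            zero_mul]
        · rw [h3 _ _ c', mul_zero]
  have e3 := congrArg (coeff μ) (congrFun₂ h a j)
  rw [lie_apply, coeff_sub, e1, e2, ← _root_.sub_mul] at e3
  exact (mul_eq_zero.1 e3).resolve_left (sub_ne_zero.2 (Int.cast_injective.ne hν))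

theorem zpow_sum {G ι : Type} [CommGroup G] (t : G) (s : Finset ι) (f : ι → ℤ) :
    t ^ ∑ p ∈ s, f p = ∏ p ∈ s, t ^ f p := by
  induction s using Finset.cons_induction with
  | empty => simp
  | cons a s ha ih => rw [Finset.sum_cons, Finset.prod_cons, _root_.zpow_add, ih]

end Torus

open Torus PowerSeries LaurentSeries

variable {k : Type} [Field k]

theorem hermite (x : Mat n k⸨X⸩) : ∃ (y : Mat n k⟦X⟧) (b : Mat n k⸨X⸩), IsUnit y.det ∧
    b.BlockTriangular id ∧ x = y.map (toL k) * b := by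
  obtain ⟨s, hs⟩ := IsLocalization.exist_integer_multiples_of_finite (nonZeroDivisors k⟦X⟧)
    fun p : Fin n × Fin n => x p.1 p.2
  choose z hz using hs
  obtain ⟨y, hy, h⟩ := rows (of fun i j => z (i, j)) n
  refine ⟨y⁻¹, y.map (toL k) * x, isUnit_nonsing_inv_det _ hy, fun i c hc => ?_, ?_⟩
  · have h1 := congrArg (toL k) (h i c c.2 hc)
    have h2 : toL k s ≠ 0 := fun e =>
      nonZeroDivisors.coe_ne_zero s (toL_injective k (e.trans (map_zero _).symm))
    refine mul_left_cancel₀ h2 ?_
    rw [mul_zero, ← map_zero (toL k), ← h i c c.2 hc, mul_apply, mul_apply, map_sum, Finset.mul_sum]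
    refine Finset.sum_congr rfl fun b _ => ?_
    have : toL k (z (b, c)) = toL k s * x b c := (hz (b, c)).trans (Algebra.smul_def _ _)
    rw [map_mul, of_apply, this, map_apply, mul_left_comm]
  · rw [← Matrix.mul_assoc, ← Matrix.map_mul, nonsing_inv_mul _ hy,
      Matrix.map_one _ (map_zero _) (map_one _), Matrix.one_mul]

theorem torus [CharZero k] (Φ₀ : Form n l m k) (Y : Mat n k) (hY : Y ∈ stab Φ₀) (ν : Fin n → ℤ)
    (hν : ∀ i, Y i i = ν i) : ∃ u u' : Mat n k, u' * u = 1 ∧ u.BlockTriangular id ∧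
      u'.BlockTriangular id ∧ (∀ i, u i i = 1) ∧ (∀ i, u' i i = 1) ∧
      ∀ (B : Type) [CommRing B] (φ : k →+* B) (t : Bˣ),
        Hom (u.map φ * diagonal (fun i => ((t ^ ν i : Bˣ) : B)) * u'.map φ) (bc φ Φ₀) (bc φ Φ₀) := by
  obtain ⟨u, u', a1, a2, a3, a4, a5, a6⟩ := sylvester hY.1
  refine ⟨u, u', a1, a2, a3, a4, a5, fun B _ φ t => ?_⟩
  have a7 := mul_eq_one_comm.1 a1
  obtain ⟨w, hw⟩ := exists_hom' a7 Φ₀
  have hw' := hw.inv' a7
  have h1 : lie w (u' * Y * u) = 0 :=
    ((hw'.lie (Y' := Y) (by rw [← Matrix.mul_assoc, ← Matrix.mul_assoc, a7, Matrix.one_mul])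
      ).eq_zero_iff (isUnit_det_of_left_inverse a1)).2 hY.2
  have h2 := fun j => weight_zero (ν := ν) ((a3.mul hY.1).mul a2)
    (fun i => by rw [mul_diag (a3.mul hY.1) a2, mul_diag a3 hY.1, a4, a5, hν, one_mul, mul_one])
    (fun i j c => a6 i j (by rw [hν, hν]; exact Int.cast_injective.ne c)) h1 j
  rw [Matrix.mul_assoc]
  refine ((hw.map φ).mul ((hom_diagonal _).2 fun i j μ => ?_)).mul (hw'.map φ)
  rw [coeff_bc]
  by_cases c : ν i = Finsupp.weight (fun p => ν p.1) μ
  · rw [c, mul_comm, Finsupp.weight_apply, Finsupp.sum, Finsupp.prod]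
    congr 1
    simp only [← Units.val_pow_eq_pow_val, ← Units.coe_prod, ← zpow_natCast, ← _root_.zpow_mul,
      nsmul_eq_mul, mul_comm, zpow_sum]
  · rw [h2 j _ i μ rfl c, map_zero, mul_zero, zero_mul]

end Pool.Agent.MP_e8e0b6_ag.Z

end MrgPart2

-- marker of a merged file
example : 731051 + 514410 = 731051 + 514410 := rfl
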