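import Mathlib
import Pool.Agent.MP_e8e0b6_ag.Z.Torus
import Pool.Agent.MP_e8e0b6_ag.S.Chart
import Pool.Agent.MP_e8e0b6_ag.QS.Quillen

-- ======== part 0: formerly Pool.Agent.MP_e8e0b6_ag.Z.Orbit
section MrgPart0

/-! Linear differential equations over power series, and the trivialisation of a form along an
orbit. -/

open Matrix

namespace Pool.Agent.MP_e8e0b6_ag.Z

variable {n : ℕ} {l m : Type}

open PowerSeries LaurentSeries

variable {k : Type} [Field k]

namespace Orbit

/-- The coefficients of the solution. -/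
noncomputable def co (Y : ℕ → Mat n k) : ℕ → Mat n k
  | 0 => 1
  | e + 1 => ((e : k) + 1)⁻¹ • ∑ i : Fin (e + 1), Y (e - i) * co Y i
  decreasing_by exact i.2

theorem co_tri (Y : ℕ → Mat n k) (hY : ∀ e, (Y e).BlockTriangular id) (e : ℕ) :
    (co Y e).BlockTriangular id := by
  induction e using Nat.strong_induction_on with
  | _ e ih =>
    rcases e with _ | e
    · rw [co]; exact blockTriangular_one
    · intro a b hab
      rw [co, Matrix.smul_apply, Matrix.sum_apply,
        Finset.sum_eq_zero fun (i : Fin (e + 1)) _ => ((hY _).mul (ih i i.2)) hab, smul_zero]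

theorem den {τ : Type} [Finite τ] (c : τ → k⸨X⸩) :
    ∃ (N : ℕ) (a : τ → k⟦X⟧), ∀ p, toL k (a p) = toL k X ^ N * c p := by
  have hF : Frac (algebraMap k⟦X⟧ k⸨X⸩) (Submonoid.powers (X : k⟦X⟧)) :=
    Frac.of_isLocalization _ (powers_le_nonZeroDivisors_of_noZeroDivisors X_ne_zero)
  obtain ⟨_, ⟨N, rfl⟩, h⟩ := hF.common (Set.finite_range c)
  choose a ha using fun p => h (c p) ⟨p, rfl⟩
  exact ⟨N, a, fun p => by rw [← map_pow]; exact ha p⟩

theorem toL_X_ne : toL k X ≠ 0 := (map_ne_zero_iff _ (toL_injective k)).2 X_ne_zero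

variable {τ ι : Type} [Fintype τ] {v : τ → ι → k⟦X⟧}

theorem sat (hv : LinearIndependent k fun p i => constantCoeff (v p i)) (c : τ → k⸨X⸩)
    (w : ι → k⟦X⟧) (h : ∀ i, ∑ p, c p * toL k (v p i) = toL k (w i)) :
    ∃ a : τ → k⟦X⟧, ∀ p, toL k (a p) = c p := by
  obtain ⟨N, h1⟩ := den c
  induction N with
  | zero => simpa using h1
  | succ N ih =>
    obtain ⟨a, ha⟩ := h1
    have h2 : ∀ i, ∑ p, a p * v p i = X ^ (N + 1) * w i := fun i => toL_injective k (by
      simp only [map_sum, map_mul, map_pow, ha, ← h, Finset.mul_sum, mul_assoc])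
    have h3 := Fintype.linearIndependent_iff.1 hv (fun p => constantCoeff (a p)) (by
      funext i
      simpa using congrArg constantCoeff (h2 i))
    choose a' ha' using fun p => X_dvd_iff.2 (h3 p)
    refine ih ⟨a', fun p => mul_left_cancel₀ toL_X_ne ?_⟩
    rw [← map_mul, ← ha', ha]
    ring

theorem indep (hv : LinearIndependent k fun p i => constantCoeff (v p i)) :
    LinearIndependent k⸨X⸩ fun p i => toL k (v p i) := by
  refine Fintype.linearIndependent_iff.2 fun c hc p => by_contra fun h0 => ?_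
  obtain ⟨a, ha⟩ := sat hv (fun q => (toL k X * c p)⁻¹ * c q) 0 fun i => by
    have := congrFun hc i
    simp only [Finset.sum_apply, Pi.smul_apply, smul_eq_mul, Pi.zero_apply] at this
    simp only [mul_assoc, ← Finset.mul_sum, this, mul_zero, Pi.zero_apply, map_zero]
  have h1 : X * a p = 1 := toL_injective k (by
    have := toL_X_ne (k := k)
    rw [map_mul, ha, map_one]
    field_simp)
  simpa using congrArg constantCoeff h1

theorem mem_span (v : τ → ι → k⟦X⟧) (w : ι → k⟦X⟧)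
    (hr : Module.finrank k⸨X⸩ (Submodule.span k⸨X⸩ (Set.range fun p i => toL k (v p i))) ≤
      Module.finrank k (Submodule.span k (Set.range fun p i => constantCoeff (v p i))))
    (hw : (fun i => toL k (w i)) ∈ Submodule.span k⸨X⸩ (Set.range fun p i => toL k (v p i))) :
    w ∈ Submodule.span k⟦X⟧ (Set.range v) := by
  have := FiniteDimensional.span_of_finite k
    (Set.finite_range fun p i => constantCoeff (v p i))
  have := FiniteDimensional.span_of_finite k⸨X⸩ (Set.finite_range fun p i => toL k (v p i))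
  obtain ⟨f, h1, -, h3⟩ := Submodule.exists_fun_fin_finrank_span_eq k
    (Set.range fun p i => constantCoeff (v p i))
  choose g hg using h1
  have h4 : LinearIndependent k fun q i => constantCoeff (v (g q) i) := by
    have e : (fun q i => constantCoeff (v (g q) i)) = f := funext hg
    rw [e]
    exact h3
  have h5 := Submodule.eq_of_le_of_finrank_le
    (Submodule.span_mono (R := k⸨X⸩) (s := Set.range fun q i => toL k (v (g q) i))
      (t := Set.range fun p i => toL k (v p i)) (by rintro _ ⟨q, rfl⟩; exact ⟨g q, rfl⟩))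
    (by rw [finrank_span_eq_card (indep h4), Fintype.card_fin]; exact hr)
  rw [← h5, Submodule.mem_span_range_iff_exists_fun] at hw
  obtain ⟨c, hc⟩ := hw
  have h6 : ∀ i, ∑ q, c q * toL k (v (g q) i) = toL k (w i) := fun i => by
    simpa using congrFun hc i
  obtain ⟨a, ha⟩ := sat h4 c w h6
  have h7 : w = ∑ q, a q • v (g q) := by
    funext i
    refine toL_injective k ?_
    simp only [← h6, ← ha, Finset.sum_apply, Pi.smul_apply, smul_eq_mul, map_sum, map_mul]
  rw [h7]
  exact Submodule.sum_mem _ fun q _ => Submodule.smul_mem _ _ (Submodule.subset_span ⟨_, rfl⟩)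

section
variable {A B : Type} [CommRing A] [CommRing B]

/-- The coefficients of the infinitesimal action, and the entries below the diagonal. -/
noncomputable def LL (Ψ : Form n l m B) :
    Mat n B →ₗ[B] ((Fin n × m × (Fin n × l →₀ ℕ)) ⊕ (Fin n × Fin n) → B) where
  toFun Y := Sum.elim (fun q => MvPolynomial.coeff q.2.2 (lie Ψ Y q.1 q.2.1))
    fun q => if q.2 < q.1 then Y q.1 q.2 else 0
  map_add' Y Z := by
    funext q
    rcases q with q | q
    · simp
    · simp only [Sum.elim_inr, Pi.add_apply, Matrix.add_apply]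
      split_ifs <;> simp
  map_smul' c Y := by
    funext q
    rcases q with q | q <;> simp

/-- The coefficients of a form. -/
noncomputable def cf (Θ : Form n l m B) :
    (Fin n × m × (Fin n × l →₀ ℕ)) ⊕ (Fin n × Fin n) → B :=
  Sum.elim (fun q => MvPolynomial.coeff q.2.2 (Θ q.1 q.2.1)) fun _ => 0

theorem LL_eq {Ψ Θ : Form n l m B} {Y : Mat n B} :
    LL Ψ Y = cf Θ ↔ Y.BlockTriangular id ∧ lie Ψ Y = Θ := by
  constructor
  · intro h
    refine ⟨fun i j hij => ?_, ?_⟩
    · have := congrFun h (.inr (i, j))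
      have h1 : j < i := hij
      simpa [LL, cf, h1] using this
    · funext i j
      ext μ
      exact congrFun h (.inl (i, j, μ))
  · rintro ⟨h1, rfl⟩
    funext q
    rcases q with q | q
    · rfl
    · by_cases h2 : q.2 < q.1
      · simpa [LL, cf, h2] using h1 h2
      · simp [LL, cf, h2]

theorem ker_LL (Ψ : Form n l m B) : LinearMap.ker (LL Ψ) = stab Ψ := by
  ext Y
  have : cf (0 : Form n l m B) = 0 := by
    funext q
    rcases q with q | q <;> rfl
  rw [LinearMap.mem_ker, ← this, LL_eq]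
  rfl

theorem LL_map (φ : A →+* B) (Ψ : Form n l m A) (Y : Mat n A) :
    LL (bc φ Ψ) (Y.map φ) = fun q => φ (LL Ψ Y q) := by
  funext q
  rcases q with q | q
  · simp [LL, lie_bc, coeff_bc]
  · simp [LL, apply_ite φ]

theorem range_LL (φ : A →+* B) (Ψ : Form n l m A) : LinearMap.range (LL (bc φ Ψ)) =
    Submodule.span B (Set.range fun (p : Fin n × Fin n) q =>
      φ (LL Ψ (Matrix.single p.1 p.2 1) q)) := by
  rw [LinearMap.range_eq_map, ← (Matrix.stdBasis B (Fin n) (Fin n)).span_eq, Submodule.map_span,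
    ← Set.range_comp]
  congr 2
  funext p
  rw [← LL_map, Matrix.map_single _ _ _ φ, map_one, Function.comp_apply, ← stdBasis_eq_single]

end

theorem rank_le (Φ₀ : Form n l m k) (Θ : Form n l m k⸨X⸩) (b : Mat n k⸨X⸩)
    (hb : IsUnit b.det) (hb' : b.BlockTriangular id) (h : Hom b (bc (cL k) Φ₀) Θ) :
    Module.finrank k (stab Φ₀) ≤ Module.finrank k⸨X⸩ (stab Θ) := by
  have := b.invertibleOfIsUnitDet hb
  let e := Module.finBasis k (stab Φ₀)
  have h1 : ∀ p, b * (e p).1.map (cL k) * b⁻¹ ∈ stab Θ := fun p =>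
    ⟨(hb'.mul ((e p).2.1.map (cL k))).mul (blockTriangular_inv_of_blockTriangular hb'),
      ((h.lie (Y := (e p).1.map (cL k)) (nonsing_inv_mul_cancel_right _ _ hb)).eq_zero_iff hb).1
        (by rw [lie_bc, (e p).2.2]; funext i j; exact map_zero _)⟩
  have h2 : LinearIndependent k⸨X⸩ fun p => (⟨_, h1 p⟩ : stab Θ) := by
    refine Fintype.linearIndependent_iff.2 fun c hc p => ?_
    have h3 : b * (∑ p, c p • (e p).1.map (cL k)) * b⁻¹ = 0 := by
      simpa [Finset.mul_sum, Finset.sum_mul] using congrArg Subtype.val hc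
    have h4 : ∑ p, c p • (e p).1.map (cL k) = 0 := by
      have h5 := congrArg (fun z => b⁻¹ * (z * b)) h3
      simpa only [nonsing_inv_mul_cancel_right _ _ hb, nonsing_inv_mul_cancel_left _ _ hb,
        Matrix.zero_mul, Matrix.mul_zero] using h5
    ext s
    refine Fintype.linearIndependent_iff.1 e.linearIndependent (fun p => (c p).coeff s) ?_ p
    ext i j
    have h5 := congrArg (fun z : Mat n k⸨X⸩ => (z i j).coeff s) h4
    simpa [Matrix.sum_apply, HahnSeries.coeff_sum] using h5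
  simpa using h2.fintype_card_le_finrank

end Orbit

theorem exists_ode [CharZero k] (Y : Mat n k⟦X⟧) (hY : Y.BlockTriangular id) :
    ∃ β : Mat n k⟦X⟧, β.map (dO k).d = Y * β ∧ β.map constantCoeff = 1 ∧
      β.BlockTriangular id := by
  let y : ℕ → Mat n k := fun e => Y.map (coeff e)
  refine ⟨Matrix.of fun i j => PowerSeries.mk fun e => Orbit.co y e i j, ?_, ?_, fun i j hij => ?_⟩
  · ext i j e
    have h : ((e : k) + 1) ≠ 0 := Nat.cast_add_one_ne_zero e
    rw [map_apply, dO_apply, coeff_derivative, of_apply, coeff_mk, Orbit.co, Matrix.smul_apply,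
      smul_eq_mul, mul_right_comm, inv_mul_cancel₀ h, one_mul, Matrix.sum_apply, mul_apply, map_sum]
    simp only [mul_apply, of_apply]
    rw [Finset.sum_comm]
    refine Finset.sum_congr rfl fun c _ => ?_
    rw [mul_comm, coeff_mul, Finset.Nat.sum_antidiagonal_eq_sum_range_succ_mk, Finset.sum_range]
    simp [y, mul_comm]
  · ext i j
    rw [map_apply, of_apply, constantCoeff_mk, Orbit.co]
  · ext e
    rw [of_apply, coeff_mk, Orbit.co_tri y (fun e => hY.map (coeff e)) e hij, map_zero]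

theorem orbit [CharZero k] (Φ₀ : Form n l m k) (Ψ : Form n l m k⟦X⟧) (b : Mat n k⸨X⸩)
    (hb : IsUnit b.det) (hb' : b.BlockTriangular id) (h : Hom b (bc (cL k) Φ₀) (bc (toL k) Ψ))
    (hq : Module.finrank k (stab (bc constantCoeff Ψ)) ≤ Module.finrank k (stab Φ₀)) :
    ∃ β : Mat n k⟦X⟧, IsUnit β.det ∧ β.BlockTriangular id ∧
      Hom β (bc PowerSeries.C (bc constantCoeff Ψ)) Ψ := by
  have := b.invertibleOfIsUnitDet hb
  have h1 : (b.map (dL k).d * b⁻¹).BlockTriangular id :=
    (hb'.map (dL k).d).mul (blockTriangular_inv_of_blockTriangular hb')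
  have h2 := ((h.deriv (dL k) (nonsing_inv_mul_cancel_right _ (b.map (dL k).d) hb).symm).eq_zero_iff
    hb).1 (dform_const (dL_cL k) Φ₀)
  rw [sub_eq_zero, dform_bc (dL_toL k)] at h2
  have h3 := Orbit.rank_le Φ₀ _ b hb hb' h
  have h4 := (Orbit.LL (bc (toL k) Ψ)).finrank_range_add_finrank_ker
  have h5 := (Orbit.LL (bc constantCoeff Ψ)).finrank_range_add_finrank_ker
  rw [Orbit.ker_LL, Orbit.range_LL, Module.finrank_matrix, Module.finrank_self] at h4 h5
  have h6 := Orbit.mem_span (fun (p : Fin n × Fin n) q => Orbit.LL Ψ (Matrix.single p.1 p.2 1) q)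
    (Orbit.cf (dform (dO k) Ψ)) (by omega) (by
      rw [← Orbit.range_LL]
      refine ⟨_, (Orbit.LL_eq.2 ⟨h1, h2.symm⟩).trans ?_⟩
      funext q
      rcases q with q | q
      · exact coeff_bc _ _ _ _ _
      · exact (map_zero _).symm)
  have h7 := Orbit.range_LL (RingHom.id k⟦X⟧) Ψ
  rw [bc_id] at h7
  obtain ⟨Y, hY⟩ : Orbit.cf (dform (dO k) Ψ) ∈ LinearMap.range (Orbit.LL Ψ) := by
    rw [h7]; exact h6
  obtain ⟨h8, h9⟩ := Orbit.LL_eq.1 hY
  obtain ⟨β, e1, e2, e3⟩ := exists_ode Y h8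
  obtain ⟨e4, e5⟩ := hom_of_ode e1 e2 h9.symm
  exact ⟨β, e4, e3, e5⟩

end Pool.Agent.MP_e8e0b6_ag.Z

end MrgPart0

-- ======== part 1: formerly Pool.Agent.MP_e8e0b6_ag.Z.Unip
section MrgPart1

/-!
Triangular automorphisms with constant diagonal over Laurent series.
-/

open Matrix

namespace Pool.Agent.MP_e8e0b6_ag.Z

variable {n : ℕ} {l m : Type}

namespace Unip

section

variable {B : Type} [CommRing B] {a b : ℕ} {x y : Mat n B} {d : Fin n → B}

/-- The entries of height below `a` vanish. -/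
def Ht (a : ℕ) (x : Mat n B) : Prop := ∀ i j : Fin n, j.1 < i.1 + a → x i j = 0

theorem Ht.mono (h : Ht a x) (e : b ≤ a) : Ht b x := fun i j c => h i j (by omega)

theorem Ht.add (h : Ht a x) (h' : Ht a y) : Ht a (x + y) := fun i j c => by
  rw [Matrix.add_apply, h i j c, h' i j c, add_zero]

theorem Ht.mul (h : Ht a x) (h' : Ht b y) : Ht (a + b) (x * y) := fun i j c => by
  rw [mul_apply]
  refine Finset.sum_eq_zero fun e _ => ?_
  by_cases f : e.1 < i.1 + a
  · rw [h i e f, zero_mul]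
  · rw [h' e j (by omega), mul_zero]

theorem mul_mem' {S : Subring B} {i j : Fin n} (h : ∀ e, x i e * y e j ∈ S) : (x * y) i j ∈ S := by
  rw [mul_apply]
  exact sum_mem fun e _ => h e

theorem ht_diag (d : Fin n → B) : Ht 0 (diagonal d) := fun _ _ c =>
  diagonal_apply_ne _ fun e => by simp [e] at c

theorem Ht.pow (h : Ht a x) (j : ℕ) : Ht (j * a) (x ^ j) := by
  induction j with
  | zero => simpa using ht_diag (1 : Fin n → B)
  | succ j ih => simpa only [pow_succ, add_mul, one_mul] using ih.mul h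

theorem Ht.zero (h : Ht 1 (x - diagonal d)) : Ht 0 x := by
  simpa using (h.mono (Nat.zero_le _)).add (ht_diag d)

theorem Ht.tri (h : Ht 0 x) : x.BlockTriangular id := fun i j c => h i j c

theorem Ht.diag (h : Ht 1 (x - diagonal d)) (i : Fin n) : x i i = d i := by
  simpa [sub_eq_zero] using h i i (Nat.lt_succ_self _)

theorem Ht.det (h : Ht 1 (x - diagonal d)) : x.det = ∏ i, d i := by
  rw [det_of_isUpperTriangular h.zero.tri]
  exact Finset.prod_congr rfl fun i _ => h.diag i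

theorem Ht.mul_one (h : Ht 1 (x - diagonal d)) (h' : Ht 1 (y - 1)) :
    Ht 1 (x * y - diagonal d) := by
  simpa [mul_sub] using (h.zero.mul h').add h

end

open PowerSeries LaurentSeries

theorem hom_exp {K : Type} [Field K] [CharZero K] {Φ : Form n l m K} {N : Mat n K}
    (hN : N ^ n = 0) (h : lie Φ N = 0) :
    Hom (∑ j ∈ Finset.range (n + 2), (j.factorial : K)⁻¹ • N ^ j) Φ Φ := by
  let β : Mat n K⟦X⟧ := of fun a b => mk fun j => (j.factorial : K)⁻¹ * (N ^ j) a b
  let p : Mat n (Polynomial K) := of fun a b =>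
    ∑ j ∈ Finset.range (n + 2), Polynomial.monomial j ((j.factorial : K)⁻¹ * (N ^ j) a b)
  have e : p.map Polynomial.coeToPowerSeries.ringHom = β := by
    ext a b j
    simp only [p, β, map_apply, of_apply, Polynomial.coeToPowerSeries.ringHom_apply,
      Polynomial.coeff_coe, coeff_mk, Polynomial.finsetSum_coeff, Polynomial.coeff_monomial,
      Finset.sum_ite_eq', Finset.mem_range]
    split_ifs with c
    · rfl
    · rw [pow_eq_zero_of_le (by omega) hN, Matrix.zero_apply, mul_zero]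
  have h1 := (hom_of_ode (β := β) (Y := N.map C) (Ψ := bc C Φ) (by
    ext a b j
    have : ((j + 1 : ℕ) : K) ≠ 0 := Nat.cast_ne_zero.2 j.succ_ne_zero
    simp only [β, map_apply, dO_apply, coeff_derivative, of_apply, coeff_mk, mul_apply, map_sum,
      coeff_C_mul, pow_succ' N, Nat.factorial_succ, Nat.cast_mul, mul_left_comm (N a _),
      ← Finset.mul_sum]
    push_cast at this ⊢
    field_simp) (by
    ext a b
    simp [β, ← coeff_zero_eq_constantCoeff_apply]) (by
    rw [dform_const fun a => by rw [dO_apply, derivative_C], lie_bc, h]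
    funext i j
    exact (map_zero _).symm)).2
  rw [show bc constantCoeff (bc C Φ) = Φ from (bc_bc _ _ _).trans ((congrArg (bc · Φ)
    (RingHom.ext fun a => by simp)).trans (bc_id Φ)), ← e,
    show (C : K →+* K⟦X⟧) = Polynomial.coeToPowerSeries.ringHom.comp Polynomial.C from
      RingHom.ext fun a => (Polynomial.coe_C a).symm, ← bc_bc] at h1
  have h2 := (h1.of_map (Polynomial.coe_injective K)).map (Polynomial.evalRingHom 1)
  rw [bc_bc, show (Polynomial.evalRingHom (1 : K)).comp Polynomial.C = RingHom.id K from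
    RingHom.ext fun a => Polynomial.eval_C, bc_id] at h2
  refine Eq.mp (congrArg (Hom · Φ Φ) ?_) h2
  ext a b
  simp [p, Matrix.sum_apply, Polynomial.eval_finsetSum]

variable (k : Type) [Field k]

/-- The derivation `X d/dX`. -/
noncomputable def eu : Der k⸨X⸩ where
  d := (AddMonoidHom.mulLeft (HahnSeries.single 1 1)).comp (dL k).d
  leib a b := by simp only [AddMonoidHom.comp_apply, AddMonoidHom.coe_mulLeft, Der.leib]; ring

theorem coeff_eu (f : k⸨X⸩) (e : ℤ) : ((eu k).d f).coeff e = e * f.coeff e := coeff_euler k f e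

theorem eu_cL (a : k) : (eu k).d (cL k a) = 0 := by
  simp only [eu, AddMonoidHom.comp_apply, dL_cL, map_zero]

/-- The antiderivative of the polar part. -/
noncomputable def po : k⸨X⸩ →+ k⸨X⸩ where
  toFun f := ⟨fun e => if e < 0 then f.coeff e / e else 0,
    f.isPWO_support.mono fun e he h => he (by simp [h])⟩
  map_zero' := by ext; simp
  map_add' f g := by ext e; by_cases h : e < 0 <;> simp [h, add_div]

theorem coeff_po (f : k⸨X⸩) (e : ℤ) : (po k f).coeff e = if e < 0 then f.coeff e / e else 0 := rfl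

theorem po_mem (f : k⸨X⸩) : po k f ∈ Lau k := by
  have : po k f = ∑ e ∈ Finset.Ico f.order 0, HahnSeries.single e (f.coeff e / e) := by
    ext e
    have : ∀ x : ℤ, (HahnSeries.single x (f.coeff x / x)).coeff e =
        if e = x then f.coeff x / x else 0 := fun x => by
      split_ifs with h
      exacts [h ▸ HahnSeries.coeff_single_same _ _, HahnSeries.coeff_single_of_ne h]
    simp only [coeff_po, HahnSeries.coeff_sum, this, Finset.sum_ite_eq, Finset.mem_Ico]
    by_cases h : f.order ≤ e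
    · simp [h]
    · simp [h, HahnSeries.coeff_eq_zero_of_lt_order (not_le.1 h)]
  exact this ▸ sum_mem fun e _ => single_mem_Lau k e _

theorem cL_mem (a : k) : cL k a ∈ (toL k).range := ⟨_, toL_C k a⟩

variable {k}

/-- The entries of height below `a` are power series. -/
def In (a : ℕ) (x : Mat n k⸨X⸩) : Prop := ∀ i j : Fin n, j.1 < i.1 + a → x i j ∈ (toL k).range

theorem step [CharZero k] {Φ₀ : Form n l m k} {ζ : Mat n k⸨X⸩} {c : Fin n → k} (hc : ∀ i, c i ≠ 0)
    (hζ : Ht 1 (ζ - diagonal fun i => cL k (c i))) (h : Hom ζ (bc (cL k) Φ₀) (bc (cL k) Φ₀))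
    {a : ℕ} (ha : In (a + 1) ζ) : ∃ E : Mat n k⸨X⸩, Hom E (bc (cL k) Φ₀) (bc (cL k) Φ₀) ∧
      (∀ i j, E i j ∈ Lau k) ∧ Ht 1 (E - 1) ∧ In (a + 2) (ζ * E) := by
  have := charZero_of_injective_ringHom (cL k).injective
  have hu : IsUnit ζ.det := by
    rw [hζ.det, ← map_prod]
    exact (Finset.prod_ne_zero_iff.2 fun i _ => hc i).isUnit.map _
  obtain ⟨U, hU⟩ : ∃ U, U = ζ - diagonal fun i => cL k (c i) := ⟨_, rfl⟩
  obtain ⟨Y, hY⟩ : ∃ Y, Y = ζ⁻¹ * ζ.map (eu k).d := ⟨_, rfl⟩
  have e1 : ζ * Y = ζ.map (eu k).d := by rw [hY, mul_nonsing_inv_cancel_left _ _ hu]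
  have e2 : ζ.map (eu k).d * ζ⁻¹ * ζ = ζ.map (eu k).d := nonsing_inv_mul_cancel_right _ _ hu
  have l1 := ((h.deriv _ e2.symm).eq_zero_iff hu).1 (dform_const (eu_cL k) _)
  rw [dform_const (eu_cL k), zero_sub, neg_eq_zero] at l1
  have l2 := lie_coeff (ψ := cL k) (po k) (fun b a => by
    ext e
    simp only [coeff_po, HahnSeries.C_apply, HahnSeries.coeff_mul_single_zero]
    split_ifs
    · ring
    · rw [zero_mul]) (((h.lie (e2.trans e1.symm)).eq_zero_iff hu).2 l1)
  have y1 : Ht 1 Y := by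
    have := invertibleOfIsUnitDet _ hu
    refine hY ▸ Ht.mul (a := 0) (b := 1) (x := ζ⁻¹)
      (fun i j c => blockTriangular_inv_of_blockTriangular hζ.zero.tri c) fun i j c => ?_
    rw [map_apply, sub_eq_zero.1 (hζ i j c), diagonal_apply]
    split_ifs
    exacts [eu_cL k _, map_zero _]
  have e3 : ∀ (x : Mat n k⸨X⸩) i j, (ζ * x) i j = cL k (c i) * x i j + (U * x) i j := fun x i j => by
    rw [hU, Matrix.sub_mul, Matrix.sub_apply, diagonal_mul, add_sub_cancel]
  have z0 := hζ.zero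
  rw [← hU] at hζ
  have y2 : ∀ b ≤ a + 1, In b Y → ∀ i j : Fin n, j.1 < i.1 + b + 1 → (U * Y) i j ∈ (toL k).range :=
    fun b hb y i j c => mul_mem' fun e => by
      by_cases f : e.1 < i.1 + 1
      · rw [hζ i e f, zero_mul]; exact zero_mem _
      by_cases g : j.1 < e.1 + 1
      · rw [y1 e j g, mul_zero]; exact zero_mem _
      refine mul_mem ?_ (y e j (by omega))
      rw [hU, Matrix.sub_apply, diagonal_apply_ne _ fun t => f (by simp [t]), sub_zero]
      exact ha i e (by omega)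
  have y3 : ∀ b ≤ a + 1, In b Y := fun b hb => by
    induction b with
    | zero => exact fun i j c => y1 i j (by omega) ▸ zero_mem _
    | succ b ih =>
      intro i j f
      have g : (ζ * Y) i j ∈ (toL k).range := mem_range_toL.2 fun e he => by
        rw [e1, map_apply, coeff_eu, mem_range_toL.1 (ha i j (by omega)) e he, mul_zero]
      have := mul_mem (cL_mem k (c i)⁻¹) (sub_mem g (y2 b (by omega) (ih (by omega)) i j f))
      rwa [e3, add_sub_cancel_right, ← mul_assoc, ← map_mul, inv_mul_cancel₀ (hc i), map_one,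
        one_mul] at this
  obtain ⟨N, hN⟩ : ∃ N, N = -Y.map (po k) := ⟨_, rfl⟩
  have n1 : Ht (a + 1) N := fun i j f => by
    rw [hN, Matrix.neg_apply, neg_eq_zero]
    ext e
    rw [map_apply, coeff_po]
    split_ifs with he
    · rw [mem_range_toL.1 (y3 _ le_rfl i j f) e he, zero_div, HahnSeries.coeff_zero]
    · rfl
  have n2 : ∀ j p q, (N ^ j) p q ∈ Lau k := fun j => by
    induction j with
    | zero => exact fun p q => by rw [pow_zero, one_apply]; split_ifs; exacts [one_mem _, zero_mem _]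
    | succ j ih =>
      exact fun p q => pow_succ N j ▸ mul_mem' fun e => mul_mem (ih p e)
        (hN ▸ neg_mem (po_mem k _))
  obtain ⟨T, hT⟩ : ∃ T, T = ∑ j ∈ Finset.range n, ((j + 1 + 1).factorial : k⸨X⸩)⁻¹ • N ^ (j + 1 + 1) :=
    ⟨_, rfl⟩
  have t1 : Ht (a + 2) T := fun p q f => by
    rw [hT, Matrix.sum_apply]
    exact Finset.sum_eq_zero fun j _ => by
      rw [Matrix.smul_apply, n1.pow _ p q (by nlinarith), smul_zero]
  have e4 : ∑ j ∈ Finset.range (n + 2), (j.factorial : k⸨X⸩)⁻¹ • N ^ j = T + N + 1 := by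
    rw [Finset.sum_range_succ', Finset.sum_range_succ', hT]
    simp
  refine ⟨_, hom_exp (N := N) (ext fun p q => n1.pow n p q (by nlinarith [q.2]))
    (by rw [hN, map_neg, l2, neg_zero]), fun p q => ?_, ?_, fun i j f => ?_⟩
  · rw [Matrix.sum_apply]
    refine sum_mem fun j _ => mul_mem ?_ (n2 j p q)
    rw [← map_natCast (cL k), ← map_inv₀]
    exact single_mem_Lau k 0 _
  · rw [e4, add_sub_cancel_right]
    exact (t1.mono (by omega)).add (n1.mono (by omega))
  · have g := mem_range_toL.1 (y2 _ le_rfl (y3 _ le_rfl) i j f)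
    rw [e4, mul_add, mul_add, mul_one, Matrix.add_apply, Matrix.add_apply,
      (z0.mul t1) i j (by omega), e3, (hζ.mul n1) i j (by omega), hN]
    refine mem_range_toL.2 fun e he => ?_
    have e5 := congrArg (fun f : k⸨X⸩ => f.coeff e) (e3 Y i j)
    have e6 : (e : k) ≠ 0 := Int.cast_ne_zero.2 he.ne
    simp only [e1, map_apply, coeff_eu, HahnSeries.coeff_add, g e he, HahnSeries.C_apply,
      HahnSeries.coeff_single_zero_mul, add_zero] at e5
    simp only [zero_add, add_zero, Matrix.neg_apply, map_apply, HahnSeries.coeff_add,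
      HahnSeries.C_apply, HahnSeries.coeff_single_zero_mul, HahnSeries.coeff_neg, coeff_po,
      if_pos he]
    field_simp
    linear_combination e5

end Unip

open PowerSeries LaurentSeries Unip

variable {k : Type} [Field k]

theorem unipotent [CharZero k] (Φ₀ : Form n l m k) (η : Mat n k⸨X⸩) (hη : η.BlockTriangular id)
    (c : Fin n → k) (hc : ∀ i, c i ≠ 0) (hd : ∀ i, η i i = cL k (c i))
    (h : Hom η (bc (cL k) Φ₀) (bc (cL k) Φ₀)) :
    ∃ γ γ' : Mat n k⸨X⸩, γ' * γ = 1 ∧ Hom γ (bc (cL k) Φ₀) (bc (cL k) Φ₀) ∧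
      (∀ i j, γ i j ∈ Lau k ∧ γ' i j ∈ Lau k) ∧
      ∃ y : Mat n k⟦X⟧, IsUnit y.det ∧ y.map (toL k) = η * γ := by
  have h1 : Ht 1 (η - diagonal fun i => cL k (c i)) := fun i j f => by
    rw [Matrix.sub_apply, diagonal_apply]
    split_ifs with e
    · rw [← e, hd, sub_self]
    · rw [hη (show j < i from lt_of_le_of_ne (Nat.le_of_lt_succ f) (Ne.symm e)), sub_zero]
  have h2 : ∀ a, ∃ γ : Mat n k⸨X⸩, Hom γ (bc (cL k) Φ₀) (bc (cL k) Φ₀) ∧
      (∀ i j, γ i j ∈ Lau k) ∧ Ht 1 (γ - 1) ∧ In (a + 1) (η * γ) := fun a => by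
    induction a with
    | zero =>
      refine ⟨1, .one _, fun p q => ?_, fun _ _ _ => by simp, fun i j f => ?_⟩
      · rw [one_apply]; split_ifs; exacts [one_mem _, zero_mem _]
      · rw [mul_one, sub_eq_zero.1 (h1 i j f), diagonal_apply]
        split_ifs
        exacts [cL_mem k _, zero_mem _]
    | succ a ih =>
      obtain ⟨γ, a1, a2, a3, a4⟩ := ih
      obtain ⟨E, b1, b2, b3, b4⟩ := step hc (h1.mul_one a3) (a1.mul h) a4
      exact ⟨γ * E, b1.mul a1, fun p q => mul_mem' fun e => mul_mem (a2 p e) (b2 e q),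
        Ht.mul_one (d := 1) a3 b3, mul_assoc η γ E ▸ b4⟩
  obtain ⟨γ, a1, a2, a3, a4⟩ := h2 n
  let g : Mat n (Lau k) := of fun i j => ⟨γ i j, a2 i j⟩
  have e : (Lau k).subtype.mapMatrix g = γ := rfl
  have hg : IsUnit g.det := by
    rw [show g.det = 1 from (Lau k).subtype_injective (by
      rw [RingHom.map_det, e, Ht.det (d := 1) a3]; simp)]
    exact isUnit_one
  choose y hy using fun i j : Fin n => a4 i j (by omega)
  have e' : (toL k).mapMatrix (of y) = η * γ := ext hy
  refine ⟨γ, (Lau k).subtype.mapMatrix g⁻¹, by rw [← e, ← map_mul, nonsing_inv_mul _ hg, map_one],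
    a1, fun i j => ⟨a2 i j, (g⁻¹ i j).2⟩, of y, ?_, e'⟩
  rw [show (of y).det = C (∏ i, c i) from toL_injective k (by
    rw [RingHom.map_det, e', (h1.mul_one a3).det, toL_C, map_prod])]
  exact (Finset.prod_ne_zero_iff.2 fun i _ => hc i).isUnit.map _

end Pool.Agent.MP_e8e0b6_ag.Z

end MrgPart1

-- ======== part 2: formerly Pool.Agent.MP_e8e0b6_ag.Z.Pole
section MrgPart2

/-!
Removal of a pole of a trivialisation, and forms over the affine line over a field.
-/

open Matrix PowerSeries LaurentSeries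

namespace Pool.Agent.MP_e8e0b6_ag.Z

variable {n : ℕ} {l m k : Type} [Field k]

theorem diag_mul {B : Type} [CommRing B] {x y : Mat n B} (hx : x.BlockTriangular id)
    (hy : y.BlockTriangular id) (i : Fin n) : (x * y) i i = x i i * y i i := by
  rw [mul_apply]
  refine Finset.sum_eq_single i (fun b _ hb => ?_) (by simp)
  rcases lt_or_gt_of_ne hb with h | h
  · rw [hx h, zero_mul]
  · rw [hy h, mul_zero]

theorem tri_inv {B : Type} [CommRing B] {x : Mat n B} (hx : x.BlockTriangular id)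
    (hu : IsUnit x.det) : x⁻¹.BlockTriangular id :=
  have := invertibleOfIsUnitDet x hu
  blockTriangular_inv_of_blockTriangular hx

theorem tri_map {A B : Type} [Zero A] [Zero B] {x : Mat n A} (hx : x.BlockTriangular id)
    {F : Type} [FunLike F A B] [ZeroHomClass F A B] (w : F) : (x.map w).BlockTriangular id :=
  fun i j h => by rw [map_apply, hx h, map_zero]

theorem special [IsAlgClosed k] {K : Type} [CommRing K] [Nontrivial K] (φ : k →+* K) {x : Mat n K}
    (hx : IsUnit x.det) {Φ Ψ : Form n l m k} (h : Hom x (bc φ Φ) (bc φ Ψ)) :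
    ∃ x₀ : Mat n k, IsUnit x₀.det ∧ Hom x₀ Φ Ψ ∧ ∀ i j, x i j = 0 → x₀ i j = 0 := by
  classical
  let := φ.toAlgebra
  let s : Finset K := Finset.univ.image (fun p : Fin n × Fin n => x p.1 p.2) ∪
    Finset.univ.image fun p : Fin n × Fin n => x⁻¹ p.1 p.2
  let A := Algebra.adjoin k (s : Set K)
  have : Algebra.FiniteType k A := A.fg_iff_finiteType.1 ⟨s, rfl⟩
  obtain ⟨e, -⟩ := exists_point (k := k) (⊥ : Ideal A) bot_ne_top
  obtain ⟨y, hy, hy'⟩ := exists_mat (φ := A.val.toRingHom) Subtype.val_injective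
    (nonsing_inv_mul _ hx) (fun i j => ⟨⟨_, Algebra.subset_adjoin (Finset.mem_union_left _
      (Finset.mem_image_of_mem _ (Finset.mem_univ (i, j))))⟩, rfl⟩)
    fun i j => ⟨⟨_, Algebra.subset_adjoin (Finset.mem_union_right _
      (Finset.mem_image_of_mem _ (Finset.mem_univ (i, j))))⟩, rfl⟩
  have h1 : Hom y (bc (algebraMap k A) Φ) (bc (algebraMap k A) Ψ) :=
    .of_map (φ := A.val.toRingHom) Subtype.val_injective (by rw [bc_bc, bc_bc, hy']; exact h)
  have h2 := h1.map (e : A →+* k)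
  rw [bc_bc, bc_bc, e.comp_algebraMap, Algebra.algebraMap_self, bc_id, bc_id] at h2
  exact ⟨_, isUnit_det_map hy _, h2, fun i j h0 => by
    rw [map_apply, show y i j = 0 from Subtype.ext ((congrFun (congrFun hy' i) j).trans h0),
      map_zero]⟩

theorem lie_log {η : Mat n k⸨X⸩} (hu : IsUnit η.det) {Φ : Form n l m k}
    (h : Hom η (bc (cL k) Φ) (bc (cL k) Φ)) : lie (bc (cL k) Φ) (η.map (dL k).d * η⁻¹) = 0 := by
  have := h.deriv (dL k) (Y := η.map (dL k).d * η⁻¹) (by rw [nonsing_inv_mul_cancel_right _ _ hu])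
  rw [dform_const (dL_cL k), zero_sub] at this
  exact neg_eq_zero.1 ((this.eq_zero_iff hu).1 rfl)

theorem log_diag {η : Mat n k⸨X⸩} (hη : η.BlockTriangular id) (hu : IsUnit η.det) (i : Fin n) :
    η i i ≠ 0 ∧ (η.map (dL k).d * η⁻¹) i i * η i i = (dL k).d (η i i) := by
  have h1 := diag_mul (tri_inv hη hu) hη i
  rw [nonsing_inv_mul _ hu, one_apply_eq] at h1
  exact ⟨right_ne_zero_of_mul_eq_one h1.symm, by
    rw [diag_mul (tri_map hη _) (tri_inv hη hu), mul_assoc, ← h1, mul_one, map_apply]⟩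

theorem exists_order {f : k⸨X⸩} (hf : f ≠ 0) : ∃ (e : ℤ) (v : k⟦X⟧ˣ),
    f = HahnSeries.single e 1 * toL k v ∧ ∀ g, g * f = (dL k).d f → g.coeff (-1) = e := by
  have h1 : IsUnit f.powerSeriesPart := by
    rw [PowerSeries.isUnit_iff_constantCoeff, ← PowerSeries.coeff_zero_eq_constantCoeff_apply,
      powerSeriesPart_coeff]
    simpa using HahnSeries.coeff_order_eq_zero.not.2 hf
  obtain ⟨v, hv⟩ := h1
  have h2 : f = HahnSeries.single f.order 1 * toL k v := by
    rw [hv]; exact (single_order_mul_powerSeriesPart f).symm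
  refine ⟨f.order, v, h2, fun g hg => ?_⟩
  generalize f.order = e at h2
  have h3 : (dL k).d (HahnSeries.single e 1) =
      HahnSeries.single (-1) (e : k) * HahnSeries.single e 1 := by
    ext j
    rw [coeff_dL, HahnSeries.single_mul_single, HahnSeries.coeff_single, HahnSeries.coeff_single]
    split_ifs with h h' h'
    · simp [h]
    · omega
    · omega
    · simp
  have h4 : g = HahnSeries.single (-1) (e : k) + toL k ((dO k).d v * (v⁻¹ : k⟦X⟧ˣ)) := by
    refine mul_right_cancel₀ hf ?_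
    rw [hg, h2, Der.leib, h3, dL_toL]
    have : toL k (v⁻¹ : k⟦X⟧ˣ) * toL k v = 1 := by rw [← map_mul, v.inv_mul, map_one]
    rw [map_mul]
    linear_combination -(HahnSeries.single e 1 * toL k ((dO k).d v)) * this
  rw [h4, HahnSeries.coeff_add, mem_range_toL.1 ⟨_, rfl⟩ _ (by omega)]
  simp

/-- An upper triangular automorphism is integral up to a Laurent polynomial automorphism. -/
theorem triangular [CharZero k] (Φ₀ : Form n l m k) (η : Mat n k⸨X⸩) (hη : η.BlockTriangular id)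
    (hu : IsUnit η.det) (h : Hom η (bc (cL k) Φ₀) (bc (cL k) Φ₀)) :
    ∃ γ γ' : Mat n k⸨X⸩, γ' * γ = 1 ∧ Hom γ (bc (cL k) Φ₀) (bc (cL k) Φ₀) ∧
      (∀ i j, γ i j ∈ Lau k ∧ γ' i j ∈ Lau k) ∧
      ∃ y : Mat n k⟦X⟧, IsUnit y.det ∧ y.map (toL k) = η * γ := by
  choose ν v hv hν using fun i => exists_order (log_diag hη hu i).1
  have h1 := lie_coeff (ψ := RingHom.id k) (HahnSeries.coeff.addMonoidHom (-1))
    (fun b a => by simp [mul_comm b, mul_comm a]) (lie_log hu h)
  rw [bc_id] at h1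
  obtain ⟨u, u', e1, t1, t2, d1, d2, H⟩ := torus Φ₀ _
    ⟨tri_map ((tri_map hη _).mul (tri_inv hη hu)) _, h1⟩ ν fun i => hν i _ (log_diag hη hu i).2
  let t : k⸨X⸩ˣ := Units.mk0 (HahnSeries.single 1 1) (by simp)
  have ht : ∀ e : ℤ, ((t ^ e : k⸨X⸩ˣ) : k⸨X⸩) = HahnSeries.single e 1 := fun e => by
    rw [Units.val_zpow_eq_zpow_val]; exact (RatFunc.single_zpow e).symm
  let γ₁ (s : k⸨X⸩ˣ) : Mat n k⸨X⸩ :=
    u.map (cL k) * diagonal (fun i => ((s ^ ν i : k⸨X⸩ˣ) : k⸨X⸩)) * u'.map (cL k)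
  have e2 : γ₁ t * γ₁ t⁻¹ = 1 := by
    simp only [γ₁, mul_assoc]
    rw [← mul_assoc (u'.map _), ← Matrix.map_mul, e1,
      Matrix.map_one _ (map_zero _) (map_one _), one_mul, ← mul_assoc (diagonal _),
      diagonal_mul_diagonal]
    simp only [← Units.val_mul, ← mul_zpow, mul_inv_cancel, _root_.one_zpow, Units.val_one,
      diagonal_one, one_mul, ← Matrix.map_mul, mul_eq_one_comm.1 e1]
    exact Matrix.map_one _ (map_zero _) (map_one _)
  have l1 : ∀ s : k⸨X⸩ˣ, (∀ i, ((s ^ ν i : k⸨X⸩ˣ) : k⸨X⸩) ∈ Lau k) → ∀ i j, γ₁ s i j ∈ Lau k :=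
    fun s hs i j => by
      simp only [γ₁, mul_apply (N := u'.map _), mul_diagonal]
      exact sum_mem fun b _ => mul_mem (mul_mem (single_mem_Lau k 0 _) (hs b))
        (single_mem_Lau k 0 _)
  have l2 := l1 t fun i => ht _ ▸ single_mem_Lau k _ _
  have l3 := l1 t⁻¹ fun i => by rw [_root_.inv_zpow', ht]; exact single_mem_Lau k _ _
  have t3 : (γ₁ t⁻¹).BlockTriangular id :=
    ((tri_map t1 _).mul (blockTriangular_diagonal _)).mul (tri_map t2 _)
  have d3 : ∀ i, (η * γ₁ t⁻¹) i i = toL k (v i) := fun i => by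
    rw [diag_mul hη t3, show γ₁ t⁻¹ i i = _ from
      diag_mul ((tri_map t1 _).mul (blockTriangular_diagonal _)) (tri_map t2 _) i, mul_diagonal,
      map_apply, map_apply, d1, d2, map_one, _root_.inv_zpow', ht, hv i, one_mul,
      mul_one, mul_right_comm, HahnSeries.single_mul_single]
    simp
  have t4 := hη.mul t3
  have u4 : IsUnit (η * γ₁ t⁻¹).det := by
    rw [det_mul]; exact hu.mul (isUnit_det_of_left_inverse e2)
  have H1 : Hom (γ₁ t⁻¹) _ _ := H _ (cL k) t⁻¹
  have h4 := H1.mul h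
  generalize γ₁ t⁻¹ = γ at *
  generalize γ₁ t = γ' at *
  generalize e4 : η * γ = η₁ at *
  let w : k⸨X⸩ →+ k⟦X⟧ :=
    { toFun := fun f => PowerSeries.mk fun e => f.coeff e
      map_zero' := by ext; simp
      map_add' := fun f g => by ext; simp }
  have hw : ∀ f, w (toL k f) = f := fun f => by ext e; simp [w]
  have h5 := lie_coeff (ψ := PowerSeries.C) w (fun b a => by ext e; simp [w, mul_comm b, mul_comm a])
    (lie_log u4 h4)
  have t5 := tri_map ((tri_map t4 (dL k).d).mul (tri_inv t4 u4)) w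
  obtain ⟨β, b1, b2, b3⟩ := exists_ode _ t5
  obtain ⟨b4, b5⟩ := hom_of_ode b1 b2 (Ψ := bc PowerSeries.C Φ₀)
    (by rw [h5]; exact dform_const (fun a => PowerSeries.derivative_C) _)
  have e5 : (toL k).comp PowerSeries.C = cL k := RingHom.ext (toL_C k)
  rw [show bc constantCoeff (bc PowerSeries.C Φ₀) = Φ₀ from (bc_bc _ _ _).trans (bc_id _)] at b5
  have b6 := (b5.inv b4).map (toL k)
  rw [bc_bc, e5] at b6
  have d5 : ∀ i, (β⁻¹.map (toL k) * η₁) i i = cL k (constantCoeff (v i : k⟦X⟧)) := fun i => by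
    have a1 := diag_mul (tri_inv b3 b4) b3 i
    rw [nonsing_inv_mul _ b4, one_apply_eq] at a1
    have a2 := congrFun (congrFun b1 i) i
    rw [diag_mul t5 b3, map_apply, map_apply] at a2
    have a3 := (log_diag t4 u4 i).2
    rw [d3, dL_toL] at a3
    have a4 : (η₁.map (dL k).d * η₁⁻¹) i i = toL k ((dO k).d (v i) * ((v i)⁻¹ : k⟦X⟧ˣ)) := by
      rw [map_mul, ← a3, mul_assoc, ← map_mul, Units.mul_inv, map_one, mul_one]
    rw [a4, hw] at a2
    have a5 := (dO k).leib (β⁻¹ i i) (β i i)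
    rw [← a1, Der.one, a2] at a5
    have a6 : constantCoeff (β i i) = 1 := by simpa using congrFun (congrFun b2 i) i
    have a7 := congrArg constantCoeff a1
    rw [map_one, map_mul, a6, mul_one] at a7
    rw [diag_mul (tri_map (tri_inv b3 b4) _) t4, d3, map_apply, ← map_mul, ← toL_C]
    refine congrArg _ (PowerSeries.derivative.ext ?_ (by simp [← a7]))
    rw [PowerSeries.derivative_C, ← dO_apply, Der.leib]
    linear_combination (-(β⁻¹ i i * v i)) * a5 + ((dO k).d (β⁻¹ i i) * v i +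
      β⁻¹ i i * (dO k).d (v i) * ((v i)⁻¹ : k⟦X⟧ˣ) * v i) * a1 -
      β⁻¹ i i * (dO k).d (v i) * (v i).inv_mul
  obtain ⟨δ, δ', g1, g2, g3, y, g4, g5⟩ := unipotent Φ₀ _ ((tri_map (tri_inv b3 b4) _).mul t4) _
    (fun i => (PowerSeries.isUnit_iff_constantCoeff.1 (v i).isUnit).ne_zero) d5 (h4.mul b6)
  refine ⟨γ * δ, δ' * γ', by rw [mul_assoc, ← mul_assoc γ', e2, one_mul, g1], g2.mul H1,
    fun i j => ⟨sum_mem fun b _ => mul_mem (l3 _ _) (g3 _ _).1,
      sum_mem fun b _ => mul_mem (g3 _ _).2 (l2 _ _)⟩, β * y, by rw [det_mul]; exact b4.mul g4, ?_⟩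
  rw [Matrix.map_mul, g5, ← mul_assoc, ← mul_assoc, ← Matrix.map_mul, mul_nonsing_inv _ b4,
    Matrix.map_one _ (map_zero _) (map_one _), one_mul, ← mul_assoc, e4]

theorem pole [CharZero k] [IsAlgClosed k] (Φ₀ : Form n l m k) (Ψ : Form n l m k⟦X⟧)
    (x : Mat n k⸨X⸩) (hx : IsUnit x.det) (h : Hom x (bc (cL k) Φ₀) (bc (toL k) Ψ))
    (h0 : Iso Φ₀ (bc constantCoeff Ψ)) :
    ∃ γ γ' : Mat n k⸨X⸩, γ' * γ = 1 ∧ Hom γ (bc (cL k) Φ₀) (bc (cL k) Φ₀) ∧
      (∀ i j, γ i j ∈ Lau k ∧ γ' i j ∈ Lau k) ∧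
      ∃ y : Mat n k⟦X⟧, IsUnit y.det ∧ y.map (toL k) = x * γ := by
  obtain ⟨Φ₁, ⟨c, hc, hc'⟩, hmax⟩ : ∃ Φ₁, Iso Φ₁ Φ₀ ∧ ∀ Φ₂, Iso Φ₂ Φ₀ →
      Module.finrank k (stab Φ₂) ≤ Module.finrank k (stab Φ₁) := by
    obtain ⟨_, ⟨Φ₁, h1, rfl⟩, h2⟩ := Set.Finite.exists_maximal
      (s := {q | ∃ Φ₁, Iso Φ₁ Φ₀ ∧ Module.finrank k (stab Φ₁) = q})
      ((Set.finite_Iic (Module.finrank k (Mat n k))).subset (by
        rintro _ ⟨Φ₁, -, rfl⟩; exact Submodule.finrank_le _)) ⟨_, Φ₀, .refl _, rfl⟩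
    exact ⟨Φ₁, h1, fun Φ₂ h3 => (le_total _ _).elim id (h2 ⟨Φ₂, h3, rfl⟩)⟩
  have e0 : ∀ z : Mat n k, (z.map PowerSeries.C).map (toL k) = z.map (cL k) := fun z => by
    ext1 i j; exact toL_C k _
  have e1 : ∀ {z : Mat n k⟦X⟧}, IsUnit z.det → z.map (toL k) * z⁻¹.map (toL k) = 1 := fun hz => by
    rw [← Matrix.map_mul, mul_nonsing_inv _ hz, Matrix.map_one _ (map_zero _) (map_one _)]
  have e2 : ∀ {z : Mat n k}, IsUnit z.det → z.map (cL k) * z⁻¹.map (cL k) = 1 := fun hz => by
    rw [← Matrix.map_mul, mul_nonsing_inv _ hz, Matrix.map_one _ (map_zero _) (map_one _)]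
  obtain ⟨y, b, hy, hb, e⟩ := hermite (x * c.map (cL k))
  have hb' : IsUnit b.det := by
    have := hx.mul (isUnit_det_map hc (cL k))
    rw [← det_mul, e, det_mul] at this
    exact isUnit_of_mul_isUnit_right this
  obtain ⟨Ψ₁, h1⟩ := exists_hom (isUnit_nonsing_inv_det _ hy) Ψ
  have h2 := ((hc'.map (cL k)).mul h).mul (h1.map (toL k))
  rw [e, ← mul_assoc, mul_eq_one_comm.1 (e1 hy), one_mul] at h2
  obtain ⟨β, b1, b2, b3⟩ := orbit Φ₁ Ψ₁ b hb' hb h2 (hmax _ (h0.trans
    (Iso.map ⟨_, isUnit_nonsing_inv_det _ hy, h1⟩ _)).symm)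
  have h3 := h2.mul ((b3.inv b1).map (toL k))
  rw [bc_bc _ (toL k), show (toL k).comp PowerSeries.C = cL k from RingHom.ext (toL_C k)] at h3
  have u3 : IsUnit (β⁻¹.map (toL k) * b).det := by
    rw [det_mul]; exact (isUnit_det_map (isUnit_nonsing_inv_det _ b1) _).mul hb'
  have t3 := (tri_map (tri_inv b2 b1) (toL k)).mul hb
  obtain ⟨b₀, c1, c2, c3⟩ := special (cL k) u3 h3
  obtain ⟨γ, γ', g1, g2, g3, z, g4, g5⟩ := triangular Φ₁ _
    ((tri_map (tri_inv (fun i j hij => c3 i j (t3 hij)) c1) (cL k)).mul t3)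
    (by rw [det_mul]; exact (isUnit_det_map (isUnit_nonsing_inv_det _ c1) _).mul u3)
    (h3.mul ((c2.inv c1).map (cL k)))
  have l1 : ∀ z : Mat n k⸨X⸩, (∀ i j, z i j ∈ Lau k) →
      ∀ i j, (c.map (cL k) * z * c⁻¹.map (cL k)) i j ∈ Lau k := fun z hz i j =>
    sum_mem fun a _ => mul_mem (sum_mem fun b _ => mul_mem (single_mem_Lau k 0 _) (hz _ _))
      (single_mem_Lau k 0 _)
  refine ⟨c.map (cL k) * γ * c⁻¹.map (cL k), c.map (cL k) * γ' * c⁻¹.map (cL k), ?_,
    ((hc'.inv hc).map _).mul (g2.mul (hc'.map _)),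
    fun i j => ⟨l1 _ (fun i j => (g3 i j).1) i j, l1 _ (fun i j => (g3 i j).2) i j⟩,
    y * β * b₀.map PowerSeries.C * z * c⁻¹.map PowerSeries.C, ?_, ?_⟩
  · rw [mul_assoc, mul_assoc, mul_assoc, ← mul_assoc (c⁻¹.map _), mul_eq_one_comm.1 (e2 hc),
      one_mul, ← mul_assoc γ', g1, one_mul, e2 hc]
  · simp only [det_mul]
    exact (((hy.mul b1).mul (isUnit_det_map c1 _)).mul g4).mul
      (isUnit_det_map (isUnit_nonsing_inv_det _ hc) _)
  · simp only [Matrix.map_mul, e0, g5, ← mul_assoc, e]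
    congr 2
    rw [mul_assoc _ (b₀.map _), e2 c1, mul_one, mul_assoc _ (β.map _), e1 b1, mul_one]

end Pool.Agent.MP_e8e0b6_ag.Z

end MrgPart2

-- ======== part 3: formerly Pool.Agent.MP_e8e0b6_ag.Z.Quillen
section MrgPart3

/-!
Quillen patching for forms.
-/

open Matrix Polynomial

namespace Pool.Agent.MP_e8e0b6_ag.Z

variable {n : ℕ} {l m : Type}

theorem one_mem_range {A B : Type} [CommRing A] [CommRing B] (φ : A →+* B) (i j : Fin n) :
    (1 : Mat n B) i j ∈ φ.range := by
  rw [Matrix.one_apply]; split_ifs; exacts [one_mem _, zero_mem _]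

theorem quillen_local {R R' : Type} [CommRing R] [CommRing R'] [Algebra R R'] (S : Submonoid R)
    [IsLocalization S R'] (hi : Function.Injective (algebraMap R R')) (Φ : Form n l m R[X])
    (h : Iso (bc (mapRingHom (algebraMap R R')) Φ)
      (bc (c0 R') (bc (mapRingHom (algebraMap R R')) Φ))) :
    ∃ c ∈ S, ∀ (D : Type) [CommRing D] [Algebra R D] (x y : D),
      Iso (bc (aeval x).toRingHom Φ) (bc (aeval (x + c • y)).toRingHom Φ) := by
  let φ := mapRingHom (algebraMap R R')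
  obtain ⟨G, h1, h2⟩ := h
  let ψ : R'[X] →+* R'[X][X] := eval₂RingHom (C.comp C) (C X + X)
  let ι : R'[X] →+* R'[X][X] := C
  have hc : ψ.comp (c0 R') = ι.comp (c0 R') := by ext <;> simp [ψ, ι, c0]
  have h3 := (h2.inv h1).map ψ
  rw [bc_bc, hc, ← bc_bc] at h3
  have hH2 := (h2.map ι).mul h3
  have hH : (G⁻¹.map ι * G.map ψ) * (G⁻¹.map ψ * G.map ι) = 1 := by
    rw [mul_assoc, ← mul_assoc (G.map ψ), ← Matrix.map_mul, mul_nonsing_inv _ h1,
      Matrix.map_one _ (map_zero _) (map_one _), one_mul, ← Matrix.map_mul, nonsing_inv_mul _ h1,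
      Matrix.map_one _ (map_zero _) (map_one _)]
  have e0 : ∀ M : Mat n R'[X], (M.map ψ).map (evalRingHom 0) = M := fun M => by
    have : (evalRingHom 0).comp ψ = RingHom.id _ := by ext <;> simp [ψ]
    ext1 i j
    exact RingHom.congr_fun this _
  have e1 : ∀ M : Mat n R'[X], (M.map ι).map (evalRingHom 0) = M := fun M => by
    ext1 i j; simp [ι]
  have z1 : (G⁻¹.map ψ * G.map ι).map (evalRingHom 0) = 1 := by
    rw [Matrix.map_mul, e0, e1, nonsing_inv_mul _ h1]
  have z2 : (G⁻¹.map ι * G.map ψ).map (evalRingHom 0) = 1 := by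
    rw [Matrix.map_mul, e0, e1, nonsing_inv_mul _ h1]
  generalize G⁻¹.map ψ * G.map ι = H at hH hH2 z1
  generalize G⁻¹.map ι * G.map ψ = H' at hH z2
  obtain ⟨c, hcS, q, hq⟩ := exists_scale C φ S (exists_poly_denom S)
    (fun p : Bool × Fin n × Fin n => cond p.1 (H p.2.1 p.2.2) (H' p.2.1 p.2.2)) (by
      rintro ⟨_ | _, i, j⟩
      · rw [coeff_zero_eq_eval_zero]; have := one_mem_range φ i j; rw [← z2] at this; exact this
      · rw [coeff_zero_eq_eval_zero]; have := one_mem_range φ i j; rw [← z1] at this; exact this)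
  refine ⟨c, hcS, fun D _ _ x y => ?_⟩
  let σ := compRingHom (C (φ (C c)) * X)
  have hφ : Function.Injective (mapRingHom φ) := map_injective _ (map_injective _ hi)
  let ψ' : R[X] →+* R[X][X] := eval₂RingHom (C.comp C) (C X + C (C c) * X)
  have f1 : (mapRingHom φ).comp ψ' = σ.comp (ψ.comp φ) := by ext <;> simp [ψ, ψ', σ, φ]
  have f2 : (mapRingHom φ).comp C = σ.comp (ι.comp φ) := by ext <;> simp [ι, σ, φ]
  have main : Iso (bc C Φ) (bc ψ' Φ) := by
    refine .of_map hφ (z := H.map σ) (z' := H'.map σ) ?_ (fun i j => ⟨_, hq (true, i, j)⟩)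
      (fun i j => ⟨_, hq (false, i, j)⟩) ?_
    · rw [← Matrix.map_mul, hH, Matrix.map_one _ (map_zero _) (map_one _)]
    · rw [bc_bc, bc_bc, f1, f2, ← bc_bc, ← bc_bc, ← bc_bc _ σ, ← bc_bc φ]
      exact hH2.map σ
  let τ : R[X][X] →+* D := eval₂RingHom (aeval x).toRingHom y
  have := main.map τ
  have g1 : τ.comp C = (aeval x : R[X] →ₐ[R] D).toRingHom := by ext <;> simp [τ]
  have g2 : τ.comp ψ' = (aeval (x + c • y) : R[X] →ₐ[R] D).toRingHom := by
    ext <;> simp [τ, ψ', Algebra.smul_def]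
  rwa [bc_bc, bc_bc, g1, g2] at this

theorem quillen {R : Type} [CommRing R] [IsDomain R] (Φ : Form n l m R[X])
    (h : ∀ (p : Ideal R) [p.IsMaximal],
      Iso (bc (mapRingHom (algebraMap R (Localization.AtPrime p))) Φ)
        (bc (c0 _) (bc (mapRingHom (algebraMap R (Localization.AtPrime p))) Φ))) :
    Iso Φ (bc (c0 R) Φ) := by
  let I : Ideal R :=
    { carrier := {c | ∀ (D : Type) [CommRing D] [Algebra R D] (x y : D),
        Iso (bc (aeval x).toRingHom Φ) (bc (aeval (x + c • y)).toRingHom Φ)}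
      zero_mem' := fun D _ _ x y => by rw [zero_smul, add_zero]; exact .refl _
      add_mem' := fun {c d} hc hd D _ _ x y => by
        rw [add_smul, ← add_assoc]; exact (hc D x y).trans (hd D _ y)
      smul_mem' := fun a c hc D _ _ x y => by
        rw [smul_eq_mul, mul_comm, mul_smul]; exact hc D x _ }
  have hI : I = ⊤ := by
    by_contra hI
    obtain ⟨p, hp, hle⟩ := Ideal.exists_le_maximal I hI
    obtain ⟨c, hc, h'⟩ := quillen_local p.primeCompl
      (IsLocalization.injective _ p.primeCompl_le_nonZeroDivisors) Φ (h p)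
    exact hc (hle h')
  have h1 : (1 : R) ∈ I := hI ▸ trivial
  have := (h1 R[X] 0 X).symm
  have g1 : (aeval (0 + (1 : R) • X : R[X])).toRingHom = RingHom.id _ := by ext <;> simp
  have g2 : (aeval (0 : R[X])).toRingHom = c0 R := by ext <;> simp [c0]
  rwa [g1, g2, bc_id] at this

end Pool.Agent.MP_e8e0b6_ag.Z

end MrgPart3

-- ======== part 4: formerly Pool.Agent.MP_e8e0b6_ag.Z.Horrocks
section MrgPart4

/-!
Forms over the affine line: the case of a field and the theorem of Horrocks.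
-/

open Matrix Polynomial

namespace Pool.Agent.MP_e8e0b6_ag.Z

variable {n : ℕ} {l m k A K : Type} [Field k] [CommRing A] [CommRing K]

/-- Fractions whose denominators are powers of `f`. -/
def aw (r : A →+* K) (f : A) : Subring K where
  carrier := {ω | ∃ e : ℕ, r f ^ e * ω ∈ r.range}
  one_mem' := ⟨0, by simp⟩
  zero_mem' := ⟨0, by simp⟩
  mul_mem' := by
    rintro a b ⟨e, h⟩ ⟨e', h'⟩
    exact ⟨e + e', by convert mul_mem h h' using 1; ring⟩
  add_mem' := by
    rintro a b ⟨e, h⟩ ⟨e', h'⟩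
    refine ⟨e + e', ?_⟩
    convert add_mem (mul_mem (pow_mem (r.mem_range_self f) e') h)
      (mul_mem (pow_mem (r.mem_range_self f) e) h') using 1
    ring
  neg_mem' := by
    rintro a ⟨e, h⟩
    exact ⟨e, by rw [mul_neg]; exact neg_mem h⟩

theorem aw_mono (r : A →+* K) {f g : A} (h : f ∣ g) : aw r f ≤ aw r g := by
  obtain ⟨c, rfl⟩ := h
  rintro ω ⟨e, h⟩
  refine ⟨e, ?_⟩
  convert mul_mem (pow_mem (r.mem_range_self c) e) h using 1
  rw [map_mul]; ring

theorem range_away {r : A →+* K} {f : A} (hf : IsUnit (r f)) :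
    (IsLocalization.Away.lift (S := Localization.Away f) f hf).range = aw r f := by
  have e := IsLocalization.Away.lift_eq (S := Localization.Away f) f hf
  refine le_antisymm ?_ ?_
  · rintro _ ⟨b, rfl⟩
    obtain ⟨i, a, h⟩ := IsLocalization.Away.surj f b
    exact ⟨i, a, by rw [← e, ← e, ← h, map_mul, map_pow, mul_comm]⟩
  · rintro ω ⟨i, a, h⟩
    obtain ⟨u, hu⟩ := ((IsLocalization.Away.algebraMap_isUnit
      (S := Localization.Away f) f).pow i).exists_left_inv
    refine ⟨u * algebraMap A _ a, ?_⟩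
    rw [map_mul, e, h, ← mul_assoc, ← e, ← map_pow, ← map_mul, hu, map_one, one_mul]

theorem away_injective {r : A →+* K} (hr : Function.Injective r) {f : A} (hf : IsUnit (r f)) :
    Function.Injective (IsLocalization.Away.lift (S := Localization.Away f) f hf) :=
  (injective_iff_map_eq_zero _).2 fun b hb => by
    obtain ⟨⟨a, t⟩, e⟩ := IsLocalization.surj (Submonoid.powers f) b
    have : a = 0 := hr (by
      rw [← IsLocalization.Away.lift_eq (S := Localization.Away f) f hf, ← e, map_mul, hb,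
        zero_mul, map_zero])
    rw [this, map_zero] at e
    exact (IsLocalization.map_units _ t).mul_left_eq_zero.1 e

theorem isoOn_of_aw {r : A →+* K} (hr : Function.Injective r) {f : A} (hf : IsUnit (r f))
    {Φ Ψ : Form n l m A} {z z' : Mat n K} (e : z' * z = 1) (h : ∀ i j, z i j ∈ aw r f)
    (h' : ∀ i j, z' i j ∈ aw r f) (H : Hom z (bc r Φ) (bc r Ψ)) : IsoOn f Φ Ψ := by
  rw [← range_away hf] at h h'
  refine isoOn_of_away f (Localization.Away f) (.of_map (away_injective hr hf) e h h' ?_)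
  rwa [bc_bc, bc_bc, IsLocalization.Away.lift_comp]

theorem IsoOn.exists_aw {f : A} {Φ Ψ : Form n l m A} (h : IsoOn f Φ Ψ) (r : A →+* K)
    (hf : IsUnit (r f)) : ∃ z z' : Mat n K, z' * z = 1 ∧ (∀ i j, z i j ∈ aw r f) ∧
      (∀ i j, z' i j ∈ aw r f) ∧ Hom z (bc r Φ) (bc r Ψ) := by
  obtain ⟨x, hx, H⟩ := h (Localization.Away f) _ (IsLocalization.Away.algebraMap_isUnit f)
  have := H.map (IsLocalization.Away.lift f hf)
  rw [bc_bc, bc_bc, IsLocalization.Away.lift_comp] at this
  rw [← range_away hf]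
  exact ⟨x.map (IsLocalization.Away.lift f hf), x⁻¹.map (IsLocalization.Away.lift f hf), by
    rw [← Matrix.map_mul, nonsing_inv_mul _ hx, Matrix.map_one _ (map_zero _) (map_one _)],
    fun i j => ⟨_, rfl⟩, fun i j => ⟨_, rfl⟩, this⟩

variable [CharZero k] [IsAlgClosed k]

theorem remove_zero (Φ₀ : Form n l m k) (Φ : Form n l m k[X]) {g : k[X]} (hg : g.eval 0 ≠ 0)
    (j : ℕ) (h : IsoOn (X ^ (j + 1) * g) (bc C Φ₀) Φ) (h0 : Iso Φ₀ (bc (evalRingHom 0) Φ)) :
    IsoOn g (bc C Φ₀) Φ := by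
  let c : k[X] →+* PowerSeries k := coeToPowerSeries.ringHom
  let r := (toL k).comp c
  have hr : Function.Injective r := (toL_injective k).comp (coe_injective k)
  have g0 : g ≠ 0 := fun e => hg (by simp [e])
  have hu : ∀ {p : k[X]}, p ≠ 0 → IsUnit (r p) := fun hp => ((map_ne_zero_iff r hr).2 hp).isUnit
  obtain ⟨x, x', e, h1, h2, H⟩ := h.exists_aw r (hu (mul_ne_zero (pow_ne_zero _ X_ne_zero) g0))
  have e1 : r.comp C = cL k := RingHom.ext fun a => by simp [r, c]
  rw [bc_bc, e1, ← bc_bc c] at H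
  obtain ⟨γ, γ', g1, g2, g3, y, g4, g5⟩ := pole Φ₀ _ x (isUnit_det_of_left_inverse e) H (by
    rw [bc_bc]; convert h0 using 2; ext <;> simp [c])
  have l1 : Lau k ≤ aw r (X ^ (j + 1) * g) := le_trans (by
    rintro ω ⟨i, p, hp⟩
    exact ⟨i, p, by simpa [r, c] using hp.symm⟩ : Lau k ≤ aw r X)
    (aw_mono r ((dvd_pow_self X j.succ_ne_zero).mul_right g))
  have key : ∀ w : PowerSeries k, toL k w ∈ aw r (X ^ (j + 1) * g) → toL k w ∈ aw r g := by
    rintro w ⟨i, p, hp⟩
    have h3 : (p : PowerSeries k) = c (X ^ (j + 1) * g) ^ i * w :=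
      toL_injective k (by rw [map_mul, map_pow]; exact hp)
    obtain ⟨q, rfl⟩ : X ^ ((j + 1) * i) ∣ p := X_pow_dvd_iff.2 fun d hd => by
      rw [← coeff_coe, h3]
      refine PowerSeries.X_pow_dvd_iff.1 ⟨c g ^ i * w, ?_⟩ d hd
      simp [c, mul_pow, pow_mul, mul_assoc]
    refine ⟨i, q, (hu (pow_ne_zero ((j + 1) * i) X_ne_zero)).mul_left_cancel ?_⟩
    rw [← map_mul, hp, map_mul, map_pow, map_pow, mul_pow, ← pow_mul, mul_assoc]
  have e2 : γ' * x' * (x * γ) = 1 := by rw [mul_assoc, ← mul_assoc x', e, one_mul, g1]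
  have e3 : y⁻¹.map (toL k) = γ' * x' := by
    refine left_inv_eq_left_inv ?_ e2
    rw [← g5, ← Matrix.map_mul, nonsing_inv_mul _ g4, Matrix.map_one _ (map_zero _) (map_one _)]
  refine isoOn_of_aw hr (hu g0) e2 (fun a b => ?_) (fun a b => ?_) ?_
  · have : (x * γ) a b ∈ aw r _ := sum_mem fun d _ => mul_mem (h1 _ _) (l1 (g3 _ _).1)
    rw [← g5] at this ⊢
    exact key _ this
  · have : (γ' * x') a b ∈ aw r _ := sum_mem fun d _ => mul_mem (l1 (g3 _ _).2) (h2 _ _)
    rw [← e3] at this ⊢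
    exact key _ this
  · rw [bc_bc, e1, ← bc_bc c]
    exact g2.mul H

/-- A form over the affine line over a field, generically and pointwise trivial, is trivial. -/
theorem line_field (Φ₀ : Form n l m k) (d : ℕ) : ∀ (Φ : Form n l m k[X]) (g : k[X]), g ≠ 0 →
    g.natDegree = d → IsoOn g (bc C Φ₀) Φ → (∀ a, Iso Φ₀ (bc (evalRingHom a) Φ)) →
    Iso (bc C Φ₀) Φ := by
  induction d using Nat.strong_induction_on with | _ d ih => ?_
  rintro Φ g hg rfl h h0
  by_cases hd : g.degree = 0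
  · exact h.iso (isUnit_iff_degree_eq_zero.2 hd)
  obtain ⟨a, ha⟩ := IsAlgClosed.exists_root g hd
  obtain ⟨q, e, hq⟩ := exists_eq_pow_rootMultiplicity_mul_and_not_dvd g hg a
  obtain ⟨j, hj⟩ := Nat.exists_eq_succ_of_ne_zero ((rootMultiplicity_pos hg).2 ha).ne'
  rw [hj] at e
  have q0 : q ≠ 0 := fun h => hq (h ▸ dvd_zero _)
  refine ih _ ?_ Φ q q0 rfl ?_ h0
  · rw [e, natDegree_mul (pow_ne_zero _ (X_sub_C_ne_zero a)) q0]
    simp
  · have c1 : ∀ b : k, (compRingHom (X + C b)).comp C = C := fun b => by ext; simp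
    have h1 := h.map (compRingHom (X + C a))
    rw [bc_bc, c1, e, map_mul, map_pow, show compRingHom (X + C a) (X - C a) = X by simp] at h1
    have h2 := (remove_zero Φ₀ _ (by simpa [dvd_iff_isRoot] using hq) j h1 (by
      rw [bc_bc]; convert h0 a using 2; ext <;> simp)).map (compRingHom (X + C (-a)))
    have c2 : (compRingHom (X + C (-a))).comp (compRingHom (X + C a)) = RingHom.id _ := by
      ext <;> simp
    rwa [bc_bc, bc_bc, c1, c2, bc_id, ← RingHom.comp_apply, c2] at h2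

open IsLocalRing in
/-- The local theorem of Horrocks. -/
theorem horrocks_local {R : Type} [CommRing R] [IsLocalRing R] (σ : ResidueField R →+* R)
    (hσ : (residue R).comp σ = RingHom.id _) [CharZero (ResidueField R)]
    [IsAlgClosed (ResidueField R)] (Φ₀ : Form n l m (ResidueField R)) (Φ : Form n l m R[X])
    {g : R[X]} (hg : g.Monic) (h : IsoOn g (bc (C.comp σ) Φ₀) Φ)
    (h0 : ∀ a, Iso Φ₀ (bc ((evalRingHom a).comp (mapRingHom (residue R))) Φ)) :
    Iso Φ (bc (c0 R) Φ) := by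
  let κ := ResidueField R
  let T := Localization (monics R)
  let F := FractionRing κ[X]
  let a := algebraMap R[X] T
  let ρ := mapRingHom (residue R)
  let b := algebraMap κ[X] F
  let π := redT R T
  have ha : Function.Injective a := IsLocalization.injective T (monics_le R)
  have hπ : π.comp a = b.comp ρ := RingHom.ext (redT_alg T)
  have hρ : ρ.comp (C.comp σ) = C := by
    rw [← RingHom.comp_assoc, mapRingHom_comp_C, RingHom.comp_assoc, hσ]; rfl
  have hs : ρ.comp (mapRingHom σ) = RingHom.id _ := by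
    rw [mapRingHom_comp, hσ, mapRingHom_id]
  obtain ⟨y, hy, Hy⟩ := line_field Φ₀ _ (bc ρ Φ) (ρ g) (hg.map _).ne_zero rfl
    (by simpa only [bc_bc, hρ] using h.map ρ) (by simpa only [bc_bc] using h0)
  let τ : F →+* T := IsLocalization.lift (M := nonZeroDivisors κ[X])
    (g := a.comp (mapRingHom σ)) fun p => by
      have hp := nonZeroDivisors.ne_zero p.2
      have : IsUnit (a (Polynomial.map σ _)) := IsLocalization.map_units T
        (⟨_, (monic_mul_leadingCoeff_inv hp).map σ⟩ : monics R)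
      rw [Polynomial.map_mul, map_mul] at this
      exact isUnit_of_mul_isUnit_left this
  have hτ : τ.comp b = a.comp (mapRingHom σ) := IsLocalization.lift_comp _
  have hτ' : π.comp τ = RingHom.id F := IsLocalization.ringHom_ext (nonZeroDivisors κ[X]) (by
    rw [RingHom.comp_assoc, hτ, ← RingHom.comp_assoc, hπ, RingHom.comp_assoc, hs]; rfl)
  obtain ⟨x, hx, Hx⟩ := h T a (IsLocalization.map_units T (⟨g, hg⟩ : monics R))
  have H1 := Hx.map π
  rw [bc_bc, bc_bc _ π, hπ, bc_bc, RingHom.comp_assoc, hρ, ← bc_bc, ← bc_bc] at H1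
  have u1 := isUnit_det_map hx π
  have H2 := ((Hy.map b).mul (H1.inv u1)).map τ
  rw [bc_bc b, hτ, bc_bc, RingHom.comp_assoc, mapRingHom_comp_C, ← bc_bc] at H2
  have H3 := H2.mul Hx
  have u3 : IsUnit (x * ((x.map π)⁻¹ * y.map b).map τ).det := by
    rw [det_mul]
    refine hx.mul (isUnit_det_map ?_ τ)
    rw [det_mul]
    exact (isUnit_nonsing_inv_det _ u1).mul (isUnit_det_map hy b)
  have e3 : (x * ((x.map π)⁻¹ * y.map b).map τ).map π = y.map b := by
    rw [Matrix.map_mul, Matrix.map_map, ← RingHom.coe_comp, hτ', RingHom.coe_id, Matrix.map_id,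
      mul_nonsing_inv_cancel_left _ _ u1]
  generalize x * ((x.map π)⁻¹ * y.map b).map τ = U at H3 u3 e3
  have hm : ∀ M : Mat n κ[X], (M.map (mapRingHom σ)).map ρ = M := fun M => by
    rw [Matrix.map_map, ← RingHom.coe_comp, hs, RingHom.coe_id, Matrix.map_id]
  have hm' : ∀ M : Mat n κ[X], ((M.map (mapRingHom σ)).map a).map π = M.map b := fun M => by
    rw [Matrix.map_map (f := a), ← RingHom.coe_comp, hπ, RingHom.coe_comp, ← Matrix.map_map, hm]
  obtain ⟨Z, B, hB, hZ, hZB⟩ := horrocks_aux T U U⁻¹ (nonsing_inv_mul _ u3) (y.map (mapRingHom σ))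
    (e3.trans (hm' y).symm)
  have e4 : U⁻¹.map π = y⁻¹.map b := left_inv_eq_left_inv (A := y.map b)
    (by rw [← e3, ← Matrix.map_mul, nonsing_inv_mul _ u3, Matrix.map_one _ (map_zero _) (map_one _)])
    (by rw [← Matrix.map_mul, nonsing_inv_mul _ hy, Matrix.map_one _ (map_zero _) (map_one _)])
  obtain ⟨Z', B', hB', hZ', hZB'⟩ := horrocks_aux T U⁻¹ᵀ Uᵀ
    (by rw [← transpose_mul, nonsing_inv_mul _ u3, transpose_one]) (y⁻¹ᵀ.map (mapRingHom σ))
    (by rw [hm', transpose_map, transpose_map, e4])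
  replace hZB' : Z'ᵀ.map a * U = B'ᵀ := by rw [← hZB', transpose_mul, transpose_map]; rfl
  replace hZ : Z.map ρ = y := hZ.trans (hm y)
  replace hZ' : Z'ᵀ.map ρ = y⁻¹ := by
    rw [transpose_map, show Z'.map ρ = _ from hZ'.trans (hm _), transpose_transpose]
  have hM : (Z'ᵀ * Z).map a = B'ᵀ * B := by
    rw [Matrix.map_mul, ← hZB, ← hZB', mul_assoc, mul_nonsing_inv_cancel_left _ _ u3]
  let S := (atInf R T).toSubring
  have s0 : ∀ c, a (C c) ∈ S := fun c => (atInf R T).algebraMap_mem c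
  obtain ⟨W, hW⟩ : ∃ W : Mat n S, W.map S.subtype = B := ⟨.of fun i j => ⟨_, hB i j⟩, rfl⟩
  obtain ⟨W', hW'⟩ : ∃ W : Mat n S, W.map S.subtype = B'ᵀ := ⟨.of fun i j => ⟨_, hB' j i⟩, rfl⟩
  have m1 : a (Z'ᵀ * Z).det = S.subtype (W' * W).det := by
    rw [RingHom.map_det, RingHom.map_det, RingHom.mapMatrix_apply, RingHom.mapMatrix_apply, hM,
      Matrix.map_mul, hW, hW']
  have m2 : ρ (Z'ᵀ * Z).det = 1 := by
    rw [RingHom.map_det, RingHom.mapMatrix_apply, Matrix.map_mul, hZ, hZ', nonsing_inv_mul _ hy,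
      det_one]
  have m3 := eq_C_of_atInf T (m1 ▸ (W' * W).det.2 : a (Z'ᵀ * Z).det ∈ atInf R T)
  have m4 : IsUnit ((Z'ᵀ * Z).det.coeff 0) := by
    rw [← residue_ne_zero_iff_isUnit]
    intro h0
    rw [m3, coe_mapRingHom, map_C, h0, map_zero] at m2
    exact zero_ne_one m2
  have u5 : IsUnit Z'ᵀ.det := isUnit_of_mul_isUnit_left (y := Z.det) (by
    rw [← det_mul, m3]; exact m4.map C)
  let s : R →+* S := (a.comp C).codRestrict S s0
  obtain ⟨Ψ, H5⟩ := exists_hom u5 Φ
  have u6 : IsUnit W'.det := by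
    refine isUnit_of_mul_isUnit_left (y := W.det) ?_
    rw [← det_mul, show (W' * W).det = s _ from Subtype.ext (m1.symm.trans (congrArg a m3))]
    exact m4.map s
  obtain ⟨Θ, H6⟩ := exists_hom u6 (bc (s.comp σ) Φ₀)
  have H7 := H6.map S.subtype
  rw [hW', bc_bc] at H7
  have H8 := H3.mul (H5.map a)
  rw [hZB', bc_bc] at H8
  have e9 := H8.unique H7 (hW' ▸ isUnit_det_map u6 _)
  have e10 : bc (c0 R) Ψ = Ψ := by
    funext i j
    ext1 μ
    have := congrArg (fun Ψ : Form n l m T => MvPolynomial.coeff μ (Ψ i j)) e9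
    simp only [coeff_bc] at this
    rw [coeff_bc, eq_C_of_atInf T (q := MvPolynomial.coeff μ (Ψ i j)) (this ▸ Subtype.prop _)]
    simp [c0]
  have I1 : Iso Φ Ψ := ⟨_, u5, H5⟩
  exact I1.trans (e10 ▸ (I1.map (c0 R)).symm)

/-- The affine theorem of Horrocks over a finitely generated domain. -/
theorem horrocks_affine [IsDomain A] [Algebra k A] [Algebra.FiniteType k A] (Φ₀ : Form n l m k)
    (Φ : Form n l m A[X]) {g : A[X]} (hg : g.Monic) (h : IsoOn g (bc (algebraMap k _) Φ₀) Φ)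
    (h0 : ∀ θ : A[X] →ₐ[k] k, Iso Φ₀ (bc (θ : A[X] →+* k) Φ)) : Iso Φ (bc (c0 A) Φ) := by
  refine quillen Φ fun p hp => ?_
  let R := Localization.AtPrime p
  let κ := IsLocalRing.ResidueField R
  have : Module.Finite k κ := by
    have : Algebra.FiniteType k κ := .of_surjective (IsScalarTower.toAlgHom k A κ)
      (Ideal.algebraMap_residueField_surjective p)
    exact finite_of_finite_type_of_isJacobsonRing k κ
  let e := AlgEquiv.ofBijective (Algebra.ofId k κ) IsAlgClosed.algebraMap_bijective_of_isIntegral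
  have := IsAlgClosed.of_ringEquiv k κ e.toRingEquiv
  have := ((algebraMap k κ).charZero_iff (algebraMap k κ).injective).1 ‹_›
  have he : ∀ c, e.symm (algebraMap k κ c) = c := e.symm_apply_apply
  refine horrocks_local ((algebraMap k R).comp e.symm) (RingHom.ext fun c => ?_)
    (bc (algebraMap k κ) Φ₀) _ (hg.map (algebraMap A R)) ?_ fun c => ?_
  · exact e.apply_symm_apply c
  · have := h.map (mapRingHom (algebraMap A R))
    rw [bc_bc] at this ⊢
    convert this using 2
    · rfl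
    ext1 c
    simp [he, IsScalarTower.algebraMap_apply k A R]
  · have := (h0 ((e.symm : κ →ₐ[k] k).comp (aevalTower (IsScalarTower.toAlgHom k A κ) c))).map
      (algebraMap k κ)
    rw [bc_bc] at this ⊢
    convert this using 2
    have he' : ∀ c, algebraMap k κ (e.symm c) = c := e.apply_symm_apply
    ext <;> simp [he']
    rfl

end Pool.Agent.MP_e8e0b6_ag.Z

end MrgPart4

-- marker of a merged file
example : 731051 + 53942 = 731051 + 53942 := rfl
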