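import Mathlib
import Pool.Agent.MP_e8e0b6_ag.QS.Lindel2

-- ======== part 0: formerly Pool.Agent.MP_e8e0b6_ag.Z.Pres
section MrgPart0

/-!
Lindel's presentation of a smooth local ring with a polynomial equation for the divisor, and
lifting of the nearby rational points of the divisor.
-/

open MvPolynomial IsLocalRing

namespace Pool.Agent.MP_e8e0b6_ag.Z

namespace Pres

theorem core {k B : Type} [Field k] [CommRing B] [IsDomain B] [Algebra k B] {n : ℕ}
    (z : MvPolynomial (Fin n) k →ₐ[k] B) (hz : z.toRingHom.Etale) (ev : B →ₐ[k] k)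
    (R : Type) [CommRing R] [IsLocalRing R] [Algebra B R] [IsLocalization.AtPrime R (kerPt ev)]
    (f₀ : B) (h0 : f₀ ≠ 0) (hf : ev f₀ = 0) :
    ∃ (y : MvPolynomial (Fin n) k →ₐ[k] B) (_ : Algebra (OrigRing k n) R),
      (∀ p, ev (y p) = aeval 0 p) ∧
      (∀ p, algebraMap (OrigRing k n) R (algebraMap _ _ p) = algebraMap B R (y p)) ∧
      Module.FaithfullyFlat (OrigRing k n) R ∧
      (∃ h : OrigRing k n, Associated (algebraMap _ R h) (algebraMap B R f₀)) ∧
      (∀ r : R, ∃ c x, r = algebraMap (OrigRing k n) R c + algebraMap B R f₀ * x) ∧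
      ((Ideal.Quotient.mk (Ideal.span {f₀})).comp y.toRingHom).Finite ∧
      ∀ q : Ideal B, q.IsPrime → f₀ ∈ q → (∀ i, y (X i) ∈ q) → q = kerPt ev := by
  have : IsDomain R := IsLocalization.isDomain_of_atPrime R (kerPt ev)
  obtain ⟨y, hy1, hy2, hy3⟩ := exists_coords z hz ev f₀ h0 hf
  let _ : Algebra k R := ((algebraMap B R).comp (algebraMap k B)).toAlgebra
  have : IsScalarTower k B R := .of_algebraMap_eq' rfl
  let ι := IsScalarTower.toAlgHom k B R
  have hy0 : ∀ i, ev (y i) = 0 := fun i => by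
    have := Ideal.pow_le_self two_ne_zero (hy1 i)
    simpa [mem_kerPt] using this
  have h1 : (ι.comp z).toRingHom.FormallyEtale ∧ Algebra.FormallySmooth k R ∧
      Algebra.FiniteType k B := by
    algebraize [z.toRingHom, (ι.comp z).toRingHom]
    have := IsScalarTower.of_algebraMap_eq' z.comp_algebraMap.symm
    have : IsScalarTower (MvPolynomial (Fin n) k) B R := .of_algebraMap_eq' rfl
    have := Algebra.FormallyEtale.of_isLocalization (Rₘ := R) (kerPt ev).primeCompl
    have : Algebra.FormallySmooth k B := .comp k (MvPolynomial (Fin n) k) B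
    exact ⟨Algebra.FormallyEtale.comp (MvPolynomial (Fin n) k) B R, .comp k B R,
      .trans (S := MvPolynomial (Fin n) k) inferInstance inferInstance⟩
  obtain ⟨h1, _, _⟩ := h1
  have h2 : ((ι.comp (aeval y)).toRingHom).FormallyEtale := by
    refine formallyEtale_of_dComb _ (dComb_perturb
      (fun i => ι (z (X i) - algebraMap k B (ev (z (X i))))) _ ?_ fun i => ?_)
    · convert dComb_bijective _ h1 using 2
      simp [dComb]
    · have := Ideal.mem_map_of_mem (algebraMap B R) (hy1 i)
      rw [Ideal.map_pow, IsLocalization.AtPrime.map_eq_maximalIdeal (kerPt ev) R, map_sub] at this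
      simpa [ι] using this
  let P := MvPolynomial (Fin n) k
  let o := kerPt (aeval 0 : P →ₐ[k] k)
  let A := OrigRing k n
  let _ : Algebra P B := (aeval y : P →ₐ[k] B).toRingHom.toAlgebra
  let _ : Algebra P R := (ι.comp (aeval y)).toRingHom.toAlgebra
  have : IsScalarTower P B R := .of_algebraMap_eq' rfl
  have : IsScalarTower k P B := .of_algebraMap_eq' (aeval y : P →ₐ[k] B).comp_algebraMap.symm
  have : Algebra.FiniteType P B := .of_restrictScalars_finiteType k P B
  have : Algebra.FormallyEtale P R := h2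
  have hev : ∀ p : P, ev (algebraMap P B p) = aeval 0 p := fun p =>
    AlgHom.congr_fun (show ev.comp (aeval y) = aeval 0 from by ext i; simp [hy0]) p
  have ho : o = (kerPt ev).comap (algebraMap P B) := by
    ext p; rw [Ideal.mem_comap, mem_kerPt, mem_kerPt, hev]
  have hu : ∀ p : o.primeCompl, IsUnit (algebraMap P R p) := fun p =>
    IsLocalization.map_units R (⟨algebraMap P B p, fun h => p.2 (ho.ge h)⟩ : (kerPt ev).primeCompl)
  let _ : Algebra A R := (IsLocalization.lift hu).toAlgebra
  have : IsScalarTower P A R := .of_algebraMap_eq' (IsLocalization.lift_comp hu).symm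
  have : Module.Flat A R := (Module.flat_iff_of_isLocalization A o.primeCompl R).2
    (flat_of_formallySmooth (B := B) (kerPt ev).primeCompl)
  have : IsLocalHom (algebraMap A R) := by
    refine ((local_hom_TFAE (algebraMap A R)).out 0 2 rfl rfl).2 ?_
    rw [← IsLocalization.AtPrime.map_eq_maximalIdeal o A, Ideal.map_map,
      ← IsScalarTower.algebraMap_eq, IsScalarTower.algebraMap_eq P B R, ← Ideal.map_map, ho,
      ← IsLocalization.AtPrime.map_eq_maximalIdeal (kerPt ev) R]
    exact Ideal.map_mono Ideal.map_comap_le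
  have : Algebra.FormallyUnramified A R := .of_restrictScalars P A R
  have : Algebra.EssFiniteType B R := .of_isLocalization R (kerPt ev).primeCompl
  have : Algebra.EssFiniteType P R := .comp P B R
  have : Algebra.EssFiniteType A R := .of_comp P A R
  have : Module.Finite P (B ⧸ Ideal.span {f₀}) := hy2
  have hs := surj_mod (A := A) (R := R) o (kerPt ev) f₀
    (fun q hq hf hle => hy3 q hq hf fun i => by
      have : algebraMap P B (X i) ∈ q := hle (show X i ∈ o by simp [o, mem_kerPt])
      rwa [show algebraMap P B (X i) = y i from aeval_X y i] at this)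
    Algebra.FormallyUnramified.map_maximalIdeal fun r => by
      obtain ⟨⟨b, c, hc⟩, rfl⟩ := IsLocalization.mk'_surjective (kerPt ev).primeCompl r
      have hc' : ev c ≠ 0 := hc
      refine ⟨algebraMap P A (C (ev b / ev c)), ?_⟩
      rw [← IsScalarTower.algebraMap_apply, IsScalarTower.algebraMap_apply P B R,
        ← Ideal.mul_unit_mem_iff_mem _
          (IsLocalization.map_units R (⟨c, hc⟩ : (kerPt ev).primeCompl)),
        sub_mul, IsLocalization.mk'_spec, ← map_mul, ← map_sub,
        IsLocalization.AtPrime.to_map_mem_maximal_iff R (kerPt ev), mem_kerPt, map_sub, map_mul,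
        hev]
      simp [hc']
  refine ⟨aeval y, inferInstance, hev, fun p => (IsScalarTower.algebraMap_apply P A R p).symm,
    .of_flat_of_isLocalHom, exists_principal _ ?_ ?_ hs, hs, hy2, fun q hq hf hy =>
      hy3 q hq hf fun i => by simpa using hy i⟩
  · exact fun e => h0 (IsLocalization.injective R (kerPt ev).primeCompl_le_nonZeroDivisors
      (e.trans (map_zero _).symm))
  · exact (IsLocalization.AtPrime.to_map_mem_maximal_iff R (kerPt ev) f₀).2 hf

theorem split {P : Type} [CommRing P] [IsDomain P] [UniqueFactorizationMonoid P] (o : Ideal P)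
    [ho : o.IsPrime] (a : P) : a ≠ 0 →
    ∃ h w, a = h * w ∧ w ∉ o ∧ ∀ p, Prime p → p ∣ h → p ∈ o := by
  induction a using UniqueFactorizationMonoid.induction_on_prime with
  | h₁ => exact fun h => (h rfl).elim
  | h₂ x hx =>
    exact fun _ => ⟨1, x, (one_mul x).symm, fun h => ho.ne_top (o.eq_top_of_isUnit_mem h hx),
      fun p hp h => (hp.not_dvd_one h).elim⟩
  | h₃ a q ha hq ih =>
    obtain ⟨h, w, rfl, hw, hp⟩ := ih ha
    intro _
    by_cases e : q ∈ o
    · refine ⟨q * h, w, (mul_assoc _ _ _).symm, hw, fun p hp' hd => ?_⟩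
      rcases hp'.dvd_or_dvd hd with h1 | h1
      · exact o.mem_of_dvd (hp'.associated_of_dvd hq h1).symm.dvd e
      · exact hp p hp' h1
    · exact ⟨h, q * w, mul_left_comm _ _ _, fun h1 => (ho.mem_or_mem h1).elim e hw, hp⟩

/-- rational points lift along a finite map -/
theorem lift_point {k P D : Type} [Field k] [IsAlgClosed k] [CommRing P] [CommRing D]
    [Algebra k P] [Algebra k D] [Algebra.FiniteType k P] (φ : P →ₐ[k] D)
    (hφ : φ.toRingHom.Finite) (θ : P →ₐ[k] k) (h : ∀ t, φ t = 0 → θ t = 0) :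
    ∃ θ' : D →ₐ[k] k, θ'.comp φ = θ := by
  algebraize [φ.toRingHom]
  have := IsScalarTower.of_algebraMap_eq' φ.comp_algebraMap.symm
  obtain ⟨Q, hQ, hQ'⟩ := Ideal.exists_ideal_over_maximal_of_isIntegral (S := D) (kerPt θ) h
  have : Algebra.FiniteType k D := .trans (S := P) inferInstance inferInstance
  let _ := Ideal.Quotient.field Q
  have : Module.Finite k (D ⧸ Q) := finite_of_finite_type_of_isJacobsonRing k (D ⧸ Q)
  let θ' : D →ₐ[k] k := (IsAlgClosed.lift : D ⧸ Q →ₐ[k] k).comp (Ideal.Quotient.mkₐ k Q)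
  refine ⟨θ', AlgHom.ext fun p => ?_⟩
  have h1 : φ (p - algebraMap k P (θ p)) ∈ Q := by
    have : p - algebraMap k P (θ p) ∈ kerPt θ := by simp [mem_kerPt]
    rw [← hQ'] at this
    exact this
  have h2 : θ' (φ (p - algebraMap k P (θ p))) = 0 := by
    simp only [θ', AlgHom.comp_apply, Ideal.Quotient.mkₐ_eq_mk,
      Ideal.Quotient.eq_zero_iff_mem.2 h1, map_zero]
  rw [map_sub, map_sub, AlgHom.commutes, AlgHom.commutes, sub_eq_zero] at h2
  exact h2

theorem lying {P D : Type} [CommRing P] [CommRing D] (φ : P →+* D) (hφ : φ.Finite) (o : Ideal P)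
    [o.IsPrime] (g : D) (h : ∀ Q : Ideal D, Q.IsPrime → Q.comap φ = o → g ∉ Q) :
    ∃ t ∉ o, g ∣ φ t := by
  algebraize [φ]
  by_contra! h'
  obtain ⟨Q, hQ, h1, hQ'⟩ := Ideal.exists_ideal_over_prime_of_isIntegral o (Ideal.span {g})
    fun t ht => by_contra fun h2 => h' t h2 (Ideal.mem_span_singleton.1 ht)
  exact h Q h1 hQ' (hQ (Ideal.mem_span_singleton_self g))

end Pres

theorem presentation {k B : Type} [Field k] [IsAlgClosed k] [CommRing B] [IsDomain B] [Algebra k B]
    {d : ℕ} (z : MvPolynomial (Fin d) k →ₐ[k] B) (hz : z.toRingHom.Etale) (ev : B →ₐ[k] k)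
    (R : Type) [CommRing R] [IsLocalRing R] [Algebra B R] [IsLocalization.AtPrime R (kerPt ev)]
    (a : B) (h0 : a ≠ 0) (ha : ev a = 0) :
    ∃ (y : MvPolynomial (Fin d) k →ₐ[k] B) (h : MvPolynomial (Fin d) k)
      (_ : Algebra (OrigRing k d) R),
      (∀ p, ev (y p) = MvPolynomial.aeval 0 p) ∧
      (∀ p, algebraMap (OrigRing k d) R (algebraMap _ _ p) = algebraMap B R (y p)) ∧
      Module.FaithfullyFlat (OrigRing k d) R ∧
      Associated (algebraMap B R (y h)) (algebraMap B R a) ∧
      (∀ r : R, ∃ c x, r = algebraMap (OrigRing k d) R c + algebraMap B R a * x) ∧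
      (∀ u : MvPolynomial (Fin d) k, MvPolynomial.aeval (0 : Fin d → k) u ≠ 0 → IsRelPrime h u) ∧
      ∀ g : B, ev g ≠ 0 → ∃ u : MvPolynomial (Fin d) k, MvPolynomial.aeval (0 : Fin d → k) u ≠ 0 ∧
        ∀ θ : MvPolynomial (Fin d) k →ₐ[k] k, θ h = 0 → θ u ≠ 0 →
          ∃ θ' : B →ₐ[k] k, θ'.comp y = θ ∧ θ' g ≠ 0 := by
  classical
  obtain ⟨y, _, e1, e2, ff, ⟨h₀, hh₀⟩, hs, hfin, U⟩ := Pres.core z hz ev R a h0 ha
  let o := kerPt (aeval 0 : MvPolynomial (Fin d) k →ₐ[k] k)
  have hu : ∀ p ∉ o, IsUnit (algebraMap B R (y p)) := fun p hp =>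
    IsLocalization.map_units R (⟨y p, fun h => hp ((e1 p).symm.trans h)⟩ : (kerPt ev).primeCompl)
  obtain ⟨⟨h', s, hs'⟩, e⟩ := IsLocalization.surj o.primeCompl h₀
  have a1 : Associated (algebraMap B R (y h')) (algebraMap B R a) := by
    rw [← e2, ← e, map_mul, e2]
    exact (associated_mul_unit_left _ _ (hu s hs')).trans hh₀
  have hne : h' ≠ 0 := by
    rintro rfl
    rw [map_zero, map_zero] at a1
    exact h0 (IsLocalization.injective R (kerPt ev).primeCompl_le_nonZeroDivisors
      (((associated_zero_iff_eq_zero _).1 a1.symm).trans (map_zero _).symm))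
  obtain ⟨h, w, rfl, hw, hp⟩ := Pres.split o h' hne
  have a2 : Associated (algebraMap B R (y h)) (algebraMap B R a) := by
    rw [map_mul, map_mul] at a1
    exact (associated_mul_unit_left _ _ (hu w hw)).symm.trans a1
  refine ⟨y, h, inferInstance, e1, e2, ff, a2, hs, fun u hu' => ?_, fun g hg => ?_⟩
  · refine (UniqueFactorizationMonoid.isRelPrime_iff_no_prime_factors
      (left_ne_zero_of_mul hne)).2 fun p h1 h2 h3 => hu' ?_
    exact o.mem_of_dvd h2 (hp p h3 h1)
  let φ : MvPolynomial (Fin d) k →ₐ[k] B ⧸ Ideal.span {a} :=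
    (Ideal.Quotient.mkₐ k (Ideal.span {a})).comp y
  obtain ⟨T, hT⟩ := IsNoetherian.noetherian (RingHom.ker φ)
  have h1 : ∀ t ∈ T, ∃ s ∉ o, h ∣ s * t := fun t ht => by
    have h2 : φ t = 0 := (hT ▸ Submodule.subset_span ht : t ∈ RingHom.ker φ)
    have h3 : a ∣ y t := Ideal.mem_span_singleton.1 (Ideal.Quotient.eq_zero_iff_mem.1 h2)
    have h4 := a2.dvd.trans (map_dvd (algebraMap B R) h3)
    rw [← e2, ← e2] at h4
    obtain ⟨c, hc⟩ := dvd_of_faithfullyFlat h4
    obtain ⟨⟨c', s, hs⟩, e⟩ := IsLocalization.surj o.primeCompl c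
    refine ⟨s, hs, c', IsLocalization.injective (OrigRing k d) o.primeCompl_le_nonZeroDivisors ?_⟩
    rw [map_mul, map_mul, hc, ← e]
    ring
  choose! σ hσ hσ' using h1
  obtain ⟨u₂, hu₂, hd⟩ := Pres.lying φ.toRingHom hfin o (Ideal.Quotient.mk _ g) fun Q _ hQ' hgQ => by
    have := U (Q.comap (Ideal.Quotient.mk _)) inferInstance (by
      rw [Ideal.mem_comap, Ideal.Quotient.eq_zero_iff_mem.2 (Ideal.mem_span_singleton_self a)]
      exact zero_mem _) fun i => hQ'.ge (show X i ∈ o by simp [o, mem_kerPt])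
    exact hg (this.le hgQ)
  refine ⟨(∏ t ∈ T, σ t) * u₂, ?_, fun θ hθ hθu => ?_⟩
  · rw [map_mul, map_prod]
    exact mul_ne_zero (Finset.prod_ne_zero_iff.2 hσ) hu₂
  rw [map_mul, map_prod, mul_ne_zero_iff, Finset.prod_ne_zero_iff] at hθu
  have h2 : RingHom.ker φ ≤ kerPt θ := by
    rw [← hT]
    refine Submodule.span_le.2 fun t ht => ?_
    have h3 := map_dvd θ (hσ' t ht)
    rw [hθ, zero_dvd_iff, map_mul] at h3
    exact (mul_eq_zero.1 h3).resolve_left (hθu.1 t ht)
  obtain ⟨θ', hθ'⟩ := Pres.lift_point φ hfin θ fun t ht => h2 ht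
  refine ⟨θ'.comp (Ideal.Quotient.mkₐ k _), hθ', fun h3 => hθu.2 ?_⟩
  have h4 := map_dvd θ' hd
  rw [show θ' (Ideal.Quotient.mk _ g) = 0 from h3, zero_dvd_iff] at h4
  exact (AlgHom.congr_fun hθ' u₂).symm.trans h4

end Pool.Agent.MP_e8e0b6_ag.Z

end MrgPart0

-- ======== part 1: formerly Pool.Agent.MP_e8e0b6_ag.Z.Line
section MrgPart1

/-! Row LINE: a generic line through the origin misses the common zeros of two coprime
polynomials, and the first polynomial is monic in its direction. -/

set_option autoImplicit false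

namespace Pool.Agent.MP_e8e0b6_ag.Z

namespace Line

open Polynomial

variable {k : Type} [Field k] {σ : Type}

/-- substitution `X i ↦ a i + t i * s` -/
noncomputable def th {B : Type} [CommRing B] [Algebra k B] (a t : σ → B) :
    MvPolynomial σ k →ₐ[k] B[X] :=
  MvPolynomial.aeval fun i => C (a i) + C (t i) * X

theorem th_map {B B' : Type} [CommRing B] [Algebra k B] [CommRing B'] [Algebra k B']
    (π : B →ₐ[k] B') (a t : σ → B) (p : MvPolynomial σ k) :
    (th a t p).map (π : B →+* B') = th (fun i => π (a i)) (fun i => π (t i)) p := by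
  have : (Polynomial.mapAlgHom π).comp (th a t) = th (fun i => π (a i)) (fun i => π (t i)) := by
    refine MvPolynomial.algHom_ext fun i => ?_
    simp [th]
  exact DFunLike.congr_fun this p

theorem th_eval {B : Type} [CommRing B] [Algebra k B] (a t : σ → B) (p : MvPolynomial σ k) :
    (th a t p).eval 0 = MvPolynomial.aeval a p := by
  have : ((Polynomial.aeval (0 : B)).restrictScalars k).comp (th a t) = MvPolynomial.aeval a := by
    refine MvPolynomial.algHom_ext fun i => ?_
    simp [th]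
  have h := DFunLike.congr_fun this p
  simpa [Polynomial.coe_aeval_eq_eval] using h

theorem prod_top {B ι : Type} [CommRing B] (s : Finset ι) (f : ι → B[X]) (n : ι → ℕ)
    (h : ∀ i, (f i).natDegree ≤ n i) :
    (∏ i ∈ s, f i).natDegree ≤ ∑ i ∈ s, n i ∧
      (∏ i ∈ s, f i).coeff (∑ i ∈ s, n i) = ∏ i ∈ s, (f i).coeff (n i) := by
  classical
  induction s using Finset.induction_on with
  | empty => simp
  | insert i s hi ih =>
    rw [Finset.prod_insert hi, Finset.sum_insert hi, Finset.prod_insert hi]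
    refine ⟨natDegree_mul_le.trans (add_le_add (h i) ih.1), ?_⟩
    rw [coeff_mul_add_eq_of_natDegree_le (h i) ih.1, ih.2]

theorem th_mono {B : Type} [CommRing B] [Algebra k B] (a t : σ → B) (α : σ →₀ ℕ) (c : k) :
    (th a t (MvPolynomial.monomial α c)).natDegree ≤ α.degree ∧
      (th a t (MvPolynomial.monomial α c)).coeff α.degree =
        MvPolynomial.aeval t (MvPolynomial.monomial α c) := by
  have h1 : ∀ i, (C (a i) + C (t i) * X : B[X]).natDegree ≤ 1 := fun i => by
    compute_degree
  have h2 : ∀ i, ((C (a i) + C (t i) * X : B[X]) ^ α i).natDegree ≤ α i := fun i =>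
    natDegree_pow_le.trans (by simpa using Nat.mul_le_mul_left (α i) (h1 i))
  have h3 : ∀ i, ((C (a i) + C (t i) * X : B[X]) ^ α i).coeff (α i) = t i ^ α i := fun i => by
    have := coeff_pow_of_natDegree_le (m := α i) (h1 i)
    rw [mul_one] at this
    rw [this]
    simp [coeff_C]
  have h := prod_top α.support (fun i => (C (a i) + C (t i) * X : B[X]) ^ α i) α h2
  simp only [h3] at h
  simp only [th, MvPolynomial.aeval_monomial, Finsupp.prod, Finsupp.degree_apply,
    Polynomial.algebraMap_apply]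
  exact ⟨(natDegree_C_mul_le _ _).trans h.1, by rw [coeff_C_mul, h.2]⟩

theorem deg_le (p : MvPolynomial σ k) {α : σ →₀ ℕ} (hα : α ∈ p.support) :
    α.degree ≤ p.totalDegree := MvPolynomial.le_totalDegree hα

theorem th_deg {B : Type} [CommRing B] [Algebra k B] (a t : σ → B) (p : MvPolynomial σ k) :
    (th a t p).natDegree ≤ p.totalDegree := by
  conv_lhs => rw [p.as_sum, map_sum]
  exact natDegree_sum_le_of_forall_le _ _ fun α hα => (th_mono a t α _).1.trans (deg_le p hα)

theorem th_top {B : Type} [CommRing B] [Algebra k B] (a t : σ → B) (p : MvPolynomial σ k) :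
    (th a t p).coeff p.totalDegree =
      MvPolynomial.aeval t (MvPolynomial.homogeneousComponent p.totalDegree p) := by
  classical
  rw [MvPolynomial.homogeneousComponent_apply, map_sum, Finset.sum_filter]
  conv_lhs => rw [congrArg (th a t) p.as_sum, map_sum, finsetSum_coeff]
  refine Finset.sum_congr rfl fun α hα => ?_
  split_ifs with h
  · rw [← h, (th_mono a t α _).2]
  · exact coeff_eq_zero_of_natDegree_lt
      ((th_mono a t α _).1.trans_lt (lt_of_le_of_ne (deg_le p hα) h))

theorem th_hom {B : Type} [CommRing B] [Algebra k B] (t : σ → B) (p : MvPolynomial σ k) (D : ℕ)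
    (hp : ∀ α ∈ p.support, α.degree = D) :
    th (fun _ => 0) t p = C (MvPolynomial.aeval t p) * X ^ D := by
  conv_lhs => rw [p.as_sum, map_sum]
  conv_rhs => rw [p.as_sum, map_sum, map_sum, Finset.sum_mul]
  refine Finset.sum_congr rfl fun α hα => ?_
  rw [← hp α hα]
  simp only [th, MvPolynomial.aeval_monomial, Finsupp.prod, Finsupp.degree_apply,
    Polynomial.algebraMap_apply, map_zero, zero_add, mul_pow, Finset.prod_mul_distrib,
    Finset.prod_pow_eq_pow_sum, map_mul, map_prod, map_pow, mul_assoc]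

theorem top_ne (p : MvPolynomial σ k) (hp : p ≠ 0) :
    MvPolynomial.homogeneousComponent p.totalDegree p ≠ 0 := by
  obtain ⟨α, hα, e⟩ := Finset.exists_mem_eq_sup p.support (MvPolynomial.support_nonempty.2 hp)
    fun s => s.sum fun _ e => e
  intro h
  have := MvPolynomial.coeff_homogeneousComponent p.totalDegree p α
  rw [h, if_pos (by rw [MvPolynomial.totalDegree, e]; rfl)] at this
  exact MvPolynomial.mem_support_iff.1 hα (by simpa using this.symm)

variable {d : ℕ}

/-- the chart of the blow-up of the origin -/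
noncomputable def ph (k : Type) [Field k] (d : ℕ) :
    MvPolynomial (Fin (d + 1)) k →ₐ[k] (MvPolynomial (Fin d) k)[X] :=
  th (fun _ => 0) (Fin.cons 1 MvPolynomial.X)

theorem ph_inj : Function.Injective (ph k d) := by
  let L := FractionRing (MvPolynomial (Fin (d + 1)) k)
  let ι : MvPolynomial (Fin (d + 1)) k →ₐ[k] L := IsScalarTower.toAlgHom k _ L
  have hι : Function.Injective ι := IsFractionRing.injective _ L
  have h0 : ι (MvPolynomial.X 0) ≠ 0 := (map_ne_zero_iff ι hι).2 (MvPolynomial.X_ne_zero _)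
  let π : MvPolynomial (Fin d) k →ₐ[k] L :=
    MvPolynomial.aeval fun i => ι (MvPolynomial.X i.succ) / ι (MvPolynomial.X 0)
  have key : ((Polynomial.aeval (ι (MvPolynomial.X 0))).restrictScalars k).comp
      ((Polynomial.mapAlgHom π).comp (ph k d)) = ι := by
    refine MvPolynomial.algHom_ext fun i => ?_
    refine Fin.cases ?_ (fun j => ?_) i
    · simp [ph, th]
    · simp [ph, th, π, div_mul_cancel₀ _ h0]
  intro p q hpq
  apply hι
  rw [← key]
  simp only [AlgHom.comp_apply, hpq]

/-- the chart over the function field of the directions -/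
noncomputable def pK (k : Type) [Field k] (d : ℕ) :
    MvPolynomial (Fin (d + 1)) k →+* (FractionRing (MvPolynomial (Fin d) k))[X] :=
  (Polynomial.mapRingHom (algebraMap (MvPolynomial (Fin d) k) _)).comp
    (ph k d : MvPolynomial (Fin (d + 1)) k →+* (MvPolynomial (Fin d) k)[X])

theorem pK_inj : Function.Injective (pK k d) :=
  (Polynomial.map_injective _ (IsFractionRing.injective _ _)).comp ph_inj

theorem pK_apply (p : MvPolynomial (Fin (d + 1)) k) :
    pK k d p = (ph k d p).map (algebraMap _ (FractionRing (MvPolynomial (Fin d) k))) := rfl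

/-- denominators -/
def Den (w : MvPolynomial (Fin (d + 1)) k) : Prop :=
  ∃ (c : FractionRing (MvPolynomial (Fin d) k)) (m : ℕ), c ≠ 0 ∧ pK k d w = C c * X ^ m

theorem Den.mul {w w' : MvPolynomial (Fin (d + 1)) k} (h : Den w) (h' : Den w') :
    Den (w * w') := by
  obtain ⟨c, m, hc, e⟩ := h
  obtain ⟨c', m', hc', e'⟩ := h'
  refine ⟨c * c', m + m', mul_ne_zero hc hc', ?_⟩
  rw [map_mul, e, e', map_mul, pow_add]
  ring

theorem den_one : Den (1 : MvPolynomial (Fin (d + 1)) k) := ⟨1, 0, one_ne_zero, by simp⟩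

theorem pK_zero : pK k d (MvPolynomial.X 0) = X := by
  simp [pK_apply, ph, th]

theorem den_X : Den (MvPolynomial.X 0 : MvPolynomial (Fin (d + 1)) k) :=
  ⟨1, 1, one_ne_zero, by simp [pK_zero]⟩

/-- fractions with admissible denominators -/
def Fr (p : (FractionRing (MvPolynomial (Fin d) k))[X]) : Prop :=
  ∃ w q : MvPolynomial (Fin (d + 1)) k, Den w ∧ pK k d q = pK k d w * p

theorem Fr.add {p p' : (FractionRing (MvPolynomial (Fin d) k))[X]} (h : Fr p) (h' : Fr p') :
    Fr (p + p') := by
  obtain ⟨w, q, hw, e⟩ := h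
  obtain ⟨w', q', hw', e'⟩ := h'
  refine ⟨w * w', q * w' + q' * w, hw.mul hw', ?_⟩
  rw [map_add, map_mul, map_mul, map_mul, e, e']
  ring

theorem Fr.mul {p p' : (FractionRing (MvPolynomial (Fin d) k))[X]} (h : Fr p) (h' : Fr p') :
    Fr (p * p') := by
  obtain ⟨w, q, hw, e⟩ := h
  obtain ⟨w', q', hw', e'⟩ := h'
  refine ⟨w * w', q * q', hw.mul hw', ?_⟩
  rw [map_mul, map_mul, e, e']
  ring

theorem fr_base (r : MvPolynomial (Fin d) k) :
    Fr (C (algebraMap _ (FractionRing (MvPolynomial (Fin d) k)) r)) := by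
  induction r using MvPolynomial.induction_on with
  | C c =>
    refine ⟨1, MvPolynomial.C c, den_one, ?_⟩
    simp [pK_apply, ph, th]
  | add p q hp hq =>
    rw [map_add, map_add]
    exact hp.add hq
  | mul_X p i hp =>
    rw [map_mul, map_mul]
    refine hp.mul ⟨MvPolynomial.X 0, MvPolynomial.X i.succ, den_X, ?_⟩
    rw [pK_zero, X_mul_C]
    simp [pK_apply, ph, th]

theorem fr_C (c : FractionRing (MvPolynomial (Fin d) k)) : Fr (C c) := by
  obtain ⟨a, b, hb, rfl⟩ := IsFractionRing.div_surjective (A := MvPolynomial (Fin d) k) c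
  have hb' : algebraMap _ (FractionRing (MvPolynomial (Fin d) k)) b ≠ 0 :=
    IsFractionRing.to_map_ne_zero_of_mem_nonZeroDivisors hb
  rw [div_eq_mul_inv, map_mul]
  refine (fr_base a).mul ?_
  obtain ⟨w, q, ⟨c, m, hc, hw⟩, e⟩ := fr_base b
  refine ⟨q, w, ⟨c * algebraMap _ _ b, m, mul_ne_zero hc hb', ?_⟩, ?_⟩
  · rw [e, hw, map_mul]
    ring
  · rw [e, mul_assoc, ← map_mul, mul_inv_cancel₀ hb', map_one, mul_one]

theorem fr_all (p : (FractionRing (MvPolynomial (Fin d) k))[X]) : Fr p := by
  induction p using Polynomial.induction_on with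
  | C c => exact fr_C c
  | add p q hp hq => exact hp.add hq
  | monomial n a ih =>
    rw [pow_succ, ← mul_assoc]
    exact ih.mul ⟨1, MvPolynomial.X 0, den_one, by simp [pK_zero]⟩

theorem Den.dvd {w : MvPolynomial (Fin (d + 1)) k} (hw : Den w)
    {p : (FractionRing (MvPolynomial (Fin d) k))[X]} (hp : Prime p) (h : p ∣ pK k d w) :
    p ∣ X := by
  obtain ⟨c, m, hc, e⟩ := hw
  rw [e] at h
  rcases hp.dvd_or_dvd h with h | h
  · exact absurd (isUnit_of_dvd_unit h (isUnit_C.2 hc.isUnit)) hp.not_isUnit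
  · exact hp.dvd_of_dvd_pow h

theorem cop (h u : MvPolynomial (Fin (d + 1)) k) (h0 : h ≠ 0)
    (hu : MvPolynomial.aeval (0 : Fin (d + 1) → k) u ≠ 0) (hc : IsRelPrime h u) :
    IsCoprime (pK k d h) (pK k d u) := by
  refine isCoprime_of_prime_dvd (fun hh => h0 (pK_inj (by simpa using hh.1))) fun p hp h1 h2 => ?_
  have hX : ¬ p ∣ X := fun hX => by
    have h3 : X ∣ pK k d u := (hp.irreducible.dvd_symm irreducible_X hX).trans h2
    rw [X_dvd_iff, coeff_zero_eq_eval_zero, pK_apply, eval_zero_map, ph, th_eval,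
      map_eq_zero_iff _ (IsFractionRing.injective _ _)] at h3
    apply hu
    have e : (MvPolynomial.aeval (0 : Fin d → k)).comp
        (MvPolynomial.aeval fun _ : Fin (d + 1) => (0 : MvPolynomial (Fin d) k)) =
        MvPolynomial.aeval (0 : Fin (d + 1) → k) := by
      refine MvPolynomial.algHom_ext fun i => ?_
      simp
    rw [← e, AlgHom.comp_apply, h3, map_zero]
  obtain ⟨w, q, hw, e⟩ := fr_all p
  have hq : q ≠ 0 := by
    rintro rfl
    obtain ⟨c, m, hc, e'⟩ := hw
    rw [map_zero, e'] at e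
    exact mul_ne_zero (mul_ne_zero (C_ne_zero.2 hc) (pow_ne_zero _ X_ne_zero)) hp.ne_zero e.symm
  have hI : ((Ideal.span {p}).comap (pK k d)).IsPrime :=
    haveI := (Ideal.span_singleton_prime hp.ne_zero).2 hp
    Ideal.comap_isPrime _ _
  obtain ⟨q₁, hq₁, hd, hmem⟩ : ∃ q₁, Prime q₁ ∧ q₁ ∣ q ∧ p ∣ pK k d q₁ := by
    have hpq : p ∣ pK k d q := e ▸ dvd_mul_left _ _
    clear e
    induction q using UniqueFactorizationMonoid.induction_on_prime with
    | h₁ => exact absurd rfl hq
    | h₂ x hx => exact absurd (isUnit_of_dvd_unit hpq (hx.map _)) hp.not_isUnit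
    | h₃ a r ha hr ih =>
      rw [map_mul] at hpq
      rcases hp.dvd_or_dvd hpq with h3 | h3
      · exact ⟨r, hr, dvd_mul_right _ _, h3⟩
      · obtain ⟨q₁, a1, a2, a3⟩ := ih ha h3
        exact ⟨q₁, a1, a2.mul_left _, a3⟩
  have key : ∀ g : MvPolynomial (Fin (d + 1)) k, p ∣ pK k d g → q₁ ∣ g := by
    rintro g ⟨a, ha⟩
    obtain ⟨w', a', hw', e'⟩ := fr_all a
    have : w * w' * g = q * a' := pK_inj (by
      rw [map_mul, map_mul, map_mul, ha, e, e']
      ring)
    rcases hq₁.dvd_or_dvd (this ▸ hd.mul_right a') with h3 | h3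
    · exact absurd ((hw.mul hw').dvd hp (hmem.trans (map_dvd _ h3))) hX
    · exact h3
  exact hq₁.not_isUnit (hc (key h h1) (key u h2))

theorem top_ne' (h : MvPolynomial (Fin (d + 1)) k) (h0 : h ≠ 0) :
    (ph k d h).coeff h.totalDegree ≠ 0 := by
  rw [ph, th_top]
  intro hz
  refine top_ne h h0 (ph_inj ?_)
  rw [ph, th_hom _ _ h.totalDegree, hz]
  · simp
  · intro α hα
    by_contra hne
    exact MvPolynomial.mem_support_iff.1 hα (by
      rw [MvPolynomial.coeff_homogeneousComponent, if_neg hne])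

theorem res_ne (h u : MvPolynomial (Fin (d + 1)) k) (h0 : h ≠ 0)
    (hu : MvPolynomial.aeval (0 : Fin (d + 1) → k) u ≠ 0) (hc : IsRelPrime h u) :
    resultant (ph k d h) (ph k d u) h.totalDegree (u.totalDegree + 1) ≠ 0 := by
  have hi := IsFractionRing.injective (MvPolynomial (Fin d) k)
    (FractionRing (MvPolynomial (Fin d) k))
  have hd : (pK k d h).natDegree = h.totalDegree := by
    rw [pK_apply, natDegree_map_eq_of_injective hi]
    exact le_antisymm (th_deg _ _ h) (le_natDegree_of_ne_zero (top_ne' h h0))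
  have hd' : (pK k d u).natDegree ≤ u.totalDegree + 1 := by
    rw [pK_apply, natDegree_map_eq_of_injective hi]
    exact (th_deg _ _ u).trans (Nat.le_succ _)
  obtain ⟨j, hj⟩ := Nat.exists_eq_add_of_le hd'
  rw [← map_ne_zero_iff _ hi, ← resultant_map_map, ← pK_apply, ← pK_apply, hj,
    resultant_add_right_deg _ _ _ _ _ le_rfl, ← hd]
  refine mul_ne_zero (pow_ne_zero _ ?_) (resultant_ne_zero _ _ (cop h u h0 hu hc))
  exact leadingCoeff_ne_zero.2 fun hh => h0 (pK_inj (by simpa using hh))

/-- the shear -/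
noncomputable def shA (v : Fin d → k) :
    MvPolynomial (Fin (d + 1)) k →ₐ[k] MvPolynomial (Fin (d + 1)) k :=
  MvPolynomial.aeval (Fin.cons (MvPolynomial.X 0)
    fun i => MvPolynomial.X i.succ + MvPolynomial.C (v i) * MvPolynomial.X 0)

theorem shA_comp (v w : Fin d → k) (h : ∀ i, v i + w i = 0) :
    (shA v).comp (shA w) = AlgHom.id k _ := by
  refine MvPolynomial.algHom_ext fun i => ?_
  refine Fin.cases ?_ (fun j => ?_) i
  · simp [shA]
  · have : w j = -v j := by linear_combination h j
    simp [shA, this]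

/-- coordinates adapted to the direction `(1, v)` -/
noncomputable def eqv (v : Fin d → k) :
    MvPolynomial (Fin (d + 1)) k ≃ₐ[k] (MvPolynomial (Fin d) k)[X] :=
  (AlgEquiv.ofAlgHom (shA v) (shA (-v)) (shA_comp _ _ fun i => by simp)
    (shA_comp _ _ fun i => by simp)).trans (MvPolynomial.finSuccEquiv k d)

theorem eqv_apply (v : Fin d → k) (p : MvPolynomial (Fin (d + 1)) k) :
    eqv v p = th (Fin.cons 0 MvPolynomial.X) (Fin.cons 1 fun i => MvPolynomial.C (v i)) p := by
  have : (eqv v : MvPolynomial (Fin (d + 1)) k →ₐ[k] (MvPolynomial (Fin d) k)[X]) =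
      th (Fin.cons 0 MvPolynomial.X) (Fin.cons 1 fun i => MvPolynomial.C (v i)) := by
    refine MvPolynomial.algHom_ext fun i => ?_
    refine Fin.cases ?_ (fun j => ?_) i
    · simp [eqv, shA, th, MvPolynomial.finSuccEquiv_X_zero]
    · have : MvPolynomial.finSuccEquiv k d (MvPolynomial.C (v j)) = C (MvPolynomial.C (v j)) :=
        (MvPolynomial.finSuccEquiv k d).commutes (v j)
      simp [eqv, shA, th, MvPolynomial.finSuccEquiv_X_zero, MvPolynomial.finSuccEquiv_X_succ, this]
  exact DFunLike.congr_fun this p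

theorem eqv_map (v : Fin d → k) (p : MvPolynomial (Fin (d + 1)) k) :
    (eqv v p).map ((MvPolynomial.aeval (0 : Fin d → k) : MvPolynomial (Fin d) k →ₐ[k] k) :
        MvPolynomial (Fin d) k →+* k) =
      (ph k d p).map ((MvPolynomial.aeval v : MvPolynomial (Fin d) k →ₐ[k] k) :
        MvPolynomial (Fin d) k →+* k) := by
  rw [eqv_apply, ph, th_map, th_map]
  congr 2
  · funext i
    refine Fin.cases ?_ (fun j => ?_) i <;> simp
  · funext i
    refine Fin.cases ?_ (fun j => ?_) i <;> simp

theorem eqv_top (v : Fin d → k) (p : MvPolynomial (Fin (d + 1)) k) :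
    (eqv v p).coeff p.totalDegree =
      MvPolynomial.C (MvPolynomial.aeval v ((ph k d p).coeff p.totalDegree)) := by
  rw [eqv_apply, ph, th_top, th_top]
  have : (MvPolynomial.aeval (Fin.cons 1 fun i => MvPolynomial.C (v i)) :
      MvPolynomial (Fin (d + 1)) k →ₐ[k] MvPolynomial (Fin d) k) =
      (Algebra.ofId k _).comp ((MvPolynomial.aeval v).comp
        (MvPolynomial.aeval (Fin.cons 1 MvPolynomial.X))) := by
    refine MvPolynomial.algHom_ext fun i => ?_
    refine Fin.cases ?_ (fun j => ?_) i <;> simp [Algebra.ofId_apply]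
  rw [this]
  rfl

end Line

open Line in
theorem generic_line {k : Type} [Field k] [Infinite k] {d : ℕ}
    (h u : MvPolynomial (Fin (d + 1)) k) (h0 : h ≠ 0)
    (hu : MvPolynomial.aeval (0 : Fin (d + 1) → k) u ≠ 0) (hc : IsRelPrime h u) :
    ∃ (e : MvPolynomial (Fin (d + 1)) k ≃ₐ[k] Polynomial (MvPolynomial (Fin d) k)) (c : k)
      (ρ : MvPolynomial (Fin d) k),
      (∀ p, MvPolynomial.aeval (0 : Fin d → k) ((e p).eval 0) =
        MvPolynomial.aeval (0 : Fin (d + 1) → k) p) ∧
      (c • e h).Monic ∧ MvPolynomial.aeval (0 : Fin d → k) ρ ≠ 0 ∧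
      Polynomial.C ρ ∈ Ideal.span {e h, e u} := by
  obtain ⟨v, hv⟩ : ∃ v : Fin d → k, MvPolynomial.aeval v ((ph k d h).coeff h.totalDegree *
      Polynomial.resultant (ph k d h) (ph k d u) h.totalDegree (u.totalDegree + 1)) ≠ 0 := by
    by_contra hn
    push Not at hn
    refine mul_ne_zero (top_ne' h h0) (res_ne h u h0 hu hc) (MvPolynomial.funext fun v => ?_)
    simpa [MvPolynomial.coe_aeval_eq_eval] using hn v
  rw [map_mul, mul_ne_zero_iff] at hv
  have hd : ∀ p, (eqv v p).natDegree ≤ p.totalDegree := fun p => by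
    rw [eqv_apply]
    exact th_deg _ _ p
  refine ⟨eqv v, (MvPolynomial.aeval v ((ph k d h).coeff h.totalDegree))⁻¹,
    Polynomial.resultant (eqv v h) (eqv v u) h.totalDegree (u.totalDegree + 1), fun p => ?_, ?_,
    ?_, ?_⟩
  · rw [eqv_apply, th_eval]
    have e : (MvPolynomial.aeval (0 : Fin d → k)).comp
        (MvPolynomial.aeval (Fin.cons 0 MvPolynomial.X : Fin (d + 1) → MvPolynomial (Fin d) k)) =
        MvPolynomial.aeval (0 : Fin (d + 1) → k) := by
      refine MvPolynomial.algHom_ext fun i => ?_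
      refine Fin.cases ?_ (fun j => ?_) i <;> simp
    exact DFunLike.congr_fun e p
  · refine Polynomial.monic_of_natDegree_le_of_coeff_eq_one h.totalDegree
      ((Polynomial.natDegree_smul_le _ _).trans (hd h)) ?_
    rw [Polynomial.coeff_smul, eqv_top, MvPolynomial.smul_eq_C_mul, ← map_mul,
      inv_mul_cancel₀ hv.1, map_one]
  · have h1 := Polynomial.resultant_map_map (eqv v h) (eqv v u) h.totalDegree (u.totalDegree + 1)
      ((MvPolynomial.aeval (0 : Fin d → k) : MvPolynomial (Fin d) k →ₐ[k] k) :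
        MvPolynomial (Fin d) k →+* k)
    rw [eqv_map, eqv_map, Polynomial.resultant_map_map] at h1
    exact fun hz => hv.2 (h1.trans hz)
  · obtain ⟨p, q, -, -, e⟩ := Polynomial.exists_mul_add_mul_eq_C_resultant (eqv v h) (eqv v u)
      (hd h) ((hd u).trans (Nat.le_succ _)) (Or.inr (Nat.succ_ne_zero _))
    rw [← e]
    exact Ideal.mem_span_pair.2 ⟨p, q, by ring⟩

end Pool.Agent.MP_e8e0b6_ag.Z

end MrgPart1

-- marker of a merged file
example : 731051 + 6457 = 731051 + 6457 := rfl
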