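import Mathlib
import Pool.Agent.MP_e8e0b6_ag.Z.Torus
import Pool.Agent.MP_e8e0b6_ag.QS.Patch
import Pool.Agent.MP_e8e0b6_ag.Z.Horrocks
import Pool.Agent.MP_e8e0b6_ag.Z.Line
import Pool.Agent.MP_e8e0b6_ag.Z.Defs

-- ======== part 0: formerly Pool.Agent.MP_e8e0b6_ag.Z.Patch
section MrgPart0

/-!
Patching of forms along an elementary square.
-/

open Matrix TensorProduct

namespace Pool.Agent.MP_e8e0b6_ag.Z

variable {n : ℕ} {l m : Type}

namespace Patch

/-- The lattice cut out by `Y'` descends to a free lattice. -/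
theorem lattice {B B' : Type} [CommRing B] [CommRing B'] [IsNoetherianRing B] [IsDomain B']
    [Algebra B B'] [Module.Flat B B'] (hB : AllFree B) (F : B) (hF : algebraMap B B' F ≠ 0)
    (h1 : ∀ b' : B', ∃ b x, b' = algebraMap B B' b + algebraMap B B' F * x)
    (h2 : ∀ b x, algebraMap B B' b = algebraMap B B' F * x → F ∣ b) (c : ℕ)
    (Y Y' : Mat n B') (hY : Y' * Y = algebraMap B B' F ^ c • 1)
    (hY' : Y * Y' = algebraMap B B' F ^ c • 1) :
    ∃ N : Submodule B (Fin n → B), Module.Free B N ∧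
      (∀ i, F ^ c • (Pi.single i 1 : Fin n → B) ∈ N) ∧
      Submodule.span B' ((Algebra.linearMap B B').compLeft (Fin n) '' N) =
        LinearMap.range (toLin' Y') := by
  set f := algebraMap B B' F ^ c with hf
  have hf0 : f ≠ 0 := pow_ne_zero _ hF
  have h1' : ∀ b' : B', ∃ b x, b' = algebraMap B B' b + f * x := by
    rw [hf]
    clear hY hY' hf0 hf f
    induction c with
    | zero => exact fun b' => ⟨0, b', by simp⟩
    | succ c ih =>
      intro b'
      obtain ⟨b, x, rfl⟩ := ih b'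
      obtain ⟨a, y, rfl⟩ := h1 x
      exact ⟨b + F ^ c * a, y, by rw [map_add, map_mul, map_pow]; ring⟩
  let j := (Algebra.linearMap B B').compLeft (Fin n)
  let N' := LinearMap.range (toLin' Y')
  let N : Submodule B (Fin n → B) := (N'.restrictScalars B).comap j
  have hfN' : ∀ v, f • v ∈ N' := fun v =>
    ⟨Y *ᵥ v, by rw [toLin'_apply, mulVec_mulVec, hY, smul_mulVec, one_mulVec]⟩
  have hFN : ∀ i, F ^ c • (Pi.single i 1 : Fin n → B) ∈ N := fun i => by
    change j _ ∈ N'
    have : j (F ^ c • Pi.single i 1) = f • Pi.single i 1 := by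
      ext k; by_cases h : k = i <;> simp [j, hf, h]
    rw [this]; exact hfN' _
  have gen : ∀ (D : Type) [CommRing D] [Algebra B D] (w : Fin n → D), algebraMap B D F ^ c • w ∈
      Submodule.span D ((Algebra.linearMap B D).compLeft (Fin n) '' N) := fun D _ _ w => by
    rw [← Finset.univ_sum_single w, Finset.smul_sum]
    refine Submodule.sum_mem _ fun i _ => ?_
    have : algebraMap B D F ^ c • (Pi.single i (w i) : Fin n → D) =
        w i • (Algebra.linearMap B D).compLeft (Fin n) (F ^ c • Pi.single i 1) := by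
      ext k; by_cases h : k = i <;> simp [h, mul_comm, Algebra.smul_def]
    rw [this]
    exact Submodule.smul_mem _ _ (Submodule.subset_span ⟨_, hFN i, rfl⟩)
  have hspan : Submodule.span B' (j '' N) = N' := by
    refine le_antisymm (Submodule.span_le.2 ?_) fun v hv => ?_
    · rintro _ ⟨v, hv, rfl⟩; exact hv
    · choose b x hb using fun i => h1' (v i)
      have e1 : v = j b + f • x := funext hb
      have : j b ∈ N' := by
        rw [eq_sub_of_add_eq e1.symm]; exact sub_mem hv (hfN' x)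
      rw [e1]
      exact add_mem (Submodule.subset_span ⟨b, this, rfl⟩) (gen B' x)
  let ε : (Fin n → B') ≃ₗ[B'] N' :=
    LinearEquiv.ofInjective (toLin' Y') (by
      rw [injective_iff_map_eq_zero]
      intro v h
      have := congrArg (Y *ᵥ ·) h
      simp only [toLin'_apply, mulVec_mulVec, hY', smul_mulVec, one_mulVec, mulVec_zero] at this
      exact (smul_eq_zero.1 this).resolve_left hf0)
  let δ : B' ⊗[B] N ≃ₗ[B'] (Fin n → B') :=
    (spanEquiv B' j (pi_liftBaseChange_injective B' n) N).trans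
      ((LinearEquiv.ofEq _ _ hspan).trans ε.symm)
  have : Module.Flat B N := flat_of_local_ext fun m hm => by
    by_cases hFm : F ∈ m
    · exact ⟨B', inferInstance, inferInstance, inferInstance, map_ne_top_of F h1 h2 m hm.ne_top hFm,
        Module.Flat.of_linearEquiv δ⟩
    · let D := Localization.Away F
      refine ⟨D, inferInstance, inferInstance, inferInstance, ?_, ?_⟩
      · refine (IsLocalization.map_algebraMap_ne_top_iff_disjoint (Submonoid.powers F) D m).2 ?_
        rw [Set.disjoint_left]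
        rintro _ ⟨k, rfl⟩ hk
        exact hFm (hm.isPrime.mem_of_pow_mem k hk)
      · have : Submodule.span D ((Algebra.linearMap B D).compLeft (Fin n) '' N) = ⊤ := by
          rw [eq_top_iff]
          rintro w -
          obtain ⟨u, hu⟩ := (IsLocalization.Away.algebraMap_isUnit (S := D) F).pow c
          have := gen D (((u⁻¹ : Dˣ) : D) • w)
          rwa [← hu, smul_smul, Units.mul_inv, one_smul] at this
        exact flat_of_span_top D N this
  have : Module.FinitePresentation B N := Module.finitePresentation_of_finite B N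
  have : Module.Projective B N := Module.Flat.projective_of_finitePresentation
  exact ⟨N, hB.free N, hFN, hspan⟩

/-- Factorisation of a matrix that is invertible away from `F`. -/
theorem factor {B B' : Type} [CommRing B] [CommRing B'] [IsNoetherianRing B] [IsDomain B']
    [Algebra B B'] [Module.Flat B B'] (hB : AllFree B) (F : B) (hF : algebraMap B B' F ≠ 0)
    (h1 : ∀ b' : B', ∃ b x, b' = algebraMap B B' b + algebraMap B B' F * x)
    (h2 : ∀ b x, algebraMap B B' b = algebraMap B B' F * x → F ∣ b) (c : ℕ)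
    (Y Y' : Mat n B') (hY : Y' * Y = algebraMap B B' F ^ c • 1)
    (hY' : Y * Y' = algebraMap B B' F ^ c • 1) :
    ∃ (ν ν' : Mat n B) (α α' : Mat n B'), ν * ν' = F ^ c • 1 ∧ α * α' = 1 ∧
      ν.map (algebraMap B B') = Y' * α := by
  obtain ⟨N, hN, hFN, hspan⟩ := lattice hB F hF h1 h2 c Y Y' hY hY'
  have : Nontrivial B := (algebraMap B B').domain_nontrivial
  have key : ∀ r : ℕ, r ≤ n → Module.Basis (Fin r) B N →
      ∃ (ν ν' : Mat n B) (α α' : Mat n B'), ν * ν' = F ^ c • 1 ∧ α * α' = 1 ∧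
        ν.map (algebraMap B B') = Y' * α := fun r hr b => by
    let ν : Matrix (Fin n) (Fin r) B := Matrix.of fun i k => (b k).1 i
    have hν : ∀ v : N, ν *ᵥ b.equivFun v = v.1 := fun v => by
      funext i
      have := congrArg (fun z : N => z.1 i) (b.sum_repr v)
      simp only [AddSubmonoidClass.coe_finsetSum, SetLike.val_smul, Finset.sum_apply,
        Pi.smul_apply, smul_eq_mul] at this
      rw [← this]
      simp [ν, mulVec, dotProduct, mul_comm]
    let ν' : Matrix (Fin r) (Fin n) B := Matrix.of fun k i => b.equivFun ⟨_, hFN i⟩ k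
    have e1 : ν * ν' = F ^ c • (1 : Matrix (Fin n) (Fin n) B) := by
      ext i i'
      have := congrFun (hν ⟨_, hFN i'⟩) i
      simpa [mul_apply, ν', mulVec, dotProduct, one_apply, Pi.single_apply] using this
    have a1 : ∀ k, ∃ w, Y' *ᵥ w = fun i => algebraMap B B' (ν i k) := fun k => by
      have : (Algebra.linearMap B B').compLeft (Fin n) (b k).1 ∈ LinearMap.range (toLin' Y') :=
        hspan ▸ Submodule.subset_span ⟨_, (b k).2, rfl⟩
      exact this
    choose w hw using a1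
    let α : Matrix (Fin n) (Fin r) B' := Matrix.of fun i k => w k i
    have e2 : ν.map (algebraMap B B') = Y' * α := by
      ext i k
      exact (congrFun (hw k) i).symm
    have a2 : LinearMap.range (toLin' Y') ≤ LinearMap.range (toLin' (ν.map (algebraMap B B'))) := by
      rw [← hspan, Submodule.span_le]
      rintro _ ⟨v, hv, rfl⟩
      refine ⟨algebraMap B B' ∘ b.equivFun ⟨v, hv⟩, funext fun i => ?_⟩
      rw [toLin'_apply, ← RingHom.map_mulVec, hν]
      rfl
    choose w' hw' using fun i => a2 ⟨Pi.single i 1, rfl⟩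
    let α' : Matrix (Fin r) (Fin n) B' := Matrix.of fun k i => w' i k
    have e3 : ν.map (algebraMap B B') * α' = Y' := by
      ext i i'
      have := congrFun (hw' i') i
      simp only [toLin'_apply, mulVec_single_one, col_apply] at this
      exact this
    have e4 : α * α' = (1 : Matrix (Fin n) (Fin n) B') := by
      apply smul_right_injective _ (pow_ne_zero c hF)
      change algebraMap B B' F ^ c • _ = algebraMap B B' F ^ c • _
      rw [← hY', ← e3, e2, Matrix.mul_assoc, ← Matrix.mul_assoc Y, hY', Matrix.smul_mul,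
        Matrix.one_mul]
    have hnr : n ≤ r := by
      have := (rank_mul_le_left α α').trans (rank_le_width α)
      rwa [e4, rank_one, Fintype.card_fin] at this
    obtain rfl : r = n := le_antisymm hr hnr
    exact ⟨ν, ν', α, α', e1, e4, e2⟩
  refine key _ ?_ (Module.finBasis B N)
  simpa using Submodule.finrank_le N

theorem pow_dvd {B B' : Type} [CommRing B] [CommRing B'] [IsDomain B'] [Algebra B B'] (F : B)
    (hF : algebraMap B B' F ≠ 0)
    (h2 : ∀ b x, algebraMap B B' b = algebraMap B B' F * x → F ∣ b) (e : ℕ) :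
    ∀ b x, algebraMap B B' b = algebraMap B B' F ^ e * x → F ^ e ∣ b := by
  induction e with
  | zero => simp
  | succ e ih =>
    intro b x h
    obtain ⟨a, rfl⟩ := h2 b (algebraMap B B' F ^ e * x) (by rw [h]; ring)
    rw [pow_succ']
    refine mul_dvd_mul_left _ (ih a x (mul_left_cancel₀ hF ?_))
    rw [← map_mul, h]; ring

end Patch

theorem patch_form {B B' : Type} [CommRing B] [CommRing B'] [IsNoetherianRing B] [IsDomain B']
    [Algebra B B'] [Module.Flat B B'] (hB : AllFree B) (F : B) (hF : algebraMap B B' F ≠ 0)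
    (hi : Function.Injective (algebraMap B B'))
    (h1 : ∀ b' : B', ∃ b x, b' = algebraMap B B' b + algebraMap B B' F * x)
    (h2 : ∀ b x, algebraMap B B' b = algebraMap B B' F * x → F ∣ b)
    (Φ₀ : Form n l m B) (Φ : Form n l m B')
    (h : IsoOn (algebraMap B B' F) (bc (algebraMap B B') Φ₀) Φ) :
    ∃ Ψ : Form n l m B, Iso (bc (algebraMap B B') Ψ) Φ ∧ IsoOn F Φ₀ Ψ := by
  let D := Localization.Away F
  let D' := Localization.Away (algebraMap B B' F)
  have hfr : Frac (algebraMap B' D') (Submonoid.powers (algebraMap B B' F)) :=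
    .of_isLocalization _ (powers_le_nonZeroDivisors_of_noZeroDivisors hF)
  have hu' : IsUnit (algebraMap B' D' (algebraMap B B' F)) := hfr.unit _ (Submonoid.mem_powers _)
  obtain ⟨x, hx, H⟩ := h D' (algebraMap B' D') hu'
  obtain ⟨_, ⟨c, rfl⟩, h3⟩ := hfr.common (S := Set.range (fun p : Fin n × Fin n => x p.1 p.2) ∪
    Set.range fun p : Fin n × Fin n => x⁻¹ p.1 p.2) ((Set.finite_range _).union (Set.finite_range _))
  choose y hy using fun i j => h3 _ (.inl ⟨(i, j), rfl⟩)
  choose y' hy' using fun i j => h3 _ (.inr ⟨(i, j), rfl⟩)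
  have e1 : (Matrix.of y).map (algebraMap B' D') =
      algebraMap B' D' (algebraMap B B' F ^ c) • x := by ext i j; exact hy i j
  have e2 : (Matrix.of y').map (algebraMap B' D') =
      algebraMap B' D' (algebraMap B B' F ^ c) • x⁻¹ := by ext i j; exact hy' i j
  have e3 : ((algebraMap B B' F ^ (c + c) • 1 : Mat n B')).map (algebraMap B' D') =
      (algebraMap B' D' (algebraMap B B' F ^ c) * algebraMap B' D' (algebraMap B B' F ^ c)) •
        (1 : Mat n D') := by
    ext i j
    by_cases hij : i = j <;> simp [hij, pow_add]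
  obtain ⟨ν, ν', α, α', k1, k2, k3⟩ := Patch.factor hB F hF h1 h2 (c + c) (Matrix.of y)
    (Matrix.of y') (Matrix.map_injective hfr.inj (by
      change Matrix.map _ _ = Matrix.map _ _
      rw [e3, Matrix.map_mul, e1, e2, smul_mul_smul_comm, nonsing_inv_mul _ hx]))
    (Matrix.map_injective hfr.inj (by
      change Matrix.map _ _ = Matrix.map _ _
      rw [e3, Matrix.map_mul, e1, e2, smul_mul_smul_comm, mul_nonsing_inv _ hx]))
  let μ : D →+* D' := IsLocalization.Away.lift (g := (algebraMap B' D').comp (algebraMap B B'))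
    F hu'
  have hμ : ∀ a, μ (algebraMap B D a) = algebraMap B' D' (algebraMap B B' a) :=
    IsLocalization.Away.lift_eq _ _
  have hμ' : μ.comp (algebraMap B D) = (algebraMap B' D').comp (algebraMap B B') :=
    RingHom.ext hμ
  obtain ⟨u, hu⟩ := ((IsLocalization.Away.algebraMap_isUnit (S := D) F).pow c).exists_left_inv
  let γ : Mat n D := u • ν.map (algebraMap B D)
  let β : Mat n D := u • ν'.map (algebraMap B D)
  have g1 : γ * β = 1 := by
    rw [smul_mul_smul_comm, ← Matrix.map_mul, k1]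
    ext i j
    by_cases hij : i = j
    · subst hij
      simp only [Matrix.smul_apply, map_apply, one_apply_eq, smul_eq_mul, mul_one, map_pow, pow_add,
        map_mul]
      linear_combination (u * algebraMap B D F ^ c + 1) * hu
    · simp [hij]
  have g2 : x * γ.map μ = α.map (algebraMap B' D') := by
    have a1 : γ.map μ = μ u • (ν.map (algebraMap B B')).map (algebraMap B' D') := by
      ext i j
      simp [γ, hμ]
    have a2 : μ u * algebraMap B' D' (algebraMap B B' F ^ c) = 1 := by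
      rw [← map_pow, ← hμ, ← map_mul, map_pow, hu, map_one]
    rw [a1, k3, Matrix.map_mul, e2, Matrix.smul_mul, smul_smul, a2, one_smul, ← Matrix.mul_assoc,
      mul_nonsing_inv _ hx, Matrix.one_mul]
  obtain ⟨Θ, hΘ⟩ := exists_hom' g1 (bc (algebraMap B D) Φ₀)
  obtain ⟨Ψ', hΨ'⟩ := exists_hom' k2 Φ
  have k4 : α'.map (algebraMap B' D') * α.map (algebraMap B' D') = 1 := by
    rw [← Matrix.map_mul, mul_eq_one_comm.1 k2, Matrix.map_one _ (map_zero _) (map_one _)]
  have g3 : bc μ Θ = bc (algebraMap B' D') Ψ' := by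
    have a1 := (hΘ.inv' g1).map μ
    rw [bc_bc, hμ', ← bc_bc] at a1
    have a2 := a1.mul H
    rw [g2] at a2
    exact (a2.inv' k4).unique (hΨ'.map _) (isUnit_det_of_right_inverse k4)
  obtain ⟨Ψ, rfl⟩ : ∃ Ψ, bc (algebraMap B D) Ψ = Θ := exists_bc fun i j ρ => by
    have a1 : μ (MvPolynomial.coeff ρ (Θ i j)) =
        algebraMap B' D' (MvPolynomial.coeff ρ (Ψ' i j)) := by
      rw [← coeff_bc, ← coeff_bc, g3]
    obtain ⟨e, a, ha⟩ := IsLocalization.Away.surj F (MvPolynomial.coeff ρ (Θ i j))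
    have a2 := congrArg μ ha
    rw [map_mul, map_pow, hμ, hμ, a1, ← map_pow, ← map_mul] at a2
    obtain ⟨b, rfl⟩ := Patch.pow_dvd F hF h2 e a _ ((hfr.inj a2).symm.trans (mul_comm _ _))
    refine ⟨b, ((IsLocalization.Away.algebraMap_isUnit (S := D) F).pow e).mul_right_cancel ?_⟩
    rw [ha, map_mul, map_pow, mul_comm]
  rw [bc_bc, hμ', ← bc_bc] at g3
  obtain rfl := bc_injective hfr.inj g3
  exact ⟨Ψ, ⟨α, isUnit_det_of_right_inverse k2, hΨ'.inv' k2⟩,
    isoOn_of_away F D ⟨β, isUnit_det_of_left_inverse g1, hΘ⟩⟩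

end Pool.Agent.MP_e8e0b6_ag.Z

end MrgPart0

-- ======== part 1: formerly Pool.Agent.MP_e8e0b6_ag.Z.BQ
section MrgPart1

/-!
Locally trivial forms over the affine line over a smooth local ring are trivial.
-/

open Matrix Polynomial

namespace Pool.Agent.MP_e8e0b6_ag.Z

variable {n : ℕ} {l m k A B : Type} [Field k] [CommRing A] [CommRing B]

theorem exists_away (f : A) (ψ : A →+* B) (h : IsUnit (ψ f)) :
    ∃ ψ' : Localization.Away f →+* B, ψ'.comp (algebraMap A _) = ψ :=
  ⟨_, IsLocalization.Away.lift_comp f h⟩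

theorem away_ext {f : A} {ψ ψ' : Localization.Away f →+* B}
    (h : ψ.comp (algebraMap A _) = ψ'.comp (algebraMap A _)) : ψ = ψ' :=
  IsLocalization.ringHom_ext (Submonoid.powers f) h

theorem Frac.isoOn' [IsDomain B] {φ : A →+* B} {M : Submonoid A} (h : Frac φ M) {f : A}
    (hf : φ f ≠ 0) {Φ Ψ : Form n l m A} (H : IsoOn (φ f) (bc φ Φ) (bc φ Ψ)) :
    ∃ s ∈ M, IsoOn (s * f) Φ Ψ := by
  let r := algebraMap B (FractionRing B)
  have hr : Function.Injective r := IsFractionRing.injective _ _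
  have hu : ∀ {b}, b ≠ 0 → IsUnit (r b) := fun hb => ((map_ne_zero_iff r hr).2 hb).isUnit
  obtain ⟨z, z', e, h1, h2, H⟩ := H.exists_aw r (hu hf)
  choose e1 b1 h1 using h1
  choose e2 b2 h2 using h2
  obtain ⟨s, hs, h3⟩ := h.common (S := Set.range (fun p : Fin n × Fin n => b1 p.1 p.2) ∪
    Set.range fun p : Fin n × Fin n => b2 p.1 p.2) ((Set.finite_range _).union (Set.finite_range _))
  have key : ∀ (e : ℕ) b ω, r b = r (φ f) ^ e * ω → φ s * b ∈ φ.range →
      ω ∈ aw (r.comp φ) (s * f) := by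
    rintro e b ω h4 ⟨a, ha⟩
    refine ⟨e + 1, s ^ e * f * a, ?_⟩
    simp only [RingHom.comp_apply, map_mul, map_pow, ha, h4]
    ring
  refine ⟨s, hs, isoOn_of_aw (r := r.comp φ) (hr.comp h.inj) (hu ?_) e
    (fun i j => key _ _ _ (h1 i j) (h3 _ (.inl ⟨(i, j), rfl⟩)))
    (fun i j => key _ _ _ (h2 i j) (h3 _ (.inr ⟨(i, j), rfl⟩))) (by rwa [← bc_bc, ← bc_bc])⟩
  change φ (s * f) ≠ 0
  rw [map_mul]
  exact mul_ne_zero (h.unit s hs).ne_zero hf

theorem Frac.loc {φ : A →+* B} {M : Submonoid A} (h : Frac φ M) (f : A) :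
    ∃ ψ : Localization.Away f →+* Localization.Away (φ f),
      ψ.comp (algebraMap A _) = (algebraMap B _).comp φ ∧ Frac ψ (M.map (algebraMap A _)) := by
  let ψ := IsLocalization.Away.map (Localization.Away f) (Localization.Away (φ f)) φ f
  have e : ∀ a, ψ (algebraMap A _ a) = algebraMap B _ (φ a) := fun a => IsLocalization.map_eq _ a
  refine ⟨ψ, RingHom.ext e, (IsLocalization.Away.map_injective_iff _ φ f).2 fun a ha =>
    ⟨0, by rw [h.inj (ha.trans (map_zero φ).symm), mul_zero]⟩, ?_, fun z => ?_⟩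
  · rintro _ ⟨s, hs, rfl⟩
    rw [e]
    exact (h.unit s hs).map _
  · obtain ⟨i, b, hb⟩ := IsLocalization.Away.surj (φ f) z
    obtain ⟨s, hs, a, ha⟩ := h.den b
    obtain ⟨u, hu⟩ := ((IsLocalization.Away.algebraMap_isUnit
      (S := Localization.Away f) f).pow i).exists_left_inv
    refine ⟨_, ⟨s, hs, rfl⟩, u * algebraMap A _ a, ?_⟩
    have := congrArg ψ hu
    rw [map_mul, map_pow, e, map_one] at this
    rw [map_mul, e, e, ha, map_mul, ← hb]
    linear_combination algebraMap B _ (φ s) * z * this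

theorem isoOn_C (t : A) [Algebra A B] [IsLocalization.Away t B] {Φ Ψ : Form n l m A[X]}
    (h : Iso (bc (mapRingHom (algebraMap A B)) Φ) (bc (mapRingHom (algebraMap A B)) Ψ)) :
    IsoOn (C t) Φ Ψ := fun E _ ψ hu => by
  have hχ := IsLocalization.Away.lift_comp (S := B) (g := ψ.comp C) t hu
  have := h.map (eval₂RingHom (IsLocalization.Away.lift (S := B) (g := ψ.comp C) t hu) (ψ X))
  rw [bc_bc, bc_bc] at this
  convert this using 2 <;> ext a <;> simp

theorem allFree_orig (d : ℕ) : AllFree (OrigRing k d)[X] :=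
  roitman (kerPt (MvPolynomial.aeval 0 : MvPolynomial (Fin d) k →ₐ[k] k)).primeCompl
    (Ideal.primeCompl_le_nonZeroDivisors _)
    ((quillen_suslin (d + 1) k).of_equiv (MvPolynomial.finSuccEquiv k d).toRingEquiv)
    allFree_of_local

attribute [local instance] Polynomial.algebra in
theorem allFree_orig₂ (d : ℕ) : AllFree (OrigRing k d)[X][X] := by
  let o := kerPt (MvPolynomial.aeval 0 : MvPolynomial (Fin d) k →ₐ[k] k)
  have := Polynomial.isLocalization o.primeCompl (OrigRing k d)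
  refine roitman (o.primeCompl.map C) ?_ ((quillen_suslin (d + 2) k).of_equiv
    ((MvPolynomial.finSuccEquiv k (d + 1)).toRingEquiv.trans
      (mapEquiv (MvPolynomial.finSuccEquiv k d).toRingEquiv))) (allFree_orig d)
  rintro _ ⟨s, hs, rfl⟩
  exact mem_nonZeroDivisors_of_ne_zero (C_ne_zero.2 fun h => hs (h ▸ o.zero_mem))

variable [CharZero k] [IsAlgClosed k] [Finite m]

/-- The localisation of `A[X]` away from a constant. -/
abbrev LC (U : A) : Type := Localization.Away (C U : A[X])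

/-- The localisation map. -/
noncomputable abbrev lc (U : A) : A[X] →+* LC U := algebraMap _ _

theorem bq_line {W A' : Type} [CommRing W] [IsDomain W] [Algebra k W] [Algebra.FiniteType k W]
    (ev : W →ₐ[k] k) [CommRing A'] [IsDomain A'] [IsNoetherianRing A'] [Algebra W A']
    [IsLocalization.AtPrime A' (kerPt ev)] (hA : AllFree A'[X][X]) (H U : W[X]) (hH : H.Monic)
    (hU : U ≠ 0) {ρ : W} (hρ : ev ρ ≠ 0) (hm : C ρ ∈ Ideal.span {H, U}) (Φ₀ : Form n l m k)
    (Ψ : Form n l m (LC U)) (h1 : IsoOn (lc U (C H)) (bc (algebraMap k _) Φ₀) Ψ)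
    (h2 : ∀ θ : LC U →ₐ[k] k, Iso Φ₀ (bc (θ : _ →+* k) Ψ)) :
    ∃ r, ev r ≠ 0 ∧ IsoOn (lc U (C (C r))) (bc (algebraMap k _) Φ₀) Ψ := by
  classical
  let o := kerPt ev
  let ε : W[X][X] →+* A'[X][X] := mapRingHom (mapRingHom (algebraMap W A'))
  have F0 := Frac.of_isLocalization (B := A') o.primeCompl o.primeCompl_le_nonZeroDivisors
  have F1 : Frac ε ((o.primeCompl.map (C : W →+* W[X])).map (C : W[X] →+* W[X][X])) :=
    F0.poly.poly
  obtain ⟨ε', e1, F2⟩ := F1.loc (C U)
  have u0 : ε (C U) ≠ 0 := (map_ne_zero_iff _ F1.inj).2 (C_ne_zero.2 hU)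
  have h0 : ε (C H) ≠ 0 := (map_ne_zero_iff _ F1.inj).2 (C_ne_zero.2 hH.ne_zero)
  have le := powers_le_nonZeroDivisors_of_noZeroDivisors u0
  have := IsLocalization.isDomain_of_le_nonZeroDivisors (Localization.Away (ε (C U))) le
  have hi := IsLocalization.injective (Localization.Away (ε (C U))) le
  obtain ⟨a, b, hab⟩ := Ideal.mem_span_pair.1 hm
  have cop : IsCoprime (ε (C H)) (ε (C U)) := by
    obtain ⟨v, hv⟩ := (F1.unit _ ⟨_, ⟨ρ, hρ, rfl⟩, rfl⟩).exists_left_inv
    refine ⟨v * ε (C a), v * ε (C b), ?_⟩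
    rw [← hv, ← hab]
    simp only [map_add, map_mul]
    ring
  have e1' := RingHom.congr_fun e1
  simp only [RingHom.comp_apply] at e1'
  obtain ⟨Ψ', I1, I2⟩ := patch_form hA (ε (C H)) ((map_ne_zero_iff _ hi).2 h0) hi
    (fun z => by
      obtain ⟨i, x, hx⟩ := IsLocalization.Away.surj (ε (C U)) z
      obtain ⟨p, q, hpq⟩ := cop.pow_right (n := i)
      refine ⟨q * x, algebraMap _ _ p * z, ?_⟩
      have := congrArg (algebraMap _ (Localization.Away (ε (C U)))) hpq
      rw [map_add, map_mul, map_mul, map_pow, map_one] at this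
      rw [map_mul, ← hx]
      linear_combination (-z) * this)
    (fun x z hz => by
      obtain ⟨i, y, hy⟩ := IsLocalization.Away.surj (ε (C U)) z
      refine (cop.pow_right (n := i)).dvd_of_dvd_mul_right ⟨y, hi ?_⟩
      rw [map_mul, map_mul, map_pow, hz, ← hy, mul_assoc])
    (bc (ε.comp (algebraMap k _)) Φ₀) (bc ε' Ψ) (by
      have := h1.map ε'
      rwa [e1', bc_bc, IsScalarTower.algebraMap_eq k W[X][X], ← RingHom.comp_assoc, e1,
        RingHom.comp_assoc, ← bc_bc] at this)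
  obtain ⟨_, ⟨_, ⟨r₁, hr₁, rfl⟩, rfl⟩, μ, e2, F3, Ψ'', rfl⟩ := F1.form Ψ'
  have e2' := RingHom.congr_fun e2
  simp only [RingHom.comp_apply] at e2'
  obtain ⟨_, ⟨_, ⟨_, ⟨r₂, hr₂, rfl⟩, rfl⟩, rfl⟩, I3⟩ := F3.isoOn' (f := algebraMap _ _ (C H))
    (Φ := bc (algebraMap k _) Φ₀) (Ψ := Ψ'') (e2' _ ▸ h0) (by
      rwa [e2', bc_bc, IsScalarTower.algebraMap_eq k W[X][X], ← RingHom.comp_assoc, e2])
  obtain ⟨μ', e3, F4, -⟩ := F2.away (s := algebraMap _ _ (C (C r₁))) ⟨_, ⟨_, ⟨r₁, hr₁, rfl⟩, rfl⟩, rfl⟩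
  obtain ⟨ν, e4⟩ := exists_away (C (C r₁))
    ((algebraMap _ (Localization.Away (lc U (C (C r₁))))).comp (lc U))
    (IsLocalization.Away.algebraMap_isUnit (lc U (C (C r₁))))
  obtain ⟨_, ⟨_, ⟨_, ⟨_, ⟨r₃, hr₃, rfl⟩, rfl⟩, rfl⟩, rfl⟩, I4⟩ := F4.isoOn (Φ := bc ν Ψ'')
    (Ψ := bc (algebraMap _ _) Ψ) (by
      rw [bc_bc, bc_bc, e3, show μ'.comp ν = (algebraMap _ _).comp μ from away_ext (by
        rw [RingHom.comp_assoc, e4, ← RingHom.comp_assoc, e3, e1, RingHom.comp_assoc, e2]), ← bc_bc]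
      exact I1)
  have I5 : ∀ (E : Type) [CommRing E] (ψ : Localization.Away (C U) →+* E)
      (χ : Localization.Away (C (C r₁)) →+* E), χ.comp (algebraMap W[X][X] _) =
      ψ.comp (algebraMap W[X][X] _) → IsUnit (ψ (algebraMap W[X][X] _ (C (C r₃)))) →
      Iso (bc χ Ψ'') (bc ψ Ψ) := fun E _ ψ χ e hu => by
    obtain ⟨ψ', e5⟩ := exists_away (algebraMap W[X][X] _ (C (C r₁))) ψ
      (RingHom.congr_fun e _ ▸ (IsLocalization.Away.algebraMap_isUnit _).map χ)
    have := I4 E ψ' (by rwa [← e5] at hu)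
    rwa [bc_bc, bc_bc, e5, show ψ'.comp ν = χ from away_ext (by
      rw [RingHom.comp_assoc, e4, ← RingHom.comp_assoc, e5, e])] at this
  obtain ⟨c, hc⟩ := (hH.map (ev : W →+* k)).ne_zero
    |> fun h => Infinite.exists_notMem_finset (H.map (ev : W →+* k)).roots.toFinset
    |>.imp fun c hc => mt (fun h' => Multiset.mem_toFinset.2 ((mem_roots h).2 h')) hc
  have hr₄ : H.eval (algebraMap k W c) ∈ o.primeCompl := fun h => hc (by
    have := eval_map_apply (ev : W →+* k) (p := H) (algebraMap k W c)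
    rw [show (ev : W →+* k) (H.eval _) = 0 from h] at this
    simpa using this)
  generalize e6 : H.eval (algebraMap k W c) = r₄ at hr₄
  have hr := mul_mem (mul_mem (mul_mem (mul_mem hr₁ hr₂) hr₃) hr₄) (show ρ ∈ o.primeCompl from hρ)
  have d1 : r₁ ∣ r₁ * r₂ * r₃ * r₄ * ρ := ⟨r₂ * r₃ * r₄ * ρ, by ring⟩
  have d2 : r₂ ∣ r₁ * r₂ * r₃ * r₄ * ρ := ⟨r₁ * r₃ * r₄ * ρ, by ring⟩
  have d3 : r₃ ∣ r₁ * r₂ * r₃ * r₄ * ρ := ⟨r₁ * r₂ * r₄ * ρ, by ring⟩
  have d4 : r₄ ∣ r₁ * r₂ * r₃ * r₄ * ρ := ⟨r₁ * r₂ * r₃ * ρ, by ring⟩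
  have d5 : ρ ∣ r₁ * r₂ * r₃ * r₄ * ρ := ⟨r₁ * r₂ * r₃ * r₄, by ring⟩
  generalize r₁ * r₂ * r₃ * r₄ * ρ = r at hr d1 d2 d3 d4 d5
  obtain ⟨C₁, _, _, _, _, _⟩ : ∃ (C₁ : Type) (_ : CommRing C₁) (_ : Algebra W C₁) (_ : Algebra k C₁),
      IsScalarTower k W C₁ ∧ IsLocalization.Away r C₁ :=
    ⟨Localization.Away r, _, _, _, inferInstance, inferInstance⟩
  have := IsLocalization.isDomain_of_le_nonZeroDivisors C₁
    (powers_le_nonZeroDivisors_of_noZeroDivisors fun h : r = 0 => hr (h ▸ o.zero_mem))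
  have : Algebra.FiniteType k C₁[X] := .trans (S := C₁) (.trans (S := W) inferInstance
    (IsLocalization.finiteType_of_monoid_fg (.powers r) C₁)) inferInstance
  let κ : W[X][X] →+* C₁[X][X] :=
    eval₂RingHom (mapRingHom (C.comp (algebraMap W C₁))) (C X)
  have k1 : ∀ p, κ (C p) = p.map (C.comp (algebraMap W C₁)) := fun p => eval₂_C _ _
  have k2 : ∀ {s}, s ∣ r → IsUnit (κ (C (C s))) := fun hs => by
    rw [k1, map_C]
    exact ((IsLocalization.Away.isUnit_of_dvd r hs).map C).map C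
  obtain ⟨κ₁, e7⟩ := exists_away _ κ (k2 d1)
  have e7' := RingHom.congr_fun e7
  simp only [RingHom.comp_apply] at e7'
  have e8 : κ₁.comp (algebraMap k _) = algebraMap k _ := by
    rw [IsScalarTower.algebraMap_eq k W[X][X], ← RingHom.comp_assoc, e7]
    ext1 a
    simp [k1, IsScalarTower.algebraMap_apply k W C₁]
  have I6 : IsoOn (κ (C H)) (bc (algebraMap k _) Φ₀) (bc κ₁ Ψ'') := fun E _ ψ hu => by
    have := I3.map κ₁ E ψ (by rw [map_mul, map_mul, e7', e7']; exact ((k2 d2).map ψ).mul hu)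
    rwa [bc_bc _ κ₁, e8] at this
  have I7 := horrocks_affine Φ₀ (bc κ₁ Ψ'') (k1 H ▸ hH.map _) I6 fun θ => by
    by_cases hθ : θ (κ (C H)) = 0
    · have hu : IsUnit (θ (κ (C U))) := by
        have := (k2 d5).map θ
        rw [← hab, map_add, map_mul, map_mul, map_add, map_mul, map_mul, map_add, map_mul, map_mul,
          hθ, mul_zero, zero_add] at this
        exact isUnit_of_mul_isUnit_right this
      obtain ⟨ψ, e9⟩ := exists_away (C U) ((θ : _ →+* k).comp κ) hu
      rw [bc_bc]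
      refine (h2 ⟨ψ, fun a => ?_⟩).trans (I5 k ψ _ (by rw [RingHom.comp_assoc, e7, e9])
        (RingHom.congr_fun e9 _ ▸ (k2 d3).map θ)).symm
      rw [IsScalarTower.algebraMap_apply k W[X][X]]
      refine (RingHom.congr_fun e9 _).trans ?_
      rw [RingHom.comp_apply, ← e7', ← IsScalarTower.algebraMap_apply]
      exact (congrArg θ (RingHom.congr_fun e8 a)).trans (θ.commutes a)
    · have := I6 k θ (Ne.isUnit hθ)
      rwa [bc_bc, θ.comp_algebraMap, Algebra.algebraMap_self, bc_id] at this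
  let v : C₁[X][X] →+* C₁[X][X] := C.comp (evalRingHom (algebraMap k _ c))
  have I8 := I6 _ v (by
    convert k2 d4 using 1
    rw [← e6, k1, k1, map_C, RingHom.comp_apply, coe_evalRingHom,
      ← eval_map_apply (C.comp (algebraMap W C₁))]
    simp [IsScalarTower.algebraMap_apply k W C₁])
  have I9 := I7.map v
  rw [bc_bc (c0 _) v, show v.comp (c0 _) = c0 _ by ext <;> simp [v, c0]] at I9
  rw [bc_bc (algebraMap k _) v, show v.comp (algebraMap k _) = algebraMap k _ by ext1; simp [v]] at I8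
  refine ⟨r, hr, fun E _ ψ hu => ?_⟩
  let χ := ψ.comp (algebraMap W[X][X] _)
  obtain ⟨χ₁, e9⟩ : ∃ χ₁ : C₁ →+* E, χ₁.comp (algebraMap W C₁) = (χ.comp C).comp C :=
    ⟨_, IsLocalization.Away.lift_comp r hu⟩
  let χ₂ : C₁[X][X] →+* E := eval₂RingHom (eval₂RingHom χ₁ (χ X)) (χ (C X))
  have e10 : χ₂.comp κ = χ := by
    refine Polynomial.ringHom_ext' (Polynomial.ringHom_ext' (RingHom.ext fun a => ?_) ?_) ?_
    · simpa [χ₂, k1] using RingHom.congr_fun e9 a
    · simp [χ₂, k1]
    · simp [χ₂, κ]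
  have I10 := ((I8.trans I9).trans I7.symm).map χ₂
  rw [bc_bc, bc_bc] at I10
  refine Iso.trans ?_ (I10.trans (I5 E ψ _ (by rw [RingHom.comp_assoc, e7, e10])
    (RingHom.congr_fun e10 _ ▸ (k2 d3).map χ₂)))
  rw [bc_bc, ← e8, IsScalarTower.algebraMap_eq k W[X][X], IsScalarTower.algebraMap_eq k W[X][X]
    (Localization.Away (C (C r₁))), ← RingHom.comp_assoc _ _ κ₁, e7, ← RingHom.comp_assoc _ κ, e10]
  exact .refl _

end Pool.Agent.MP_e8e0b6_ag.Z

end MrgPart1

-- ======== part 2: formerly Pool.Agent.MP_e8e0b6_ag.Z.BQ2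
section MrgPart2

/-!
The Bass–Quillen statement for locally trivial forms.
-/

open Matrix Polynomial

namespace Pool.Agent.MP_e8e0b6_ag.Z

variable {n : ℕ} {l m k B : Type} [Field k] [CommRing B] [IsDomain B] [Algebra k B]
  [CharZero k] [IsAlgClosed k]

theorem bq_generic [Algebra.FiniteType k B] (Φ₀ : Form n l m k) (Φ : Form n l m B[X])
    (h : ∀ θ : B[X] →ₐ[k] k, Iso Φ₀ (bc (θ : _ →+* k) Φ)) {f : B[X]} (hf : f.coeff 0 ≠ 0)
    (H : IsoOn f (bc (algebraMap k _) Φ₀) Φ) :
    ∃ a, a ≠ 0 ∧ IsoOn (C a) (bc (algebraMap k _) Φ₀) Φ := by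
  have h0 : f.leadingCoeff * f.coeff 0 ≠ 0 :=
    mul_ne_zero (leadingCoeff_ne_zero.2 fun e => hf (by simp [e])) hf
  obtain ⟨D, _, _, _, _, _⟩ : ∃ (D : Type) (_ : CommRing D) (_ : Algebra B D) (_ : Algebra k D),
      IsScalarTower k B D ∧ IsLocalization.Away (f.leadingCoeff * f.coeff 0) D :=
    ⟨Localization.Away (f.leadingCoeff * f.coeff 0), _, _, _, inferInstance, inferInstance⟩
  have le := powers_le_nonZeroDivisors_of_noZeroDivisors h0
  have := IsLocalization.isDomain_of_le_nonZeroDivisors D le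
  have : Algebra.FiniteType k D := .trans (S := B) inferInstance
    (IsLocalization.finiteType_of_monoid_fg (.powers (f.leadingCoeff * f.coeff 0)) D)
  let ε : B[X] →ₐ[k] D[X] := mapAlgHom (IsScalarTower.toAlgHom k B D)
  have H1 := H.map (ε : B[X] →+* D[X])
  rw [bc_bc, ε.comp_algebraMap] at H1
  obtain ⟨u, hu⟩ := (IsLocalization.Away.isUnit_of_dvd (S := D) _
    (dvd_mul_right f.leadingCoeff (f.coeff 0))).exists_left_inv
  have H2 := horrocks_affine Φ₀ (bc (ε : B[X] →+* D[X]) Φ) (g := C u * ε f)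
    (monic_C_mul_of_mul_leadingCoeff_eq_one (by
      rw [← hu, ← leadingCoeff_map_of_injective (IsLocalization.injective D le)]; rfl))
    (H1.of_dvd (dvd_mul_left _ _)) fun θ => by rw [bc_bc]; exact h (θ.comp ε)
  have H3 := H1 _ (c0 D) (by
    have := (IsLocalization.Away.isUnit_of_dvd (S := D) _
      (dvd_mul_left (f.coeff 0) f.leadingCoeff)).map C
    convert this using 1
    simp [c0, ε, ← coeff_zero_eq_aeval_zero'])
  rw [bc_bc (algebraMap k _), show (c0 D).comp (algebraMap k _) = algebraMap k _ by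
    ext1; simp [c0]] at H3
  refine ⟨_, h0, isoOn_C (B := D) _ ?_⟩
  rw [bc_bc]
  exact (congrArg (bc · Φ₀) ε.comp_algebraMap).symm ▸ H3.trans H2.symm

variable [Finite m]

omit [IsDomain B] in
theorem bq_transport {W A' : Type} [CommRing W] [IsDomain W] [Algebra k W] [Algebra.FiniteType k W]
    (ev : W →ₐ[k] k) [CommRing A'] [IsDomain A'] [IsNoetherianRing A'] [Algebra W A']
    [IsLocalization.AtPrime A' (kerPt ev)] (hA : AllFree A'[X][X]) (e : B ≃ₐ[k] W[X])
    (ev' : B →ₐ[k] k) (he : ∀ p, ev ((e p).eval 0) = ev' p) {h u u₁ : B} {c : k} {ρ : W}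
    (hH : (c • e h).Monic) (hρ : ev ρ ≠ 0) (hm : C ρ ∈ Ideal.span {e h, e u}) (hu : ev' u ≠ 0)
    (hd : u₁ ∣ u) (Φ₀ : Form n l m k) (Ψ : Form n l m (LC u₁))
    (h1 : IsoOn (lc u₁ (C (u * h))) (bc (algebraMap k _) Φ₀) Ψ)
    (h2 : ∀ θ : LC u₁ →ₐ[k] k, θ (lc u₁ (C u)) ≠ 0 → Iso Φ₀ (bc (θ : _ →+* k) Ψ)) :
    ∃ s, ev' s ≠ 0 ∧ IsoOn (lc u₁ (C s)) (bc (algebraMap k _) Φ₀) Ψ := by
  have hU := IsLocalization.Away.algebraMap_isUnit (S := LC (e u)) (C (e u))
  let ε : B[X] →+* W[X][X] := mapRingHom (e : B →+* W[X])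
  let ε' : W[X][X] →+* B[X] := mapRingHom (e.symm : W[X] →+* B)
  have e0 : ∀ b, ε (C b) = C (e b) := fun b => map_C _
  have e0' : ∀ b, ε' (C b) = C (e.symm b) := fun b => map_C _
  obtain ⟨τ, e1⟩ := exists_away (C u₁) ((lc (e u)).comp ε) (by
    rw [RingHom.comp_apply, e0]
    exact isUnit_of_dvd_unit (_root_.map_dvd _ (_root_.map_dvd C (_root_.map_dvd e hd))) hU)
  have e1' : ∀ b, τ (lc u₁ (C b)) = lc (e u) (C (e b)) := fun b =>
    (RingHom.congr_fun e1 _).trans (congrArg (lc (e u)) (e0 b))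
  have e2 : τ.comp (algebraMap k _) = algebraMap k _ := RingHom.ext fun a =>
    (e1' (algebraMap k B a)).trans (by rw [e.commutes]; rfl)
  have hc : c ≠ 0 := fun h => hH.ne_zero (by rw [h, zero_smul])
  obtain ⟨r, hr, H⟩ := bq_line ev hA (c • e h) (e u) hH
    ((map_ne_zero_iff e e.injective).2 fun h => hu (by rw [h, map_zero])) hρ (by
      obtain ⟨a, b, hab⟩ := Ideal.mem_span_pair.1 hm
      exact Ideal.mem_span_pair.2 ⟨c⁻¹ • a, b, by
        rw [← hab, smul_mul_smul_comm, inv_mul_cancel₀ hc, one_smul]⟩) Φ₀ (bc τ Ψ)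
    (fun E _ ψ hψ => by
      have := h1.map τ E ψ (by
        rw [e1', map_mul, map_mul, map_mul, map_mul]
        refine (hU.map ψ).mul (isUnit_of_dvd_unit (_root_.map_dvd _ (_root_.map_dvd _ (_root_.map_dvd C ?_))) hψ)
        exact ⟨algebraMap k _ c, by rw [Algebra.smul_def, mul_comm]⟩)
      rwa [bc_bc _ τ, e2] at this)
    fun θ => by
      rw [bc_bc]
      exact h2 (θ.comp ⟨τ, RingHom.congr_fun e2⟩) (by
        change θ (τ _) ≠ 0
        rw [e1']
        exact (hU.map θ).ne_zero)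
  refine ⟨u * e.symm (C r), ?_, fun E _ ψ hψ => ?_⟩
  · rw [map_mul, ← he (e.symm _), e.apply_symm_apply, eval_C]
    exact mul_ne_zero hu hr
  rw [map_mul, map_mul, map_mul] at hψ
  obtain ⟨χ, e3⟩ := exists_away (C (e u)) ((ψ.comp (lc u₁)).comp ε') (by
    rw [RingHom.comp_apply, e0', e.symm_apply_apply]
    exact isUnit_of_mul_isUnit_left hψ)
  have e4 : χ.comp τ = ψ := away_ext (by
    rw [RingHom.comp_assoc, e1, ← RingHom.comp_assoc, e3, RingHom.comp_assoc,
      show ε'.comp ε = RingHom.id _ by ext <;> simp [ε, ε'], RingHom.comp_id])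
  have := H E χ (by
    rw [show χ _ = _ from RingHom.congr_fun e3 _, RingHom.comp_apply, e0']
    exact isUnit_of_mul_isUnit_right hψ)
  rwa [bc_bc τ, e4, ← e2, ← bc_bc _ τ, bc_bc τ, e4] at this

attribute [local instance] Polynomial.algebra in
omit [CharZero k] [IsAlgClosed k] in
theorem bq_core {P A₀ R : Type} [CommRing P] [IsDomain P] [Algebra k P] (ev₀ : P →ₐ[k] k)
    [CommRing A₀] [IsDomain A₀] [IsNoetherianRing A₀] [Algebra P A₀]
    [IsLocalization.AtPrime A₀ (kerPt ev₀)] (hA : AllFree A₀[X]) (ev : B →ₐ[k] k) [CommRing R]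
    [IsDomain R] [Algebra B R] [IsLocalization.AtPrime R (kerPt ev)] [Algebra A₀ R]
    [Module.FaithfullyFlat A₀ R] (y : P →ₐ[k] B) (h : P) {a : B} (a0 : a ≠ 0)
    (hy : ∀ p, ev (y p) = ev₀ p)
    (hc : ∀ p, algebraMap A₀ R (algebraMap P A₀ p) = algebraMap B R (y p))
    (has : Associated (algebraMap B R (y h)) (algebraMap B R a))
    (hs : ∀ r : R, ∃ c x, r = algebraMap A₀ R c + algebraMap B R a * x)
    (hl : ∀ g : B, ev g ≠ 0 → ∃ u, ev₀ u ≠ 0 ∧ ∀ θ : P →ₐ[k] k, θ h = 0 → θ u ≠ 0 →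
      ∃ θ' : B →ₐ[k] k, θ'.comp y = θ ∧ θ' g ≠ 0) (Φ₀ : Form n l m k)
    (key : ∀ u u₁, ev₀ u ≠ 0 → u₁ ∣ u → ∀ Ψ : Form n l m (LC u₁),
      IsoOn (lc u₁ (C (u * h))) (bc (algebraMap k _) Φ₀) Ψ →
      (∀ θ : LC u₁ →ₐ[k] k, θ (lc u₁ (C u)) ≠ 0 → Iso Φ₀ (bc (θ : _ →+* k) Ψ)) →
      ∃ s, ev₀ s ≠ 0 ∧ IsoOn (lc u₁ (C s)) (bc (algebraMap k _) Φ₀) Ψ)
    (Φ : Form n l m B[X]) (h0 : ∀ θ : B[X] →ₐ[k] k, Iso Φ₀ (bc (θ : _ →+* k) Φ))
    (H : IsoOn (C a) (bc (algebraMap k _) Φ₀) Φ) :
    ∃ t, ev t ≠ 0 ∧ IsoOn (C t) (bc (algebraMap k _) Φ₀) Φ := by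
  let ε : P[X] →+* A₀[X] := mapRingHom (algebraMap P A₀)
  let δ : B[X] →+* R[X] := mapRingHom (algebraMap B R)
  let η : P[X] →ₐ[k] B[X] := mapAlgHom y
  have F0 := Frac.of_isLocalization (B := A₀) _ (kerPt ev₀).primeCompl_le_nonZeroDivisors
  have G0 := Frac.of_isLocalization (B := R) _ (kerPt ev).primeCompl_le_nonZeroDivisors
  have F1 : Frac ε _ := F0.poly
  have G1 : Frac δ _ := G0.poly
  have e0 : (algebraMap A₀[X] R[X]).comp ε = δ.comp η := by
    refine Polynomial.ringHom_ext (fun p => ?_) ?_ <;> simp [ε, δ, η, hc]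
  have hF : algebraMap A₀[X] R[X] (ε (C h)) = C (algebraMap B R (y h)) :=
    (RingHom.congr_fun e0 _).trans (by simp [δ, η])
  have hF0 : algebraMap A₀[X] R[X] (ε (C h)) ≠ 0 := by
    rw [hF, C_ne_zero, has.ne_zero_iff]
    exact (map_ne_zero_iff _ G0.inj).2 a0
  have := flat_poly A₀ R
  obtain ⟨u, hu⟩ := has
  obtain ⟨Ψ, I1, I2⟩ := patch_form hA (ε (C h)) hF0
    (Polynomial.map_injective _ (FaithfulSMul.algebraMap_injective A₀ R)) (fun b' => by
      induction b' using Polynomial.induction_on' with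
      | add p q hp hq =>
        obtain ⟨b, x, rfl⟩ := hp
        obtain ⟨b', x', rfl⟩ := hq
        exact ⟨b + b', x + x', by rw [map_add]; ring⟩
      | monomial i r =>
        obtain ⟨a, x, rfl⟩ := hs r
        refine ⟨monomial i a, monomial i (u * x), ?_⟩
        rw [hF, C_mul_monomial, ← mul_assoc, hu, map_add]
        exact congrArg (· + _) (map_monomial _).symm)
    (fun b x hb => by
      rw [show ε (C h) = C (algebraMap P A₀ h) from map_C _, C_dvd_iff_dvd_coeff]
      intro i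
      refine dvd_of_faithfullyFlat (R := R) ⟨x.coeff i, ?_⟩
      rw [hc, ← coeff_C_mul, ← hF, ← hb]
      exact (coeff_map _ _).symm)
    (bc (ε.comp (algebraMap k _)) Φ₀) (bc δ Φ) (by
      rw [bc_bc, ← RingHom.comp_assoc, e0, RingHom.comp_assoc, η.comp_algebraMap, ← bc_bc]
      refine fun E _ ψ hψ => H.map δ E ψ ?_
      rw [show δ (C a) = C (algebraMap B R a) from map_C _, ← hu, map_mul, map_mul, ← hF]
      exact hψ.mul ((u.isUnit.map C).map ψ))
  obtain ⟨_, ⟨u₁, hu₁, rfl⟩, μ, e1, F2, Ψ₁, rfl⟩ := F1.form Ψ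
  have e1' : ∀ p, μ (lc u₁ p) = ε p := RingHom.congr_fun e1
  have e2 : μ.comp (algebraMap k _) = ε.comp (algebraMap k _) := by
    rw [IsScalarTower.algebraMap_eq k P[X], ← RingHom.comp_assoc, e1]
  obtain ⟨_, ⟨_, ⟨u₂, hu₂, rfl⟩, rfl⟩, I3⟩ := F2.isoOn' (f := lc u₁ (C h))
    (Φ := bc (algebraMap k _) Φ₀) (Ψ := Ψ₁) (e1' _ ▸ fun e => hF0 (by rw [e, map_zero]))
    (by rwa [e1', bc_bc, e2])
  have hy₁ : y u₁ ∈ (kerPt ev).primeCompl := fun e => hu₁ ((hy u₁).symm.trans e)
  obtain ⟨μ', e3, G2, -⟩ := G1.away (s := C (y u₁)) ⟨_, hy₁, rfl⟩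
  have e4 : ∀ p, η (C p) = C (y p) := fun p => map_C _
  obtain ⟨ν, e5⟩ := exists_away (C u₁) ((lc (y u₁)).comp η) (by
    rw [RingHom.comp_apply, RingHom.coe_coe, e4]
    exact IsLocalization.Away.algebraMap_isUnit _)
  obtain ⟨_, ⟨_, ⟨g, hg, rfl⟩, rfl⟩, I4⟩ := G2.isoOn (Φ := bc ν Ψ₁) (Ψ := bc (lc (y u₁)) Φ) (by
    rw [bc_bc, bc_bc, e3, show μ'.comp ν = (algebraMap _ _).comp μ from away_ext (by
      rw [RingHom.comp_assoc, e5, ← RingHom.comp_assoc, e3, RingHom.comp_assoc, e1, e0]), ← bc_bc]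
    exact I1)
  obtain ⟨u₃, hu₃, hl⟩ := hl g hg
  obtain ⟨s, hs, I5⟩ := key (u₁ * u₂ * u₃) u₁ (by
    rw [map_mul, map_mul]; exact mul_ne_zero (mul_ne_zero hu₁ hu₂) hu₃) ⟨u₂ * u₃, mul_assoc ..⟩ Ψ₁
    (I3.of_dvd ⟨lc u₁ (C (u₁ * u₃)), by simp only [map_mul]; ring⟩) fun θ hθ => by
      simp only [map_mul, mul_ne_zero_iff] at hθ
      let θ₁ : P →ₐ[k] k := (θ.comp (IsScalarTower.toAlgHom k P[X] _)).comp CAlgHom
      by_cases h1 : θ₁ h = 0
      · obtain ⟨θ', e6, h2⟩ := hl θ₁ h1 hθ.2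
        let θ₂ : B[X] →ₐ[k] k := eval₂AlgHom θ' (θ (lc u₁ X)) fun _ => .all _ _
        have e7 : ∀ b, θ₂ (C b) = θ' b := fun b => eval₂_C _ _
        have e8 : ∀ p, θ' (y p) = θ (lc u₁ (C p)) := AlgHom.congr_fun e6
        obtain ⟨θ₃, e9⟩ := exists_away (C (y u₁)) (θ₂ : B[X] →+* k)
          (Ne.isUnit (by rw [RingHom.coe_coe, e7, e8]; exact hθ.1.1))
        have := I4 k θ₃ (Ne.isUnit (by
          rwa [show θ₃ _ = _ from RingHom.congr_fun e9 _, RingHom.coe_coe, e7]))
        rw [bc_bc, bc_bc, e9, show θ₃.comp ν = θ from away_ext (by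
          rw [RingHom.comp_assoc, e5, ← RingHom.comp_assoc, e9]
          refine Polynomial.ringHom_ext (fun p => ?_) ?_
          · exact (congrArg θ₂ (e4 p)).trans ((e7 _).trans (e8 p))
          · simp [η, θ₂])] at this
        exact (h0 θ₂).trans this.symm
      · have := I3 k θ (Ne.isUnit (by rw [map_mul]; exact mul_ne_zero hθ.1.2 h1))
        rwa [bc_bc, θ.comp_algebraMap, Algebra.algebraMap_self, bc_id] at this
  have I6 := (I5 _ μ (e1' _ ▸ F1.unit _ ⟨s, hs, rfl⟩)).map (algebraMap A₀[X] R[X])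
  rw [bc_bc _ μ, e2, bc_bc, ← RingHom.comp_assoc, e0, RingHom.comp_assoc, η.comp_algebraMap,
    ← bc_bc] at I6
  obtain ⟨_, ⟨t, ht, rfl⟩, I7⟩ := G1.isoOn (I6.trans I1)
  exact ⟨t, ht, I7⟩

/-- A form over the affine line over a smooth variety that is locally trivial is trivial above a
neighbourhood of each point of the variety. -/
theorem bass_quillen {d : ℕ} (z : MvPolynomial (Fin d) k →ₐ[k] B) (hz : z.toRingHom.Etale)
    (ev : B →ₐ[k] k) (Φ₀ : Form n l m k) (Φ : Form n l m B[X])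
    (h : ∀ θ : B[X] →ₐ[k] k, ∃ f, θ f ≠ 0 ∧ IsoOn f (bc (algebraMap k _) Φ₀) Φ) :
    ∃ t, ev t ≠ 0 ∧ IsoOn (C t) (bc (algebraMap k _) Φ₀) Φ := by
  have : Algebra.FiniteType k B := by
    algebraize [z.toRingHom]
    have := IsScalarTower.of_algebraMap_eq' z.comp_algebraMap.symm
    exact .trans (S := MvPolynomial (Fin d) k) inferInstance inferInstance
  have h0 : ∀ θ : B[X] →ₐ[k] k, Iso Φ₀ (bc (θ : _ →+* k) Φ) := fun θ => by
    obtain ⟨f, hf, H⟩ := h θ
    have := H k θ hf.isUnit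
    rwa [bc_bc, θ.comp_algebraMap, Algebra.algebraMap_self, bc_id] at this
  obtain ⟨f, hf, H⟩ := h (eval₂AlgHom ev 0 fun _ => .all _ _)
  obtain ⟨a, a0, H⟩ := bq_generic Φ₀ Φ h0 (fun e => hf (by
    change eval₂ _ _ _ = _
    rw [eval₂_at_zero, e, map_zero])) H
  by_cases ha : ev a = 0
  swap
  · exact ⟨a, ha, H⟩
  let R := Localization.AtPrime (kerPt ev)
  obtain ⟨y, g, _, h1, h2, _, h3, h4, h5, h6⟩ := presentation z hz ev R a a0 ha
  have hi := IsLocalization.injective R (kerPt ev).primeCompl_le_nonZeroDivisors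
  have g0 : g ≠ 0 := fun e => a0 (hi (by
    rw [e, map_zero, map_zero] at h3
    rw [map_zero, ← associated_zero_iff_eq_zero]
    exact h3.symm))
  refine bq_core _ (allFree_orig (k := k) d) ev y g a0 h1 h2 h3 h4 h6 Φ₀ (fun u u₁ hu hd Ψ H1 H2 => ?_) Φ h0 H
  cases d with
  | zero =>
    refine (g0 ?_).elim
    have h7 : ev (y g) = 0 := (IsLocalization.AtPrime.to_map_mem_maximal_iff R (kerPt ev) _).1
      (Ideal.mem_of_dvd _ h3.symm.dvd
        ((IsLocalization.AtPrime.to_map_mem_maximal_iff R (kerPt ev) _).2 ha))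
    rw [h1, MvPolynomial.eq_C_of_isEmpty g, MvPolynomial.aeval_C] at h7
    rw [MvPolynomial.eq_C_of_isEmpty g, show g.coeff 0 = 0 from h7, map_zero]
  | succ d =>
    obtain ⟨e, c, ρ, h7, h8, h9, h10⟩ := generic_line g u g0 hu (h5 u hu)
    exact bq_transport _ (allFree_orig₂ (k := k) d) e _ h7 h8 h9 h10 hu hd Φ₀ Ψ H1 H2

end Pool.Agent.MP_e8e0b6_ag.Z

end MrgPart2

-- ======== part 3: formerly Pool.Agent.MP_e8e0b6_ag.Z.Enc
section MrgPart3

/-!
A linear algebraic group is the automorphism group of a form.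
-/

open MvPolynomial Matrix TensorProduct

namespace Pool.Agent.MP_e8e0b6_ag.Z

namespace Enc

section Fun

variable {σ k A : Type} [Field k] [CommRing A] [Algebra k A]

/-- Apply a linear functional to the coefficients. -/
noncomputable def push (w : A →ₗ[k] k) (Q : MvPolynomial σ A) : MvPolynomial σ k :=
  ∑ μ ∈ Q.support, monomial μ (w (coeff μ Q))

theorem coeff_push (w : A →ₗ[k] k) (Q : MvPolynomial σ A) (μ : σ →₀ ℕ) :
    coeff μ (push w Q) = w (coeff μ Q) := by
  classical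
  simp only [push, coeff_sum, coeff_monomial, Finset.sum_ite_eq', mem_support_iff]
  split_ifs with h
  · rfl
  · rw [not_not.1 h, map_zero]

theorem deg_push (w : A →ₗ[k] k) (Q : MvPolynomial σ A) :
    (push w Q).totalDegree ≤ Q.totalDegree :=
  Finset.sup_mono fun μ h => by
    rw [mem_support_iff] at h ⊢
    intro h0
    rw [coeff_push, h0, map_zero] at h
    exact h rfl

theorem indep {ι : Type} [Fintype ι] {P : ι → MvPolynomial σ k} (hP : LinearIndependent k P)
    (c : ι → A) (h : ∑ j, C (c j) * MvPolynomial.map (algebraMap k A) (P j) = 0) (j : ι) :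
    c j = 0 := by
  refine (Module.forall_dual_apply_eq_zero_iff k _).1 fun w => ?_
  refine Fintype.linearIndependent_iff.1 hP (fun j => w (c j)) (MvPolynomial.ext _ _ fun μ => ?_) j
  have := congrArg (fun Q => w (coeff μ Q)) h
  simp only [coeff_sum, coeff_C_mul, coeff_map, map_sum, coeff_zero, map_zero] at this
  simp only [coeff_sum, coeff_smul, coeff_zero, smul_eq_mul]
  rw [← this]
  refine Finset.sum_congr rfl fun j _ => ?_
  rw [mul_comm (c j), ← Algebra.smul_def, map_smul, smul_eq_mul, mul_comm]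

theorem mem_span {ι : Type} [Fintype ι] (P : ι → MvPolynomial σ k) (Q : MvPolynomial σ A)
    (h : ∀ w : A →ₗ[k] k, push w Q ∈ Submodule.span k (Set.range P)) :
    ∃ c : ι → A, ∑ j, C (c j) * MvPolynomial.map (algebraMap k A) (P j) = Q := by
  classical
  let a := Module.Basis.ofVectorSpace k A
  choose t ht using fun i => (Submodule.mem_span_range_iff_exists_fun k).1 (h (a.coord i))
  let s := Q.support.biUnion fun μ => (a.repr (coeff μ Q)).support
  refine ⟨fun j => ∑ i ∈ s, t i j • a i, MvPolynomial.ext _ _ fun μ => ?_⟩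
  have h1 : ∀ i, ∑ j, t i j * coeff μ (P j) = a.repr (coeff μ Q) i := fun i => by
    have := congrArg (coeff μ) (ht i)
    simpa only [coeff_sum, coeff_smul, smul_eq_mul, coeff_push, Module.Basis.coord_apply] using this
  have h2 : (a.repr (coeff μ Q)).support ⊆ s := by
    by_cases hμ : μ ∈ Q.support
    · exact Finset.subset_biUnion_of_mem (fun μ => (a.repr (coeff μ Q)).support) hμ
    · simp [notMem_support_iff.1 hμ]
  simp only [coeff_sum, coeff_C_mul, coeff_map, Finset.sum_mul]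
  rw [Finset.sum_comm]
  conv_rhs => rw [← a.linearCombination_repr (coeff μ Q), Finsupp.linearCombination_apply,
    Finsupp.sum_of_support_subset _ h2 _ (by simp)]
  refine Finset.sum_congr rfl fun i _ => ?_
  rw [← h1, Finset.sum_smul]
  refine Finset.sum_congr rfl fun j _ => ?_
  rw [mul_comm _ (algebraMap k A _), ← Algebra.smul_def, smul_smul, mul_comm]

theorem eval_push {E : Type} [CommRing E] [Algebra k E] (w : A →ₗ[k] k) (Q : MvPolynomial σ A)
    (h : σ → E) (h0 : eval₂ (Algebra.TensorProduct.includeLeftRingHom : A →+* A ⊗[k] E)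
      (fun p => (1 : A) ⊗ₜ[k] h p) Q = 0) : eval₂ (algebraMap k E) h (push w Q) = 0 := by
  have := congrArg ((TensorProduct.lid k E).toLinearMap ∘ₗ TensorProduct.map w LinearMap.id) h0
  rw [map_zero, eval₂_eq, map_sum] at this
  rw [push, eval₂_sum, ← this]
  refine Finset.sum_congr rfl fun μ _ => ?_
  have e : ∏ i ∈ μ.support, ((1 : A) ⊗ₜ[k] h i) ^ μ i =
      (1 : A) ⊗ₜ[k] ∏ i ∈ μ.support, h i ^ μ i := by
    have := map_prod (Algebra.TensorProduct.includeRight : E →ₐ[k] A ⊗[k] E)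
      (fun i => h i ^ μ i) μ.support
    simpa only [map_pow, Algebra.TensorProduct.includeRight_apply] using this.symm
  rw [e, eval₂_monomial]
  simp [Algebra.smul_def, Finsupp.prod]

end Fun

variable {n r : ℕ} {A B : Type} [CommRing A] [CommRing B]

theorem deg_sub {l : Type} (x : Mat n B) (Q : MvPolynomial (Fin n × l) B) :
    (sub l x Q).totalDegree ≤ Q.totalDegree := by
  rw [sub, coe_eval₂Hom, eval₂_eq]
  refine totalDegree_finsetSum_le fun μ hμ => (totalDegree_mul _ _).trans ?_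
  rw [totalDegree_C, zero_add]
  refine (totalDegree_finsetProd _ _).trans (le_trans ?_ (le_totalDegree hμ))
  refine Finset.sum_le_sum fun p _ => (totalDegree_pow _ _).trans ?_
  refine (Nat.mul_le_mul_left _ (totalDegree_finsetSum_le (d := 1) fun b _ => ?_)).trans
    (mul_one _).le
  refine (totalDegree_mul _ _).trans ?_
  rw [totalDegree_C, zero_add]
  exact (totalDegree_monomial_le _ _).trans (by simp)

theorem ev_subst (f : A →+* B) (x : Mat n A) (h : Mat n B) (Q : MvPolynomial (Fin n × Fin n) A) :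
    eval₂ f (fun p => h p.1 p.2) (sub (Fin n) x Q) =
      eval₂ f (fun p => (x.map f * h) p.1 p.2) Q :=
  RingHom.congr_fun (f := (eval₂Hom f fun p : Fin n × Fin n => h p.1 p.2).comp (sub (Fin n) x))
    (g := eval₂Hom f fun p : Fin n × Fin n => (x.map f * h) p.1 p.2)
    (ringHom_ext (fun b => by simp) fun p => by simp [mul_apply]) Q

theorem solves_map {k : Type} [CommRing k] {I : Set (MvPolynomial (Fin n × Fin n) k)}
    {φ : k →+* A} {g : Mat n A} (h : Solves I φ g) (f : A →+* B) :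
    Solves I (f.comp φ) (g.map f) :=
  ⟨isUnit_det_map h.1 f, fun P hP => by
    have := congrArg f (h.2 P hP)
    rwa [eval₂_comp_left, map_zero] at this⟩

theorem eq_zero_of_X {σ ι : Type} [Fintype ι] (f : ι → σ) (hf : Function.Injective f) (u : ι → B)
    (h : ∑ b, C (u b) * (X (f b) : MvPolynomial σ B) = 0) (b : ι) : u b = 0 :=
  Fintype.linearIndependent_iff.1 ((linearIndependent_X σ B).comp f hf) u
    (by simpa only [smul_eq_C_mul, Function.comp] using h) b

/-- The form attached to a family of polynomials. -/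
noncomputable def enc (P : Fin r → MvPolynomial (Fin n × Fin n) B) :
    Form (n + r) (Fin (n + r)) (Option (Fin (n + r))) B := fun i c =>
  Option.elim c
    (Fin.addCases (fun _ => 0) (fun j => rename (Prod.map (Fin.castAdd r) (Fin.castAdd r)) (P j)) i)
    fun c => Fin.addCases (fun _ => X (i, c)) (fun _ => 0) i

theorem bc_enc (φ : A →+* B) (P : Fin r → MvPolynomial (Fin n × Fin n) A) :
    bc φ (enc P) = enc fun j => MvPolynomial.map φ (P j) := by
  funext i c
  refine Fin.addCases (fun a => ?_) (fun j => ?_) i <;> cases c <;>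
    simp [bc, enc, MvPolynomial.map_rename]

theorem sub_rename (x : Mat (n + r) B) (h : ∀ a j, x (Fin.castAdd r a) (Fin.natAdd n j) = 0)
    (Q : MvPolynomial (Fin n × Fin n) B) :
    sub (Fin (n + r)) x (rename (Prod.map (Fin.castAdd r) (Fin.castAdd r)) Q) =
      rename (Prod.map (Fin.castAdd r) (Fin.castAdd r))
        (sub (Fin n) (x.submatrix (Fin.castAdd r) (Fin.castAdd r)) Q) :=
  RingHom.congr_fun (f := (sub (Fin (n + r)) x).comp
      (rename (Prod.map (Fin.castAdd r) (Fin.castAdd r))).toRingHom)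
    (g := (rename (Prod.map (Fin.castAdd r) (Fin.castAdd r))).toRingHom.comp
      (sub (Fin n) (x.submatrix (Fin.castAdd r) (Fin.castAdd r))))
    (ringHom_ext (fun b => by simp) fun p => by simp [Fin.sum_univ_add, h]) Q

theorem hom_enc (P : Fin r → MvPolynomial (Fin n × Fin n) B) (x : Mat (n + r) B) :
    Hom x (enc P) (enc P) ↔ (∀ a j, x (Fin.castAdd r a) (Fin.natAdd n j) = 0) ∧
      (∀ j a, x (Fin.natAdd n j) (Fin.castAdd r a) = 0) ∧
      ∀ j, ∑ j', C (x (Fin.natAdd n j) (Fin.natAdd n j')) * P j' =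
        sub (Fin n) (x.submatrix (Fin.castAdd r) (Fin.castAdd r)) (P j) := by
  have hinj : Function.Injective (Prod.map (Fin.castAdd r) (Fin.castAdd r) :
      Fin n × Fin n → Fin (n + r) × Fin (n + r)) :=
    (Fin.castAdd_injective n r).prodMap (Fin.castAdd_injective n r)
  constructor
  · intro H
    have h1 : ∀ a j, x (Fin.castAdd r a) (Fin.natAdd n j) = 0 := fun a j => by
      have := H (Fin.castAdd r a) (some (Fin.natAdd n j))
      simp only [enc, Option.elim, Fin.sum_univ_add, Fin.addCases_left, Fin.addCases_right,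
        mul_zero, Finset.sum_const_zero, add_zero, sub_X, left_eq_add] at this
      exact eq_zero_of_X (fun b => (Fin.natAdd n b, Fin.natAdd n j))
        (fun b b' e => Fin.natAdd_injective _ _ (congrArg Prod.fst e)) _ this j
    refine ⟨h1, fun j a => ?_, fun j => rename_injective _ hinj ?_⟩
    · have := H (Fin.natAdd n j) (some (Fin.natAdd n j))
      simp only [enc, Option.elim, Fin.sum_univ_add, Fin.addCases_left, Fin.addCases_right,
        mul_zero, Finset.sum_const_zero, add_zero, map_zero] at this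
      exact eq_zero_of_X (fun b => (Fin.castAdd r b, Fin.natAdd n j))
        (fun b b' e => Fin.castAdd_injective _ _ (congrArg Prod.fst e)) _ this a
    · have := H (Fin.natAdd n j) none
      simp only [enc, Option.elim, Fin.sum_univ_add, Fin.addCases_left, Fin.addCases_right,
        mul_zero, Finset.sum_const_zero, zero_add, sub_rename x h1] at this
      simpa only [map_sum, map_mul, rename_C] using this
  · rintro ⟨h1, h2, h3⟩ i c
    refine Fin.addCases (fun a => ?_) (fun j => ?_) i <;> cases c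
    · simp [enc, Fin.sum_univ_add, h1]
    · simp [enc, Fin.sum_univ_add, h1]
    · simp only [enc, Option.elim, Fin.sum_univ_add, Fin.addCases_left, Fin.addCases_right,
        mul_zero, Finset.sum_const_zero, zero_add, sub_rename x h1, ← h3, map_sum, map_mul,
        rename_C]
    · simp [enc, Fin.sum_univ_add, h2]

variable {k : Type} [Field k]

/-- The polynomials that vanish on all points of the group. -/
def van (G : LinGroup k) : Ideal (MvPolynomial (Fin G.n × Fin G.n) k) where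
  carrier := {P | ∀ (E : Type) [CommRing E] (φ : k →+* E) (g : Mat G.n E), Solves G.I φ g →
    eval₂ φ (fun p => g p.1 p.2) P = 0}
  add_mem' := fun h h' E _ φ g hg => by rw [eval₂_add, h E φ g hg, h' E φ g hg, add_zero]
  zero_mem' := fun E _ φ g _ => eval₂_zero _ _
  smul_mem' := fun c P h E _ φ g hg => by rw [smul_eq_mul, eval₂_mul, h E φ g hg, mul_zero]

theorem push_mem (G : LinGroup k) [Algebra k A] {g : Mat G.n A}
    (hg : Solves G.I (algebraMap k A) g) {P : MvPolynomial (Fin G.n × Fin G.n) k}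
    (hP : P ∈ van G) (w : A →ₗ[k] k) :
    push w (sub (Fin G.n) g (MvPolynomial.map (algebraMap k A) P)) ∈ van G := by
  intro E _ φ h hh
  let _ := φ.toAlgebra
  refine eval_push w _ _ ?_
  have e1 : (Algebra.TensorProduct.includeRight : E →ₐ[k] A ⊗[k] E).toRingHom.comp φ =
      (Algebra.TensorProduct.includeLeftRingHom : A →+* A ⊗[k] E).comp (algebraMap k A) :=
    RingHom.ext fun c => ((Algebra.TensorProduct.includeRight : E →ₐ[k] A ⊗[k] E).commutes c)
  have h1 := solves_map hh (Algebra.TensorProduct.includeRight : E →ₐ[k] A ⊗[k] E).toRingHom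
  rw [e1] at h1
  have h2 := hP _ _ _ (G.mul_mem _ _ _ _ (solves_map hg _) h1)
  rw [← eval₂_map, ← ev_subst] at h2
  exact h2

theorem exists_family (G : LinGroup k) : ∃ (r : ℕ) (P : Fin r → MvPolynomial (Fin G.n × Fin G.n) k),
    LinearIndependent k P ∧ Ideal.span (Set.range P) = van G ∧
      ∀ j Q, Q ∈ van G → Q.totalDegree ≤ (P j).totalDegree →
        Q ∈ Submodule.span k (Set.range P) := by
  obtain ⟨S, hS⟩ := IsNoetherian.noetherian (van G)
  let V : Submodule k (MvPolynomial (Fin G.n × Fin G.n) k) :=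
    (van G).restrictScalars k ⊓ restrictTotalDegree _ k (S.sup totalDegree)
  have : Module.Finite k V := Submodule.finiteDimensional_of_le inf_le_right
  let b := Module.finBasis k V
  have hV : Submodule.span k (Set.range fun j => (b j).1) = V := by
    have := congrArg (Submodule.map V.subtype) b.span_eq
    rwa [Submodule.map_span, ← Set.range_comp, Submodule.map_subtype_top] at this
  refine ⟨_, fun j => (b j).1, b.linearIndependent.map' V.subtype V.ker_subtype, ?_,
    fun j Q h1 h2 => ?_⟩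
  · refine le_antisymm (Ideal.span_le.2 ?_) ?_
    · rintro _ ⟨j, rfl⟩
      exact (b j).2.1
    · rw [← hS]
      refine Submodule.span_le.2 fun Q hQ => Submodule.span_le_restrictScalars k _ _ ?_
      rw [hV]
      exact ⟨hS ▸ Submodule.subset_span hQ,
        (mem_restrictTotalDegree _ _ _).2 (Finset.le_sup (f := totalDegree) hQ)⟩
  · rw [hV]
    exact ⟨h1, (mem_restrictTotalDegree _ _ _).2
      (h2.trans ((mem_restrictTotalDegree _ _ _).1 (b j).2.2))⟩

end Enc

open Enc in
theorem exists_form {k : Type} [Field k] (G : LinGroup k) :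
    ∃ (N : ℕ) (e : Fin G.n → Fin N) (Φ₀ : Form N (Fin N) (Option (Fin N)) k),
      ∀ (A : Type) [CommRing A] (φ : k →+* A),
        (∀ g, Solves G.I φ g → ∃ x : Mat N A, IsUnit x.det ∧ Hom x (bc φ Φ₀) (bc φ Φ₀) ∧
          x.submatrix e e = g) ∧
        (∀ x : Mat N A, IsUnit x.det → Hom x (bc φ Φ₀) (bc φ Φ₀) →
          Solves G.I φ (x.submatrix e e)) ∧
        ∀ x y : Mat N A, Hom x (bc φ Φ₀) (bc φ Φ₀) → Hom y (bc φ Φ₀) (bc φ Φ₀) →
          (x * y).submatrix e e = x.submatrix e e * y.submatrix e e ∧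
          (x.submatrix e e = y.submatrix e e → x = y) := by
  obtain ⟨r, P, hP, hI, hV⟩ := exists_family G
  have hPv : ∀ j, P j ∈ van G := fun j => hI ▸ Ideal.subset_span ⟨j, rfl⟩
  refine ⟨G.n + r, Fin.castAdd r, enc P, fun A _ φ => ?_⟩
  let _ := φ.toAlgebra
  rw [bc_enc]
  set Φ := enc fun j => MvPolynomial.map φ (P j) with hΦ
  have c3 : ∀ x y : Mat (G.n + r) A, Hom x Φ Φ → Hom y Φ Φ →
      (x * y).submatrix (Fin.castAdd r) (Fin.castAdd r) =
        x.submatrix (Fin.castAdd r) (Fin.castAdd r) * y.submatrix (Fin.castAdd r) (Fin.castAdd r) ∧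
      (x.submatrix (Fin.castAdd r) (Fin.castAdd r) = y.submatrix (Fin.castAdd r) (Fin.castAdd r) →
        x = y) := by
    intro x y hx hy
    obtain ⟨x1, x2, x3⟩ := (hom_enc _ _).1 hx
    obtain ⟨y1, y2, y3⟩ := (hom_enc _ _).1 hy
    refine ⟨?_, fun e => ?_⟩
    · ext a b
      simp [mul_apply, Fin.sum_univ_add, x1]
    · ext i i'
      refine Fin.addCases (fun a => ?_) (fun j => ?_) i <;>
        refine Fin.addCases (fun a' => ?_) (fun j' => ?_) i'
      · exact congrFun (congrFun e a) a'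
      · rw [x1, y1]
      · rw [x2, y2]
      · refine sub_eq_zero.1 (indep hP (fun j' => x (Fin.natAdd _ j) (Fin.natAdd _ j') -
          y (Fin.natAdd _ j) (Fin.natAdd _ j')) ?_ j')
        simp only [map_sub, _root_.sub_mul, Finset.sum_sub_distrib]
        exact sub_eq_zero.2 ((x3 j).trans (e ▸ (y3 j).symm))
  have c1 : ∀ g, Solves G.I φ g → ∃ x : Mat (G.n + r) A, Hom x Φ Φ ∧
      x.submatrix (Fin.castAdd r) (Fin.castAdd r) = g := by
    intro g hg
    choose b hb using fun j => mem_span P (sub (Fin G.n) g (MvPolynomial.map φ (P j))) fun w =>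
      hV j _ (push_mem G hg (hPv j) w) ((deg_push _ _).trans ((deg_sub _ _).trans
        (Finset.sup_mono (support_map_subset _ _))))
    let x : Mat (G.n + r) A := Matrix.of fun i i' => Fin.addCases
      (fun a => Fin.addCases (fun a' => g a a') (fun _ => 0) i')
      (fun j => Fin.addCases (fun _ => 0) (fun j' => b j j') i') i
    have e : x.submatrix (Fin.castAdd r) (Fin.castAdd r) = g := by
      ext a a'
      simp [x]
    refine ⟨x, (hom_enc _ _).2 ⟨fun a j => by simp [x], fun j a => by simp [x], fun j => ?_⟩, e⟩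
    rw [e, ← hb j]
    simp only [x, of_apply, Fin.addCases_right]
    rfl
  have e1 : (1 : Mat (G.n + r) A).submatrix (Fin.castAdd r) (Fin.castAdd r) = 1 :=
    submatrix_one _ (Fin.castAdd_injective _ _)
  refine ⟨fun g hg => ?_, fun x hx H => ⟨?_, fun Q hQ => ?_⟩, c3⟩
  · obtain ⟨x, hx, e⟩ := c1 g hg
    obtain ⟨y, hy, e'⟩ := c1 _ (G.inv_mem A φ g hg)
    refine ⟨x, isUnit_det_of_left_inverse (B := y) ((c3 _ _ (hx.mul hy) (Hom.one _)).2 ?_), hx, e⟩
    rw [(c3 _ _ hy hx).1, e, e', e1, nonsing_inv_mul _ hg.1]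
  · refine isUnit_det_of_left_inverse (B := x⁻¹.submatrix (Fin.castAdd r) (Fin.castAdd r)) ?_
    rw [← (c3 _ _ (H.inv hx) H).1, nonsing_inv_mul _ hx, e1]
  · have hQ' : Q ∈ Ideal.span (Set.range P) := hI ▸ fun E _ ψ g hg => hg.2 Q hQ
    refine (Ideal.span_le (I := RingHom.ker (eval₂Hom φ fun p : Fin G.n × Fin G.n =>
      x.submatrix (Fin.castAdd r) (Fin.castAdd r) p.1 p.2))).2 ?_ hQ'
    rintro _ ⟨j, rfl⟩
    have h1 := solves_map G.one_mem φ
    rw [RingHom.comp_id, Matrix.map_one _ (map_zero _) (map_one _)] at h1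
    have h2 := congrArg (eval₂ (RingHom.id A) fun p : Fin G.n × Fin G.n => (1 : Mat G.n A) p.1 p.2)
      (((hom_enc _ _).1 H).2.2 j)
    rw [ev_subst, eval₂_map, eval₂_sum, Finset.sum_eq_zero fun j' _ => by
      rw [eval₂_mul, eval₂_map, RingHom.id_comp, hPv j' A φ 1 h1, mul_zero]] at h2
    simpa using h2.symm

end Pool.Agent.MP_e8e0b6_ag.Z

end MrgPart3

-- marker of a merged file
example : 731051 + 113980 = 731051 + 113980 := rfl
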