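import Mathlib
import Pool.Agent.MP_e8e0b6_ag.Z.Torus
import Pool.Agent.MP_e8e0b6_ag.QS.Idem
import Pool.Agent.MP_e8e0b6_ag.Z.Enc
import Pool.Agent.MP_e8e0b6_ag.S.Tools
import Pool.Agent.MP_e8e0b6_ag.P1.Sch

-- ======== part 0: formerly Pool.Agent.MP_e8e0b6_ag.Z.Frame
section MrgPart0

/-!
A cocycle of invertible matrices splits near a localisation over which projective modules are free.
-/

open Matrix

namespace Pool.Agent.MP_e8e0b6_ag.Z

namespace Frame

theorem rf {R P : Type} [CommRing R] [Fintype P] (h : AllFree R) (e : Matrix P P R)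
    (he : e * e = e) : ∃ (ρ : ℕ) (Y : Matrix P (Fin ρ) R) (Y' : Matrix (Fin ρ) P R),
      Y' * Y = 1 ∧ Y * Y' = e := by
  let q := Fintype.equivFin P
  obtain ⟨ρ, Y, Y', h1, h2⟩ := h _ (e.submatrix q.symm q.symm) (by rw [submatrix_mul_equiv, he])
  refine ⟨ρ, Y.submatrix q id, Y'.submatrix id q, ?_, ?_⟩
  · rw [submatrix_mul_equiv, h1, submatrix_id_id]
  · rw [← submatrix_mul _ _ _ _ _ Function.bijective_id, h2, submatrix_submatrix]
    simp

/-- A frame over a localisation, with the denominators cleared. -/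
theorem clear {D D' P : Type} [CommRing D] [CommRing D'] [Fintype P] {ψ : D →+* D'}
    {M : Submonoid D} (hψ : Frac ψ M) (h : AllFree D') (e : Matrix P P D) (he : e * e = e) :
    ∃ s ∈ M, ∃ (ρ : ℕ) (Z : Matrix P (Fin ρ) D) (Z' : Matrix (Fin ρ) P D),
      Z' * Z = (s * s) • (1 : Matrix (Fin ρ) (Fin ρ) D) ∧ Z * Z' = (s * s) • e := by
  obtain ⟨ρ, Y, Y', h1, h2⟩ := rf h (e.map ψ) (by rw [← Matrix.map_mul, he])
  obtain ⟨s, hs, h3⟩ := hψ.common (S := Set.range (fun p : P × Fin ρ => Y p.1 p.2) ∪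
    Set.range fun p : P × Fin ρ => Y' p.2 p.1) ((Set.finite_range _).union (Set.finite_range _))
  choose Z hZ using fun a b => h3 _ (.inl ⟨(a, b), rfl⟩)
  choose Z' hZ' using fun b a => h3 _ (.inr ⟨(a, b), rfl⟩)
  have e1 : (Matrix.of Z).map ψ = ψ s • Y := by ext a b; exact hZ a b
  have e2 : (Matrix.of Z').map ψ = ψ s • Y' := by ext a b; exact hZ' a b
  refine ⟨s, hs, ρ, Matrix.of Z, Matrix.of Z', Matrix.map_injective hψ.inj ?_,
    Matrix.map_injective hψ.inj ?_⟩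
  · change Matrix.map _ _ = Matrix.map _ _
    rw [Matrix.map_mul, e1, e2, Matrix.smul_mul, Matrix.mul_smul, h1, smul_smul]
    ext a b
    by_cases hab : a = b <;> simp [one_apply, hab]
  · change Matrix.map _ _ = Matrix.map _ _
    rw [Matrix.map_mul, e1, e2, Matrix.smul_mul, Matrix.mul_smul, h2, smul_smul]
    ext a b
    simp

end Frame

variable {n : ℕ}

theorem frame {D D' L ι : Type} [CommRing D] [CommRing D'] [Nontrivial D'] [Field L] [Finite ι]
    (r : D →+* L) (hr : Function.Injective r) (f : ι → D) (hf : Ideal.span (Set.range f) = ⊤)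
    (x : ι → ι → Mat n L) (hx : ∀ i j i', x i j * x j i' = x i i') (h1 : ∀ i, x i i = 1)
    (hd : ∀ i j a b, ∃ e : ℕ, r (f i * f j) ^ e * x i j a b ∈ r.range)
    (ψ : D →+* D') {M : Submonoid D} (hψ : Frac ψ M) (hD' : AllFree D') :
    ∃ s ∈ M, ∃ y y' : ι → Mat n L, (∀ i, y' i * y i = 1) ∧ (∀ i j, y i * x i j = y j) ∧
      ∀ i a b, ∃ e : ℕ, r (s * f i) ^ e * y i a b ∈ r.range ∧
        r (s * f i) ^ e * y' i a b ∈ r.range := by
  classical
  rcases isEmpty_or_nonempty ι with hι | ⟨⟨i₀⟩⟩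
  · exact ⟨1, M.one_mem, fun _ => 1, fun _ => 1, fun i => hι.elim i, fun i => hι.elim i,
      fun i => hι.elim i⟩
  have := Fintype.ofFinite ι
  choose e he using hd
  obtain ⟨m, hm⟩ := (Set.finite_range fun p : ι × ι × Fin n × Fin n =>
    e p.1 p.2.1 p.2.2.1 p.2.2.2).bddAbove
  have ht : ∀ i j a b, r (f i) ^ m * r (f j) ^ m * x i j a b ∈ r.range := fun i j a b => by
    obtain ⟨d, hd⟩ := Nat.exists_eq_add_of_le' (hm ⟨(i, j, a, b), rfl⟩ : e i j a b ≤ m)
    rw [← mul_pow, ← map_mul, hd, pow_add, mul_assoc]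
    exact mul_mem (pow_mem (r.mem_range_self _) _) (he i j a b)
  obtain ⟨c, hc⟩ : ∃ c : ι → D, ∑ i, c i * f i ^ (m + m) = 1 := by
    rw [← Ideal.mem_span_range_iff_exists_fun, ← Ideal.eq_top_iff_one]
    simpa only [← Set.range_comp, Function.comp_def] using Ideal.span_pow_eq_top _ hf (m + m)
  let U : ι → Matrix (ι × Fin n) (Fin n) L := fun i =>
    Matrix.of fun p b => r (f p.1) ^ m * x p.1 i p.2 b
  let V : ι → Matrix (Fin n) (ι × Fin n) L := fun i =>
    Matrix.of fun a p => r (c p.1) * r (f p.1) ^ m * x i p.1 a p.2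
  have hU : ∀ i j, U i * x i j = U j := fun i j => by
    ext p b
    simp only [U, Matrix.mul_apply, of_apply, ← hx p.1 i j, Finset.mul_sum, mul_assoc]
  have hVU : ∀ i, V i * U i = 1 := fun i => by
    ext a b
    have : ∀ j, ∑ d, r (c j) * r (f j) ^ m * x i j a d * (r (f j) ^ m * x j i d b) =
        r (c j * f j ^ (m + m)) * x i i a b := fun j => by
      rw [← hx i j i, Matrix.mul_apply, Finset.mul_sum, map_mul, map_pow, pow_add]
      exact Finset.sum_congr rfl fun d _ => by ring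
    simp only [U, V, Matrix.mul_apply, of_apply, Fintype.sum_prod_type, this]
    rw [← Finset.sum_mul, ← map_sum, hc, map_one, one_mul, h1]
  choose t ht' using ht
  let E : Matrix (ι × Fin n) (ι × Fin n) D := Matrix.of fun p q => c q.1 * t p.1 q.1 p.2 q.2
  have hE : ∀ i, E.map r = U i * V i := fun i => by
    ext p q
    simp only [E, U, V, Matrix.mul_apply, of_apply, map_apply, map_mul, ht', ← hx p.1 i q.1,
      Finset.mul_sum]
    exact Finset.sum_congr rfl fun d _ => by ring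
  obtain ⟨s, hs, ρ, Z, Z', h2, h3⟩ := Frame.clear hψ hD' E (Matrix.map_injective hr (by
    change Matrix.map _ _ = Matrix.map _ _
    rw [Matrix.map_mul, hE i₀, Matrix.mul_assoc, ← Matrix.mul_assoc (V i₀), hVU, Matrix.one_mul]))
  have hσ : r s ≠ 0 := fun h => (hψ.unit s hs).ne_zero (by
    rw [hr (h.trans (map_zero r).symm), map_zero])
  have hσ' : (r s)⁻¹ * (r s)⁻¹ * (r s * r s) = 1 := by field_simp
  let W := (r s)⁻¹ • Z.map r
  let W' := (r s)⁻¹ • Z'.map r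
  have hW : W' * W = 1 := by
    rw [Matrix.smul_mul, Matrix.mul_smul, ← Matrix.map_mul, h2, smul_smul]
    ext a b
    simp only [Matrix.smul_apply, map_apply, smul_eq_mul, map_mul, one_apply, apply_ite r, map_one,
      map_zero]
    rw [← mul_assoc, hσ', one_mul]
  have hW' : ∀ i, W * W' = U i * V i := fun i => by
    rw [Matrix.smul_mul, Matrix.mul_smul, ← Matrix.map_mul, h3, smul_smul, ← hE i]
    ext a b
    simp only [Matrix.smul_apply, map_apply, smul_eq_mul, map_mul]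
    rw [← mul_assoc, hσ', one_mul]
  have h4 : ∀ i, V i * W * (W' * U i) = 1 := fun i => by
    rw [Matrix.mul_assoc, ← Matrix.mul_assoc W, hW' i, Matrix.mul_assoc, hVU, Matrix.mul_one, hVU]
  obtain rfl : n = ρ := by
    simpa using Matrix.square_of_invertible _ _ (h4 i₀) (by
      rw [Matrix.mul_assoc, ← Matrix.mul_assoc (U i₀), ← hW' i₀, Matrix.mul_assoc, hW,
        Matrix.mul_one, hW])
  have h5 : ∀ i, r (s * f i) ^ (m + 1) * (r s)⁻¹ = r (s ^ m * f i) * r (f i) ^ m := fun i => by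
    rw [map_mul, map_mul, map_pow]
    field_simp
    ring
  refine ⟨s, hs, fun i => W' * U i, fun i => V i * W, h4, fun i j => ?_, fun i a b =>
    ⟨m + 1, ?_, ?_⟩⟩
  · rw [Matrix.mul_assoc, hU]
  · beta_reduce
    rw [Matrix.mul_apply, Finset.mul_sum]
    refine sum_mem fun p _ => ⟨s ^ m * f i * Z' a p * t p.1 i p.2 b, ?_⟩
    simp only [W', U, Matrix.smul_apply, map_apply, of_apply, smul_eq_mul, ← mul_assoc, h5]
    rw [map_mul, map_mul r _ (Z' a p), ht']
    ring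
  · beta_reduce
    rw [Matrix.mul_apply, Finset.mul_sum]
    refine sum_mem fun p _ => ⟨s ^ m * f i * Z p b * c p.1 * t i p.1 a p.2, ?_⟩
    simp only [W, V, Matrix.smul_apply, map_apply, of_apply, smul_eq_mul]
    rw [mul_comm _ (_⁻¹ * _), ← mul_assoc, ← mul_assoc _ (r s)⁻¹, h5, map_mul,
      map_mul r _ (c p.1), map_mul r _ (Z p b), ht']
    ring

end Pool.Agent.MP_e8e0b6_ag.Z

end MrgPart0

-- ======== part 1: formerly Pool.Agent.MP_e8e0b6_ag.Z.Triv
section MrgPart1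

/-!
Cocycles on the affine line over a smooth variety are coboundaries near each point of the variety.
-/

open Matrix Polynomial

namespace Pool.Agent.MP_e8e0b6_ag.Z

variable {n : ℕ} {l m k A B D L : Type} [CommRing A] [CommRing B] [CommRing D] [CommRing L]

theorem aw_comp {φ : A →+* D} {s : A} (h : Frac φ (.powers s)) (r : D →+* L) (f : A) :
    aw (r.comp φ) (s * f) = aw r (φ f) := by
  refine le_antisymm ?_ ?_
  · rintro ω ⟨e, a, ha⟩
    obtain ⟨u, hu⟩ := ((h.unit s (Submonoid.mem_powers s)).pow e).exists_left_inv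
    refine ⟨e, u * φ a, ?_⟩
    have := congrArg r hu
    simp only [RingHom.comp_apply, map_mul, map_pow, map_one, mul_pow] at this ha ⊢
    rw [ha]
    linear_combination r (φ f) ^ e * ω * this
  · rintro ω ⟨e, b, hb⟩
    obtain ⟨_, ⟨i, rfl⟩, a, ha⟩ := h.den b
    refine ⟨e + i, s ^ e * f ^ i * a, ?_⟩
    simp only [RingHom.comp_apply, map_mul, map_pow, ha, hb]
    ring

theorem Frac.inj_of_comp {φ : A →+* D} {M : Submonoid A} (h : Frac φ M) {r : D →+* L}
    (hr : Function.Injective (r.comp φ)) : Function.Injective r :=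
  (injective_iff_map_eq_zero r).2 fun z hz => by
    obtain ⟨s, hs, a, ha⟩ := h.den z
    rw [show a = 0 from hr (by rw [RingHom.comp_apply, ha, map_mul, hz, mul_zero, map_zero]),
      map_zero] at ha
    exact (h.unit s hs).mul_right_eq_zero.1 ha.symm

theorem mem_range_of_aw {ι : Type} [Finite ι] {r : D →+* L} {f : ι → D}
    (hf : Ideal.span (Set.range f) = ⊤) {ω : L} (h : ∀ i, ω ∈ aw r (f i)) : ω ∈ r.range := by
  let I : Ideal D :=
    { carrier := {a | r a * ω ∈ r.range}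
      zero_mem' := ⟨0, by simp⟩
      add_mem' := fun ⟨a, h⟩ ⟨b, h'⟩ => ⟨a + b, by simp [add_mul, h, h']⟩
      smul_mem' := fun c a ⟨b, h⟩ => ⟨c * b, by simp [mul_assoc, h]⟩ }
  have : I.radical = ⊤ := top_le_iff.1 (hf ▸ Ideal.span_le.2 (by
    rintro _ ⟨i, rfl⟩
    obtain ⟨e, h⟩ := h i
    exact ⟨e, by rwa [← map_pow] at h⟩))
  simpa [I] using (Ideal.eq_top_iff_one _).1 (Ideal.radical_eq_top.1 this)

theorem _root_.Pool.Agent.MP_e8e0b6_ag.Solves.map [CommRing k]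
    {I : Set (MvPolynomial (Fin n × Fin n) k)} {φ : k →+* A} {g : Mat n A} (h : Solves I φ g)
    (ψ : A →+* B) : Solves I (ψ.comp φ) (g.map ψ) :=
  ⟨isUnit_det_map h.1 ψ, fun P hP => by
    simpa [MvPolynomial.eval₂_comp_left, Function.comp_def] using congrArg ψ (h.2 P hP)⟩

theorem exists_solves [CommRing k] {I : Set (MvPolynomial (Fin n × Fin n) k)} {φ : k →+* A}
    {ψ : A →+* B} (hψ : Function.Injective ψ) {g g' : Mat n B} (e : g' * g = 1)
    (h : ∀ i j, g i j ∈ ψ.range) (h' : ∀ i j, g' i j ∈ ψ.range) (H : Solves I (ψ.comp φ) g) :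
    ∃ x, Solves I φ x ∧ x.map ψ = g := by
  obtain ⟨x, hx, rfl⟩ := exists_mat hψ e h h'
  exact ⟨x, ⟨hx, fun P hP => hψ (by
    simpa [MvPolynomial.eval₂_comp_left, Function.comp_def] using H.2 P hP)⟩, rfl⟩

theorem eq_one_of_idem {x : Mat n A} (hx : IsUnit x.det) (h : x * x = x) : x = 1 :=
  ((isUnit_iff_isUnit_det x).2 hx).mul_left_cancel (h.trans (mul_one x).symm)

variable [Field k] [CharZero k] [IsAlgClosed k] [IsDomain B] [Algebra k B]

theorem triv_form [Finite m] {L : Type} [Field L] {d : ℕ} (z : MvPolynomial (Fin d) k →ₐ[k] B)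
    (hz : z.toRingHom.Etale) (ev : B →ₐ[k] k) (r : B[X] →+* L) (hr : Function.Injective r)
    {ι : Type} [Finite ι] (f : ι → B[X]) (hf : Ideal.span (Set.range f) = ⊤) (f0 : ∀ i, f i ≠ 0)
    (Φ₀ : Form n l m k) (x : ι → ι → Mat n L) (hx : ∀ i j i', x i j * x j i' = x i i')
    (h1 : ∀ i, x i i = 1) (hd : ∀ i j a b, x i j a b ∈ aw r (f i * f j))
    (H : ∀ i j, Hom (x i j) (bc (r.comp (algebraMap k _)) Φ₀) (bc (r.comp (algebraMap k _)) Φ₀)) :
    ∃ t, ev t ≠ 0 ∧ ∃ γ γ' : ι → Mat n L, (∀ i j, x i j * γ j = γ i) ∧ ∀ i, γ' i * γ i = 1 ∧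
      (∀ a b, γ i a b ∈ aw r (C t * f i)) ∧ (∀ a b, γ' i a b ∈ aw r (C t * f i)) ∧
      Hom (γ i) (bc (r.comp (algebraMap k _)) Φ₀) (bc (r.comp (algebraMap k _)) Φ₀) := by
  obtain ⟨_, ⟨s, hs, rfl⟩, y, y', h2, h3, h4⟩ := frame r hr f hf x hx h1 hd _
    (Frac.of_isLocalization (B := Localization.AtPrime (kerPt ev)) _
      (kerPt ev).primeCompl_le_nonZeroDivisors).poly (lindel z hz ev _)
  have s0 : s ≠ 0 := fun e => hs (e ▸ zero_mem _)
  obtain ⟨B₁, _, _, _, _, _⟩ : ∃ (D : Type) (_ : CommRing D) (_ : Algebra B D) (_ : Algebra k D),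
      IsScalarTower k B D ∧ IsLocalization.Away s D :=
    ⟨Localization.Away s, _, _, _, inferInstance, inferInstance⟩
  have le := powers_le_nonZeroDivisors_of_noZeroDivisors s0
  have := IsLocalization.isDomain_of_le_nonZeroDivisors B₁ le
  let ε : B[X] →ₐ[k] B₁[X] := mapAlgHom (IsScalarTower.toAlgHom k B B₁)
  have F1 : Frac (ε : B[X] →+* B₁[X]) (.powers (C s)) := by
    have := (Frac.of_isLocalization (B := B₁) _ le).poly
    rwa [Submonoid.map_powers] at this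
  have hu : IsUnit ((r.comp C) s) := ((map_ne_zero_iff r hr).2 (C_ne_zero.2 s0)).isUnit
  obtain ⟨r₁, rfl⟩ : ∃ r₁ : B₁[X] →+* L, r₁.comp ε = r :=
    ⟨eval₂RingHom (IsLocalization.Away.lift s hu) (r X), by ext <;> simp [ε]⟩
  have hr₁ := F1.inj_of_comp hr
  simp only [RingHom.comp_assoc, ε.comp_algebraMap] at H ⊢
  replace h4 : ∀ i, (∀ a b, y i a b ∈ aw r₁ (ε (f i))) ∧ ∀ a b, y' i a b ∈ aw r₁ (ε (f i)) :=
    fun i => ⟨fun a b => (aw_comp F1 r₁ _).le ((h4 i a b).imp fun _ h => h.1),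
      fun a b => (aw_comp F1 r₁ _).le ((h4 i a b).imp fun _ h => h.2)⟩
  have hf₁ : Ideal.span (Set.range fun i => ε (f i)) = ⊤ := by
    rw [Set.range_comp' ε, ← Ideal.map_span, hf, Ideal.map_top]
  have hu : ∀ i, IsUnit (r₁ (ε (f i))) := fun i => ((map_ne_zero_iff _ hr).2 (f0 i)).isUnit
  obtain ⟨i₀⟩ : Nonempty ι := by
    by_contra! h
    rw [Set.range_eq_empty, Ideal.span_empty] at hf
    exact bot_ne_top hf
  obtain ⟨Φ, h5⟩ := exists_hom' (h2 i₀) (bc (r₁.comp (algebraMap k _)) Φ₀)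
  have h6 := fun j => h3 i₀ j ▸ (H i₀ j).mul h5
  obtain ⟨Φ, rfl⟩ := exists_bc (φ := r₁) (Ψ := Φ) fun a b μ => mem_range_of_aw hf₁ fun i => by
    obtain ⟨h7, h8⟩ := h4 i
    rw [← range_away (hu i)] at h7 h8 ⊢
    obtain ⟨w, hw, e⟩ := exists_mat (away_injective hr₁ (hu i)) (h2 i) h7 h8
    obtain ⟨Ψ, h9⟩ := exists_hom hw (bc ((algebraMap B₁[X] _).comp (algebraMap k _)) Φ₀)
    have := h9.map (IsLocalization.Away.lift _ (hu i))
    rw [e, bc_bc, ← RingHom.comp_assoc, IsLocalization.Away.lift_comp] at this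
    rw [(h6 i).unique this (isUnit_det_of_left_inverse (h2 i)), coeff_bc]
    exact ⟨_, rfl⟩
  let ev₁ : B₁ →ₐ[k] k := IsLocalization.liftAlgHom (M := .powers s) (f := ev) fun y => by
    obtain ⟨_, i, rfl⟩ := y
    exact Ne.isUnit (by rw [map_pow]; exact pow_ne_zero _ hs)
  have e1 : ∀ b, ev₁ (algebraMap B B₁ b) = ev b := IsLocalization.lift_eq _
  obtain ⟨t₁, h7, h8⟩ := bass_quillen ((IsScalarTower.toAlgHom k B B₁).comp z)
    (RingHom.Etale.stableUnderComposition _ _ hz (RingHom.etale_algebraMap.2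
      (.of_isLocalizationAway s))) ev₁ Φ₀ Φ fun θ => by
    obtain ⟨i, hi⟩ : ∃ i, θ (ε (f i)) ≠ 0 := by
      by_contra! h
      have : (⊤ : Ideal B₁[X]) ≤ RingHom.ker θ := hf₁ ▸ Ideal.span_le.2 (by
        rintro _ ⟨i, rfl⟩; exact h i)
      exact one_ne_zero ((map_one θ).symm.trans (this trivial))
    exact ⟨_, hi, isoOn_of_aw hr₁ (hu i) (h2 i) (h4 i).1 (h4 i).2 (by rw [bc_bc]; exact h6 i)⟩
  obtain ⟨w, w', h9, h10, h11, h12⟩ := h8.exists_aw r₁
    ((map_ne_zero_iff _ hr₁).2 (C_ne_zero.2 fun e => h7 (by rw [e, map_zero]))).isUnit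
  obtain ⟨j, t, ht⟩ := IsLocalization.Away.surj s t₁
  have h13 : ∀ i, aw r₁ (C t₁) ⊔ aw r₁ (ε (f i)) ≤ aw (r₁.comp ε) (C (s * t) * f i) := fun i => by
    rw [map_mul, mul_assoc, aw_comp F1, map_mul]
    refine sup_le (aw_mono _ (Dvd.dvd.mul_right ?_ _)) (aw_mono _ (dvd_mul_left _ _))
    exact ⟨C (algebraMap B B₁ s ^ j), by rw [← map_mul, ht]; exact map_C _⟩
  rw [bc_bc] at h12
  refine ⟨s * t, ?_, fun i => y' i * w, fun i => w' * y i, fun i j => ?_, fun i => ⟨?_,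
    fun a b => h13 i ?_, fun a b => h13 i ?_, h12.mul ((h6 i).inv' (h2 i))⟩⟩
  · rw [map_mul, ← e1 t, ← ht, map_mul, map_pow, e1]
    exact mul_ne_zero hs (mul_ne_zero h7 (pow_ne_zero _ hs))
  · rw [← mul_assoc, ← one_mul (x i j), ← h2 i, mul_assoc (y' i), h3, mul_assoc (y' i),
      mul_eq_one_comm.1 (h2 j), mul_one]
  · rw [mul_assoc, ← mul_assoc (y i), mul_eq_one_comm.1 (h2 i), one_mul, h9]
  · simp only [mul_apply]
    exact sum_mem fun c _ => mul_mem (le_sup_right (a := aw r₁ (C t₁)) ((h4 i).2 _ _))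
      (le_sup_left (b := aw r₁ (ε (f i))) (h10 _ _))
  · simp only [mul_apply]
    exact sum_mem fun c _ => mul_mem (le_sup_left (b := aw r₁ (ε (f i))) (h11 _ _))
      (le_sup_right (a := aw r₁ (C t₁)) ((h4 i).1 _ _))

/-- A cocycle with values in a linear algebraic group on the affine line over a smooth variety is a
coboundary above a neighbourhood of each point. -/
theorem trivialise (G : LinGroup k) {L : Type} [Field L] {d : ℕ}
    (z : MvPolynomial (Fin d) k →ₐ[k] B) (hz : z.toRingHom.Etale) (ev : B →ₐ[k] k)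
    (r : B[X] →+* L) (hr : Function.Injective r) {ι : Type} [Finite ι] (f : ι → B[X])
    (hf : Ideal.span (Set.range f) = ⊤) (f0 : ∀ i, f i ≠ 0) (g : ι → ι → Mat G.n L)
    (hg : ∀ i j, Solves G.I (r.comp (algebraMap k _)) (g i j))
    (hc : ∀ i j i', g i j * g j i' = g i i') (hd : ∀ i j a b, g i j a b ∈ aw r (f i * f j)) :
    ∃ t, ev t ≠ 0 ∧ ∃ (γ : ∀ i, Mat G.n (Localization.Away (C t * f i)))
      (μ : ∀ i, Localization.Away (C t * f i) →+* L), (∀ i, (μ i).comp (algebraMap _ _) = r) ∧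
      (∀ i, Solves G.I ((algebraMap B[X] _).comp (algebraMap k _)) (γ i)) ∧
      ∀ i j, g i j * (γ j).map (μ j) = (γ i).map (μ i) := by
  obtain ⟨N, e, Φ₀, E⟩ := exists_form G
  have g1 := fun i => eq_one_of_idem (hg i i).1 (hc i i i)
  have : ∀ i j, ∃ x : Mat N L, IsUnit x.det ∧ (∀ a b, x a b ∈ aw r (f i * f j)) ∧
      Hom x (bc (r.comp (algebraMap k _)) Φ₀) (bc (r.comp (algebraMap k _)) Φ₀) ∧
      x.submatrix e e = g i j := fun i j => by
    have hu : IsUnit (r (f i * f j)) := ((map_ne_zero_iff _ hr).2 (mul_ne_zero (f0 i) (f0 j))).isUnit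
    have h1 := hd i j
    have h2 := hd j i
    rw [mul_comm] at h2
    rw [← range_away hu] at h1 h2 ⊢
    obtain ⟨w, h3, h4⟩ := exists_solves (I := G.I)
      (φ := (algebraMap B[X] _).comp (algebraMap k _)) (away_injective hr hu)
      ((hc j i j).trans (g1 j)) h1 h2
      (by rw [← RingHom.comp_assoc, IsLocalization.Away.lift_comp]; exact hg i j)
    obtain ⟨x, h5, h6, rfl⟩ := (E _ _).1 w h3
    have := h6.map (IsLocalization.Away.lift _ hu)
    rw [bc_bc, ← RingHom.comp_assoc, IsLocalization.Away.lift_comp] at this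
    exact ⟨_, isUnit_det_map h5 _, fun a b => ⟨_, rfl⟩, this, h4⟩
  choose x h1 h2 h3 h4 using this
  have E3 := (E L (r.comp (algebraMap k _))).2.2
  have hx : ∀ i j i', x i j * x j i' = x i i' := fun i j i' =>
    (E3 _ _ ((h3 _ _).mul (h3 _ _)) (h3 _ _)).2 (by rw [(E3 _ _ (h3 _ _) (h3 _ _)).1, h4, h4, h4, hc])
  obtain ⟨t, ht, γ, γ', h5, h6⟩ := triv_form z hz ev r hr f hf f0 Φ₀ x hx
    (fun i => eq_one_of_idem (h1 i i) (hx i i i)) h2 h3
  have hu : ∀ i, IsUnit (r (C t * f i)) := fun i => ((map_ne_zero_iff _ hr).2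
    (mul_ne_zero (C_ne_zero.2 fun e => ht (by rw [e, map_zero])) (f0 i))).isUnit
  have : ∀ i, ∃ w : Mat N (Localization.Away (C t * f i)), IsUnit w.det ∧
      w.map (IsLocalization.Away.lift _ (hu i)) = γ i := fun i => by
    obtain ⟨h7, h8, h9, -⟩ := h6 i
    rw [← range_away (hu i)] at h8 h9
    exact exists_mat (away_injective hr (hu i)) h7 h8 h9
  choose w h7 h8 using this
  refine ⟨t, ht, fun i => (w i).submatrix e e, fun i => IsLocalization.Away.lift _ (hu i),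
    fun i => IsLocalization.Away.lift_comp _ _, fun i => (E _ _).2.1 _ (h7 i)
      (.of_map (away_injective hr (hu i)) ?_), fun i j => ?_⟩
  · rw [h8, bc_bc, ← RingHom.comp_assoc, IsLocalization.Away.lift_comp]
    exact (h6 i).2.2.2
  · rw [← submatrix_map, ← submatrix_map, h8, h8, ← h4, ← (E3 _ _ (h3 _ _) (h6 j).2.2.2).1, h5]

end Pool.Agent.MP_e8e0b6_ag.Z

end MrgPart1

-- ======== part 2: formerly Pool.Agent.MP_e8e0b6_ag.Z.Crd
section MrgPart2

/-!
Points of a fibre bundle with values in rings.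
-/

open AlgebraicGeometry CategoryTheory Limits

namespace Pool.Agent.MP_e8e0b6_ag.Z

variable {k T T' : Type} [Field k] [CommRing T] [CommRing T'] {F S X W W' : Scheme.{0}}
  {G : LinGroup k} {φ : F ⟶ Spec (.of k)} {a : G.Action φ} {f : S ⟶ Spec (.of k)} {π : X ⟶ S}

variable (T) in
/-- A ring is the ring of functions on its spectrum. -/
noncomputable abbrev fn : T →+* Γ(Spec (.of T), ⊤) := (Scheme.ΓSpecIso (.of T)).inv.hom

theorem fn_comp (ρ : T →+* T') : (sp ρ).appTop.hom.comp (fn T) = (fn T').comp ρ :=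
  congrArg CommRingCat.Hom.hom (Scheme.ΓSpecIso_inv_naturality (CommRingCat.ofHom ρ)).symm

theorem fn_bij : Function.Bijective (fn T) :=
  (Scheme.ΓSpecIso (.of T)).symm.commRingCatIsoToRingEquiv.bijective

theorem map_fn (ρ : T →+* T') (g : Mat G.n T) :
    (g.map (fn T)).map (sp ρ).appTop = (g.map ρ).map (fn T') := by
  ext i j; exact RingHom.congr_fun (fn_comp ρ) _

theorem map_appTop {W'' : Scheme.{0}} (q : W' ⟶ W) (q' : W'' ⟶ W')
    (g : Matrix (Fin G.n) (Fin G.n) Γ(W, ⊤)) :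
    (g.map q.appTop).map q'.appTop = g.map (q' ≫ q).appTop := by
  ext i j; rw [Scheme.Hom.comp_appTop]; rfl

theorem point_map {w : W ⟶ Spec (.of k)} {g} (h : G.Point w g) (q : W' ⟶ W) :
    G.Point (q ≫ w) (g.map q.appTop) := by
  have := Solves.map h q.appTop.hom
  rwa [← CommRingCat.hom_comp, Category.assoc, ← Scheme.Hom.comp_appTop] at this

theorem point_sp {ψ : k →+* T} {g : Mat G.n T} :
    G.Point (sp ψ) (g.map (fn T)) ↔ Solves G.I ψ g := by
  change Solves G.I ((sp ψ).appTop.hom.comp (fn k)) _ ↔ _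
  rw [fn_comp]
  refine ⟨fun h => ?_, fun h => h.map _⟩
  obtain ⟨x, h1, h2⟩ := exists_solves fn_bij.1 (Matrix.nonsing_inv_mul _ h.1)
    (fun _ _ => fn_bij.2 _) (fun _ _ => fn_bij.2 _) h
  rwa [Matrix.map_injective fn_bij.1 h2] at h1

variable (a) in
/-- The action on points with values in a ring. -/
noncomputable def actR (g : Mat G.n T) (y : Spec (.of T) ⟶ F) : Spec (.of T) ⟶ F :=
  a.act (g.map (fn T)) y

section
variable {ψ : k →+* T} {g g' : Mat G.n T} {y : Spec (.of T) ⟶ F} (hy : y ≫ φ = sp ψ)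
  (hg : Solves G.I ψ g)
include hy hg

theorem actR_over : actR a g y ≫ φ = sp ψ := (a.over _ _ (hy ▸ point_sp.2 hg)).trans hy

theorem actR_mul (hg' : Solves G.I ψ g') : actR a (g * g') y = actR a g (actR a g' y) := by
  rw [actR, Matrix.map_mul]
  exact a.mul _ _ _ (hy ▸ point_sp.2 hg) (hy ▸ point_sp.2 hg')

theorem actR_natural (ρ : T →+* T') : sp ρ ≫ actR a g y = actR a (g.map ρ) (sp ρ ≫ y) := by
  rw [actR, a.natural _ _ _ (hy ▸ point_sp.2 hg), map_fn, actR]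

end

theorem actR_inv {ψ : k →+* T} {g : Mat G.n T} (hg : Solves G.I ψ g) (χ : T →+* T')
    {y : Spec (.of T') ⟶ F} (hy : y ≫ φ = sp (χ.comp ψ)) :
    actR a (g.map χ) (actR a (g⁻¹.map χ) y) = y := by
  rw [← actR_mul hy (hg.map χ) ((G.inv_mem _ _ _ hg).map χ), ← Matrix.map_mul,
    Matrix.mul_nonsing_inv _ hg.1, actR, Matrix.map_one _ (map_zero _) (map_one _),
    Matrix.map_one _ (map_zero _) (map_one _), a.one]

theorem exists_toOpen (U : S.Opens) (s : W ⟶ S) (h : ∀ w, s w ∈ U) : ∃ s', s' ≫ U.ι = s :=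
  ⟨_, IsOpenImmersion.lift_fac _ s (by rw [Scheme.Opens.range_ι]; rintro _ ⟨w, rfl⟩; exact h w)⟩

variable (b : FibreBundle a f π)

/-- `y` is the fibre coordinate of the point `p` in the chart `i`. -/
def Crd (i : b.ι) (p : W ⟶ X) (y : W ⟶ F) : Prop :=
  ∃ p' : W ⟶ (π ⁻¹ᵁ b.U i).toScheme, p' ≫ (π ⁻¹ᵁ b.U i).ι = p ∧ p' ≫ b.t i = y

/-- `g` is the value of the cocycle at the point `s`. -/
def Coc (i j : b.ι) (s : Spec (.of T) ⟶ S) (g : Mat G.n T) : Prop :=
  ∃ s' : Spec (.of T) ⟶ (b.U i ⊓ b.U j).toScheme, s' ≫ (b.U i ⊓ b.U j).ι = s ∧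
    (b.g i j).map s'.appTop = g.map (fn T)

variable {b} {i j l : b.ι}

theorem exists_crd {p : W ⟶ X} (h : ∀ w, (p ≫ π) w ∈ b.U i) : ∃ y, Crd b i p y :=
  let ⟨p', e⟩ := exists_toOpen (π ⁻¹ᵁ b.U i) p h; ⟨_, p', e, rfl⟩

theorem Crd.over {p : W ⟶ X} {y : W ⟶ F} (h : Crd b i p y) : y ≫ φ = p ≫ π ≫ f := by
  obtain ⟨p, rfl, rfl⟩ := h
  rw [Category.assoc, (b.isPullback i).w, ← Category.assoc (π ∣_ _), morphismRestrict_ι]
  simp only [Category.assoc]

theorem exists_pt {s : W ⟶ S} {y : W ⟶ F} (h : ∀ w, s w ∈ b.U i) (e : y ≫ φ = s ≫ f) :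
    ∃ p, Crd b i p y ∧ p ≫ π = s := by
  obtain ⟨s, rfl⟩ := exists_toOpen _ s h
  refine ⟨_, ⟨(b.isPullback i).lift y s (e.trans (Category.assoc _ _ _)), rfl,
    (b.isPullback i).lift_fst _ _ _⟩, ?_⟩
  rw [Category.assoc, ← morphismRestrict_ι, (b.isPullback i).lift_snd_assoc]

theorem Crd.unique {p p' : W ⟶ X} {y : W ⟶ F} (h : Crd b i p y) (h' : Crd b i p' y)
    (e : p ≫ π = p' ≫ π) : p = p' := by
  obtain ⟨p, rfl, rfl⟩ := h
  obtain ⟨p', rfl, h'⟩ := h'
  rw [(b.isPullback i).hom_ext h'.symm ((cancel_mono (b.U i).ι).1 (by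
    simpa only [Category.assoc, morphismRestrict_ι] using e))]

theorem Crd.comp {p : W ⟶ X} {y : W ⟶ F} (h : Crd b i p y) (q : W' ⟶ W) :
    Crd b i (q ≫ p) (q ≫ y) := by
  obtain ⟨p, rfl, rfl⟩ := h
  exact ⟨q ≫ p, Category.assoc _ _ _, Category.assoc _ _ _⟩

theorem Crd.eq {p : W ⟶ X} {y y' : W ⟶ F} (h : Crd b i p y) (h' : Crd b i p y') : y = y' := by
  obtain ⟨p, rfl, rfl⟩ := h
  obtain ⟨p', h, rfl⟩ := h'
  rw [(cancel_mono _).1 h]

variable {s : Spec (.of T) ⟶ S} {g g' g'' : Mat G.n T}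

theorem exists_coc (h : ∀ w, s w ∈ b.U i) (h' : ∀ w, s w ∈ b.U j) : ∃ g, Coc b i j s g := by
  obtain ⟨s, rfl⟩ := exists_toOpen (b.U i ⊓ b.U j) s fun w => ⟨h w, h' w⟩
  choose g hg using fun c d => fn_bij.2 (((b.g i j).map s.appTop) c d)
  exact ⟨Matrix.of g, s, rfl, by ext c d; exact (hg c d).symm⟩

theorem Coc.map (h : Coc b i j s g) (ρ : T →+* T') : Coc b i j (sp ρ ≫ s) (g.map ρ) := by
  obtain ⟨s, rfl, h⟩ := h
  exact ⟨sp ρ ≫ s, Category.assoc _ _ _, by rw [← map_appTop, h, map_fn]⟩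

theorem Coc.solves (h : Coc b i j s g) {ψ : k →+* T} (e : s ≫ f = sp ψ) : Solves G.I ψ g := by
  obtain ⟨s, rfl, h⟩ := h
  rw [← point_sp, ← h, ← e, Category.assoc]
  exact point_map (b.point i j) s

theorem Coc.mul (h : Coc b i j s g) (h' : Coc b j l s g') (h'' : Coc b i l s g'') :
    g * g' = g'' := by
  obtain ⟨s₁, e₁, h⟩ := h
  obtain ⟨s₂, e₂, h'⟩ := h'
  obtain ⟨s₃, e₃, h''⟩ := h''
  obtain ⟨s, rfl⟩ := exists_toOpen (b.U i ⊓ b.U j ⊓ (b.U j ⊓ b.U l)) s fun w =>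
    ⟨e₁ ▸ (s₁ w).2, e₂ ▸ (s₂ w).2⟩
  have key : ∀ {V : S.Opens} (s' : _ ⟶ V.toScheme) (hV : _ ≤ V), s' ≫ V.ι = s ≫ _ →
      s ≫ S.homOfLE hV = s' := fun s' hV e => (cancel_mono _).1 (by
    rw [Category.assoc, Scheme.homOfLE_ι, e])
  have := congrArg (·.map s.appTop) (b.cocycle i j l _ inf_le_left inf_le_right
    (le_inf (inf_le_left.trans inf_le_left) (inf_le_right.trans inf_le_right)))
  simp only [Matrix.map_mul (f := s.appTop.hom), map_appTop] at this
  rw [key _ _ e₁, key _ _ e₂, key _ _ e₃, h, h', h'', ← Matrix.map_mul] at this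
  exact Matrix.map_injective fn_bij.1 this

theorem Crd.act {p : Spec (.of T) ⟶ X} {y : Spec (.of T) ⟶ F} (h : Crd b j p y)
    (h' : Coc b i j (p ≫ π) g) : Crd b i p (actR a g y) := by
  obtain ⟨p₁, e₁, rfl⟩ := h
  obtain ⟨s, e, h'⟩ := h'
  obtain ⟨p, rfl⟩ := exists_toOpen (π ⁻¹ᵁ (b.U i ⊓ b.U j)) p fun w => by
    change (p ≫ π) w ∈ b.U i ⊓ b.U j
    rw [← e]
    exact (s w).2
  have h₁ : π ⁻¹ᵁ (b.U i ⊓ b.U j) ≤ π ⁻¹ᵁ b.U i := fun _ h => h.1
  have h₂ : π ⁻¹ᵁ (b.U i ⊓ b.U j) ≤ π ⁻¹ᵁ b.U j := fun _ h => h.2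
  obtain rfl : p ≫ X.homOfLE h₂ = p₁ := (cancel_mono _).1 (by
    rw [Category.assoc, Scheme.homOfLE_ι, e₁])
  obtain rfl : p ≫ π ∣_ _ = s := (cancel_mono _).1 (by
    rw [Category.assoc, morphismRestrict_ι, e, Category.assoc])
  refine ⟨p ≫ X.homOfLE h₁, by rw [Category.assoc, Scheme.homOfLE_ι], ?_⟩
  rw [Category.assoc, b.transition i j h₁ h₂, a.natural, map_appTop, h', actR, Category.assoc]
  convert point_map (b.point i j) (π ∣_ _) using 1
  rw [Category.assoc, (b.isPullback j).w, ← Category.assoc (π ∣_ _), ← Category.assoc (π ∣_ _),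
    morphismRestrict_ι, morphismRestrict_ι, Category.assoc, Scheme.homOfLE_ι_assoc, Category.assoc]

end Pool.Agent.MP_e8e0b6_ag.Z

end MrgPart2

-- ======== part 3: formerly Pool.Agent.MP_e8e0b6_ag.Z.Main
section MrgPart3

/-!
Fibre bundles with a linear structure group, elliptic base and elliptic fibre.
-/

open AlgebraicGeometry CategoryTheory Limits IsLocalRing Polynomial TrivSqZeroExt

namespace Pool.Agent.MP_e8e0b6_ag.Z

variable {k D D' L : Type} [Field k] [CommRing D] [CommRing D'] {F S X : Scheme.{0}}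
  {G : LinGroup k} {φ : F ⟶ Spec (.of k)} {a : G.Action φ} {f : S ⟶ Spec (.of k)} {π : X ⟶ S}
  {b : FibreBundle a f π}

theorem map_map' {n : ℕ} {T : Type} [CommRing T] (g : Mat n D) (χ : D →+* D') (ρ : D' →+* T) :
    (g.map χ).map ρ = g.map (ρ.comp χ) := rfl

theorem mem_of_unit {σ : Spec (.of D) ⟶ S} {U : S.Opens} {p : D}
    (h : ∀ w : PrimeSpectrum D, p ∉ w.asIdeal → σ w ∈ U) {ρ : D →+* D'} (hu : IsUnit (ρ p))
    (w : Spec (.of D')) : (sp ρ ≫ σ) w ∈ U :=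
  h (PrimeSpectrum.comap ρ w) fun e => w.2.ne_top (Ideal.eq_top_of_isUnit_mem _ e hu)

theorem exists_basic {σ : Spec (.of D) ⟶ S} {U : S.Opens} (w : PrimeSpectrum D) (h : σ w ∈ U) :
    ∃ p, p ∉ w.asIdeal ∧ ∀ w : PrimeSpectrum D, p ∉ w.asIdeal → σ w ∈ U := by
  obtain ⟨_, ⟨p, rfl⟩, h1, h2⟩ := PrimeSpectrum.isTopologicalBasis_basic_opens
    |>.exists_subset_of_mem_open (a := w) (u := (σ ⁻¹ᵁ U : Set (Spec (.of D)))) h (σ ⁻¹ᵁ U).2
  exact ⟨p, h1, fun w hw => h2 hw⟩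

theorem exists_notMem {ι : Type} {p : ι → D} (hp : Ideal.span (Set.range p) = ⊤) {P : Ideal D}
    (h : P ≠ ⊤) : ∃ i, p i ∉ P := by
  by_contra! h1
  exact h (top_le_iff.1 (hp ▸ Ideal.span_le.2 (by rintro _ ⟨i, rfl⟩; exact h1 i)))

theorem exists_glued [X.IsSeparated] [S.IsSeparated] [LocallyOfFiniteType π] [IsDomain D']
    [Field L] [Algebra D L] [IsFractionRing D L] {σ : Spec (.of D) ⟶ S} {ψ : k →+* D}
    (hσ : σ ≫ f = sp ψ) {ι : Type} {c : ι → b.ι} {u : D} {p : ι → D}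
    (hp : Ideal.span (Set.range p) = ⊤) (p0 : ∀ i, p i ≠ 0)
    (hU : ∀ i (w : PrimeSpectrum D), p i ∉ w.asIdeal → σ w ∈ b.U (c i))
    {γ : ∀ i, Mat G.n (Localization.Away (u * p i))}
    {μ : ∀ i, Localization.Away (u * p i) →+* L}
    (hμ : ∀ i, (μ i).comp (algebraMap _ _) = algebraMap D L)
    (hγ : ∀ i, Solves G.I ((algebraMap D _).comp ψ) (γ i)) {g : ι → ι → Mat G.n L}
    (hg : ∀ i j, Coc b (c i) (c j) (sp (algebraMap D L) ≫ σ) (g i j))
    (h : ∀ i j, g i j * (γ j).map (μ j) = (γ i).map (μ i)) (ε : D →+* D')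
    (hε : Function.Injective ε) (hu : IsUnit (ε u)) (τ : Spec (.of D') ⟶ F)
    (hτ : τ ≫ φ = sp (ε.comp ψ)) :
    ∃ Φ : Spec (.of D') ⟶ X, Φ ≫ π = sp ε ≫ σ ∧ ∀ i (T : Type) [CommRing T] (ρ : D' →+* T)
      (χ : Localization.Away (u * p i) →+* T), χ.comp (algebraMap _ _) = ρ.comp ε →
      Crd b (c i) (sp ρ ≫ Φ) (actR a ((γ i).map χ) (sp ρ ≫ τ)) := by
  have h1 : ∀ {T : Type} [CommRing T] (ρ : D' →+* T), (sp ρ ≫ τ) ≫ φ = sp ((ρ.comp ε).comp ψ) :=
    fun ρ => by rw [Category.assoc, hτ, sp_comp, RingHom.comp_assoc]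
  have h2 : ∀ {i} {T : Type} [CommRing T] {ρ : D →+* T} {χ : Localization.Away (u * p i) →+* T},
      χ.comp (algebraMap _ _) = ρ → Solves G.I (ρ.comp ψ) ((γ i).map χ) := fun e =>
    e ▸ (hγ _).map _
  have key : ∀ i {T : Type} [CommRing T] (ρ : D' →+* T) (hρ : IsUnit (ρ (ε (p i)))),
      ∃ (χ : Localization.Away (u * p i) →+* T) (q : Spec (.of T) ⟶ X),
      χ.comp (algebraMap _ _) = ρ.comp ε ∧ Crd b (c i) q (actR a ((γ i).map χ) (sp ρ ≫ τ)) ∧
      q ≫ π = sp (ρ.comp ε) ≫ σ := fun i _ _ ρ hρ => by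
    obtain ⟨χ, e⟩ := exists_away (u * p i) (ρ.comp ε) (by
      rw [map_mul]; exact (hu.map ρ).mul hρ)
    obtain ⟨q, h3⟩ := exists_pt (mem_of_unit (ρ := ρ.comp ε) (hU i) hρ)
      ((actR_over (a := a) (h1 ρ) (h2 e)).trans (by rw [Category.assoc, hσ, sp_comp]))
    exact ⟨χ, q, e, h3⟩
  obtain ⟨L', _, r, hr⟩ : ∃ (L' : Type) (_ : Field L') (r : D' →+* L'), Function.Injective r :=
    ⟨FractionRing D', _, algebraMap _ _, IsFractionRing.injective _ _⟩
  have hr' : Function.Injective (r.comp ε) := hr.comp hε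
  have hn : ∀ i, IsUnit (r (ε (p i))) := fun i => ((map_ne_zero_iff _ hr').2 (p0 i)).isUnit
  obtain ⟨ν, hν⟩ : ∃ ν : L →+* L', ν.comp (algebraMap D L) = r.comp ε :=
    ⟨IsFractionRing.lift hr', RingHom.ext (IsFractionRing.lift_algebraMap hr')⟩
  have h3 : ∀ i, (ν.comp (μ i)).comp (algebraMap _ _) = r.comp ε := fun i => by
    rw [RingHom.comp_assoc, hμ, hν]
  obtain ⟨i₀, -⟩ := exists_notMem hp (P := RingHom.ker ε) (RingHom.ker_ne_top ε)
  obtain ⟨χ₀, η, e₀, h4, h5⟩ := key i₀ r (hn i₀)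
  obtain rfl : χ₀ = ν.comp (μ i₀) := away_ext (e₀.trans (h3 i₀).symm)
  have cmp : ∀ i {T : Type} [CommRing T] {ρ : D' →+* T} (m : T →+* L')
      {χ : Localization.Away (u * p i) →+* T} {q : Spec (.of T) ⟶ X}, m.comp ρ = r →
      χ.comp (algebraMap _ _) = ρ.comp ε → Crd b (c i) q (actR a ((γ i).map χ) (sp ρ ≫ τ)) →
      q ≫ π = sp (ρ.comp ε) ≫ σ → sp m ≫ q = η := fun i _ _ ρ m χ q e1 e2 h6 h7 => by
    have h8 := (hg i i₀).map ν
    rw [sp_comp_assoc, hν] at h8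
    have h9 := h4.act (h5 ▸ h8)
    rw [← actR_mul (h1 r) (h8.solves (by rw [Category.assoc, hσ, sp_comp])) (h2 (h3 i₀)),
      ← map_map', ← Matrix.map_mul, h, map_map'] at h9
    have h10 := h6.comp (sp m)
    rw [actR_natural (h1 ρ) (h2 e2), map_map', sp_comp_assoc, e1, show m.comp χ = ν.comp (μ i) from
      away_ext (by rw [h3, RingHom.comp_assoc, e2, ← RingHom.comp_assoc, e1])] at h10
    exact h10.unique h9 (by rw [Category.assoc, h7, h5, sp_comp_assoc, ← RingHom.comp_assoc, e1])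
  obtain ⟨Φ, h6, h7⟩ := exists_glue hr (sp ε ≫ σ) π η (h5.trans (sp_comp_assoc _ _ _).symm)
    fun P hP => by
      obtain ⟨i, hi⟩ := exists_notMem hp (P := P.comap ε) (Ideal.comap_ne_top _ hP.ne_top)
      obtain ⟨χ, q, e, h6, h7⟩ := key i (r.codRestrict (locS r P) map_mem_locS)
        (un_iff_isUnit.1 ((un_locS hr).2 hi))
      exact ⟨q, cmp i _ rfl e h6 h7⟩
  refine ⟨Φ, h6, fun i T _ ρ χ e => ?_⟩
  obtain ⟨χ', q, e', h8, h9⟩ := key i (algebraMap D' (Localization.Away (ε (p i))))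
    (IsLocalization.Away.algebraMap_isUnit _)
  have e1 := IsLocalization.Away.lift_comp (S := Localization.Away (ε (p i))) _ (hn i)
  obtain rfl : sp (algebraMap D' _) ≫ Φ = q := ext_sp (away_injective hr (hn i)) (by
    rw [sp_comp_assoc, e1, h7, cmp i _ e1 e' h8 h9])
  obtain ⟨ρ', rfl⟩ := exists_away (ε (p i)) ρ (by
    have := (IsLocalization.Away.algebraMap_isUnit (S := Localization.Away _) (u * p i)).map χ
    rw [show χ _ = _ from RingHom.congr_fun e _, map_mul] at this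
    exact isUnit_of_mul_isUnit_right this)
  have := h8.comp (sp ρ')
  rwa [actR_natural (h1 _) (h2 e'), map_map', sp_comp_assoc, sp_comp_assoc, show ρ'.comp χ' = χ from
    away_ext (by rw [e, RingHom.comp_assoc, e', RingHom.comp_assoc])] at this

theorem exists_cover (b : FibreBundle a f π) (σ : Spec (.of D) ⟶ S) :
    ∃ (ι : Type) (_ : Finite ι) (c : ι → b.ι) (p : ι → D), Ideal.span (Set.range p) = ⊤ ∧
      (∀ i, p i ≠ 0) ∧ ∀ i (w : PrimeSpectrum D), p i ∉ w.asIdeal → σ w ∈ b.U (c i) := by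
  obtain ⟨s, h1, h2⟩ := (Ideal.span_eq_top_iff_finite {p : D | p ≠ 0 ∧
      ∃ i, ∀ w : PrimeSpectrum D, p ∉ w.asIdeal → σ w ∈ b.U i}).1 (by
    by_contra h
    obtain ⟨P, hP, h1⟩ := Ideal.exists_le_maximal _ h
    obtain ⟨i, hi⟩ := b.cover (σ (⟨P, hP.isPrime⟩ : PrimeSpectrum D))
    obtain ⟨p, h2, h3⟩ := exists_basic _ hi
    exact h2 (h1 (Ideal.subset_span ⟨fun e => h2 (e ▸ zero_mem _), i, h3⟩)))
  choose c hc using fun p : s => (h1 p.2).2
  exact ⟨s, inferInstance, c, Subtype.val, by rwa [Subtype.range_coe], fun p => (h1 p.2).1, hc⟩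

theorem exists_loc [IsDomain D] (x : D →+* k) {t : D} (ht : x t ≠ 0) :
    ∃ (E : Type) (_ : CommRing E) (_ : IsDomain E) (ε : D →+* E) (_ : IsOpenImmersion (sp ε))
      (x' : E →+* k), x'.comp ε = x ∧ Function.Injective ε ∧ IsUnit (ε t) := by
  have le := powers_le_nonZeroDivisors_of_noZeroDivisors fun e : t = 0 => ht (by rw [e, map_zero])
  obtain ⟨x', e⟩ := exists_away t x ht.isUnit
  exact ⟨_, _, IsLocalization.isDomain_of_le_nonZeroDivisors _ le, _, inferInstance, x', e,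
    IsLocalization.injective _ le, IsLocalization.Away.algebraMap_isUnit t⟩

theorem elliptic_of_bundle [IsAlgClosed k] [CharZero k] (hX : SmoothVariety (π ≫ f))
    (b : FibreBundle a f π) (eS : Elliptic f) (eF : Elliptic φ) : Elliptic (π ≫ f) := by
  have := hX.separated
  have := hX.integral
  have := hX.smooth
  have := hX.finiteType
  have := eS.1.separated
  have := isSeparated_of (π ≫ f)
  have := isSeparated_of f
  have := locallyOfFiniteType_of_comp π f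
  refine elliptic_of_germs hX fun v hv => ?_
  obtain ⟨U, hU, hL⟩ := exists_line eS (v ≫ π) (by rwa [Category.assoc])
  obtain ⟨A, _, j, _, ψ, h1, h2, h3, h4⟩ := exists_piece (π ≫ f) (v (closedPoint _)) (π ⁻¹ᵁ U) hU
    RingHom.IsStandardSmooth fun A _ j _ φ h => (smooth_of_chart j h).locally_isStandardSmooth
  obtain ⟨θ, rfl⟩ := exists_factor v j h1
  have := θ.domain_nontrivial
  have := isDomain_chart j
  let := ψ.toAlgebra
  have h5 : θ.comp ψ = algebraMap k _ := sp_inj (by rw [← sp_comp, ← h3, ← Category.assoc, hv]; rfl)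
  let x : A →ₐ[k] k := ⟨(fstR k).comp θ, fun a => congrArg fst (DFunLike.congr_fun h5 a)⟩
  have h6 : epsPoint k ≫ sp θ = sp (x : A →+* k) := sp_comp _ _
  obtain ⟨σ, e1, e2, e3⟩ := hL A (j ≫ π) x (by rintro _ ⟨p, rfl⟩; exact h2 ⟨p, rfl⟩)
    (by rw [← h6]; simp)
  have e4 : σ ≫ f = sp (algebraMap k A[X]) := by rw [e1, Category.assoc, h3, sp_comp]
  obtain ⟨ι, _, c, p, hp, p0, hc⟩ := exists_cover b σ
  let L := FractionRing A[X]
  have hr := IsFractionRing.injective A[X] L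
  have : ∀ i i', ∃ g : Mat G.n L, Coc b (c i) (c i') (sp (algebraMap A[X] L) ≫ σ) g ∧
      ∀ m m', g m m' ∈ aw (algebraMap A[X] L) (p i * p i') := fun i i' => by
    have hu := ((map_ne_zero_iff _ hr).2 (mul_ne_zero (p0 i) (p0 i'))).isUnit
    have h7 := IsLocalization.Away.algebraMap_isUnit (S := Localization.Away (p i * p i'))
      (p i * p i')
    rw [map_mul] at h7
    obtain ⟨g, hg⟩ := exists_coc (mem_of_unit (hc i) (isUnit_of_mul_isUnit_left h7))
      (mem_of_unit (hc i') (isUnit_of_mul_isUnit_right h7))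
    have := hg.map (IsLocalization.Away.lift _ hu)
    rw [sp_comp_assoc, IsLocalization.Away.lift_comp] at this
    exact ⟨_, this, fun m m' => range_away hu ▸ ⟨_, rfl⟩⟩
  choose g hg hg' using this
  obtain ⟨d, z, hz, hz'⟩ := h4.exists_etale_mvPolynomial
  obtain ⟨t, ht, γ, μ, hμ, hγ, h7⟩ := trivialise G ⟨z, DFunLike.congr_fun hz⟩ hz' x _ hr p hp p0 g
    (fun i i' => (hg i i').solves (by rw [Category.assoc, e4, sp_comp]))
    (fun _ _ _ => (hg _ _).mul (hg _ _) (hg _ _)) hg'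
  obtain ⟨i, hi⟩ := exists_notMem hp (RingHom.ker_ne_top ((x : A →+* k).comp constantCoeff))
  obtain ⟨A₁, _, _, ε₁, _, x₁, f1, f2, f3⟩ := exists_loc (x : A →+* k) (t := t * (p i).coeff 0)
    (by rw [map_mul]; exact mul_ne_zero ht hi)
  let ρ₁ : A[X] →+* DualNumber k := eval₂RingHom ((inlR k).comp x) DualNumber.eps
  have f4 : (fstR k).comp ρ₁ = (x : A →+* k).comp constantCoeff := by
    ext <;> simp [ρ₁, algebraMap_eq_inl]
  obtain ⟨χ₀, f5⟩ := exists_away (C t * p i) (ε₁.comp constantCoeff) (by simpa using f3)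
  obtain ⟨χ₁, f6⟩ := exists_away (C t * p i) ρ₁ (isUnit_iff_isUnit_fst.2 (by
    rw [show fst (ρ₁ _) = _ from RingHom.congr_fun f4 _]
    simpa using ⟨ht, hi⟩))
  have f7 : ∀ {T : Type} [CommRing T] {χ : Localization.Away (C t * p i) →+* T} {q : _ ⟶ X},
      q ≫ π = sp (χ.comp (algebraMap A[X] _)) ≫ σ → ∃ y, Crd b (c i) q y ∧
      y ≫ φ = sp (χ.comp ((algebraMap A[X] _).comp (algebraMap k _))) := fun {_ _ χ _} e => by
    have := (IsLocalization.Away.algebraMap_isUnit (S := Localization.Away _) (C t * p i)).map χ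
    rw [map_mul, map_mul] at this
    obtain ⟨y, hy⟩ := exists_crd (e ▸ mem_of_unit (ρ := χ.comp (algebraMap A[X] _)) (hc i)
      (isUnit_of_mul_isUnit_right this))
    exact ⟨y, hy, by rw [hy.over, reassoc_of% e, e4, sp_comp, RingHom.comp_assoc]⟩
  obtain ⟨y₀, g1, g2⟩ := f7 (χ := χ₀) (q := sp ε₁ ≫ j) (by
    rw [f5, ← sp_comp_assoc, e2, Category.assoc])
  obtain ⟨y₁, g3, g4⟩ := f7 (χ := χ₁) (q := sp θ ≫ j) (by rw [f6, e3])
  have hδ := G.inv_mem _ _ _ (hγ i)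
  have g5 : sp x₁ ≫ actR a ((γ i)⁻¹.map χ₀) y₀ = epsPoint k ≫ actR a ((γ i)⁻¹.map χ₁) y₁ := by
    refine Eq.trans ?_ (actR_natural g4 (hδ.map _) (fstR k)).symm
    rw [actR_natural g2 (hδ.map _), map_map', map_map', show x₁.comp χ₀ = (fstR k).comp χ₁ from
      away_ext (by rw [RingHom.comp_assoc, RingHom.comp_assoc, f5, f6, f4, ← f1]; rfl),
      (g1.comp (sp x₁)).eq (y' := sp (fstR k) ≫ y₁) (by
        have := g3.comp (sp (fstR k))
        rw [sp_comp_assoc] at this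
        rwa [sp_comp_assoc, f1])]
  have g6 := actR_over (a := a) g4 (hδ.map _)
  have g7 := actR_over (a := a) g2 (hδ.map _)
  obtain ⟨V, hV, hL'⟩ := exists_line eF _ (g6.trans (by
    rw [← RingHom.comp_assoc, f6]
    exact congrArg sp (RingHom.ext fun c => by simp [ρ₁])))
  obtain ⟨t₂, g8, g9⟩ := exists_basic (σ := actR a ((γ i)⁻¹.map χ₀) y₀) (U := V)
    (sp x₁ (closedPoint k)) (by
      change (sp x₁ ≫ _) (closedPoint k) ∈ V
      rw [g5]
      convert hV using 1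
      have : IsLocalHom (CommRingCat.ofHom (fstR k)).hom :=
        ⟨fun _ hx => isUnit_iff_isUnit_fst.2 hx⟩
      exact congrArg _ (Spec_closedPoint (f := CommRingCat.ofHom (fstR k))))
  obtain ⟨A₂, _, _, ε₂, _, x₂, f8, f9, f10⟩ := exists_loc x₁ (t := t₂) fun e => g8 (by
    change x₁ t₂ ∈ maximalIdeal k
    rw [e]; exact zero_mem _)
  obtain ⟨τ, e5, e6, e7⟩ := hL' A₂ (sp ε₂ ≫ _) x₂
    (by rintro _ ⟨w, rfl⟩; exact mem_of_unit g9 f10 w) (by rw [sp_comp_assoc, f8, g5])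
  have e8 : constantCoeff.comp (mapRingHom (ε₂.comp ε₁)) = (ε₂.comp χ₀).comp (algebraMap _ _) := by
    rw [RingHom.comp_assoc, f5]; ext <;> simp
  have e9 : (eval₂RingHom ((inlR k).comp x₂) DualNumber.eps).comp (mapRingHom (ε₂.comp ε₁)) = ρ₁ := by
    simp only [ρ₁, ← f1, ← f8]; ext <;> simp
  obtain ⟨Φ, h8, h9⟩ := exists_glued e4 hp p0 hc hμ hγ hg h7 (mapRingHom (ε₂.comp ε₁))
    (map_injective _ (f9.comp f2)) (by
      rw [coe_mapRingHom, map_C]
      exact ((isUnit_of_mul_isUnit_left (map_mul ε₁ _ _ ▸ f3)).map ε₂).map C) τ (by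
      rw [e5, Category.assoc, g7, sp_comp, sp_comp, ← RingHom.comp_assoc _ _ χ₀, f5]
      exact congrArg sp (RingHom.ext fun c => by simp))
  refine ⟨A₂, _, sp ε₂ ≫ sp ε₁ ≫ j, inferInstance, Φ, x₂, ?_, ?_, ?_⟩
  · rw [reassoc_of% h8, e1]
    simp only [Category.assoc, sp_comp_assoc, mapRingHom_comp_C]
  · have := h9 i _ _ _ e8.symm
    rw [e6, actR_natural g2 (hδ.map _), map_map', actR_inv (hγ i) _ (by
      rw [Category.assoc, g2, sp_comp, RingHom.comp_assoc])] at this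
    refine this.unique (g1.comp _) ?_
    rw [Category.assoc, h8, sp_comp_assoc, e8, RingHom.comp_assoc, f5, ← sp_comp_assoc,
      ← sp_comp_assoc, e2]
    simp only [Category.assoc]
  · have := h9 i _ _ χ₁ (f6.trans e9.symm)
    rw [e7, actR_inv (hγ i) _ g4] at this
    refine this.unique g3 ?_
    rw [Category.assoc, h8, sp_comp_assoc, e9, e3]

end Pool.Agent.MP_e8e0b6_ag.Z

end MrgPart3

-- marker of a merged file
example : 731051 + 777463 = 731051 + 777463 := rfl
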